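import Pool.Agent.Tvv.Stmts

/-!
# The labellings are Tverberg labellings
-/

set_option autoImplicit false

namespace Pool.Agent.Tvv

open scoped Classical ENNReal
open Pool.Agent.Tvb (Pos Zero Base Good hat TP)
open MeasureTheory

/-- the vector of a label as a difference of two indicator functions -/
theorem Cvx_ev {k : ℕ} (l : Lb k) (j : Fin k) (a : ℝ) :
    ev l j * a = (if l = some j then a else 0) - (if l = none then a else 0) := by
  cases l with
  | none =>
    have h1 : ¬ ((none : Lb k) = some j) := by simp
    rw [if_neg h1, if_pos rfl]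
    simp [ev]
  | some i =>
    have h1 : ¬ ((some i : Lb k) = none) := by simp
    rw [if_neg h1]
    by_cases h : i = j
    · subst h
      rw [if_pos rfl]
      simp [ev]
    · have h2 : ¬ ((some i : Lb k) = some j) := by
        intro h3
        exact h (Option.some.inj h3)
      rw [if_neg h2]
      simp [ev, h]

theorem vCvx : Stmt_Cvx := by
  intro k d q f c hc0 hc1 hc2
  have key0 : ∀ (i : Fin (d + 1)) (h : Lb k),
      ∑ s, (if f s = h then c s * hat (q s) i else 0) =
        ∑ s, (if f s = none then c s * hat (q s) i else 0) := by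
    intro i h
    cases h with
    | none => rfl
    | some j =>
      have h1 := hc2 j i
      have h2 : ∀ s, c s * (ev (f s) j * hat (q s) i) =
          (if f s = some j then c s * hat (q s) i else 0) -
            (if f s = none then c s * hat (q s) i else 0) := by
        intro s
        rw [← Cvx_ev (f s) j (c s * hat (q s) i)]
        ring
      rw [Finset.sum_congr rfl fun s _ => h2 s, Finset.sum_sub_distrib] at h1
      linarith
  have key : ∀ (i : Fin (d + 1)) (h : Lb k),
      ((k : ℝ) + 1) * ∑ s, (if f s = h then c s * hat (q s) i else 0) =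
        ∑ s, c s * hat (q s) i := by
    intro i h
    have h1 : ∑ h' : Lb k, ∑ s, (if f s = h' then c s * hat (q s) i else 0) =
        ∑ s, c s * hat (q s) i := by
      rw [Finset.sum_comm]
      refine Finset.sum_congr rfl fun s _ => ?_
      rw [Finset.sum_eq_single (f s)]
      · rw [if_pos rfl]
      · intro b _ hb
        rw [if_neg (Ne.symm hb)]
      · intro h3
        exact absurd (Finset.mem_univ _) h3
    rw [← h1, Finset.sum_congr rfl fun h' _ => key0 i h', Finset.sum_const, key0 i h,
      Finset.card_univ, Fintype.card_option, Fintype.card_fin, nsmul_eq_mul]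
    push_cast
    ring
  have hk : (0 : ℝ) ≤ (k : ℝ) + 1 := by positivity
  refine ⟨∑ s, c s • q s, fun h => ?_⟩
  have hmass : ∑ s ∈ Finset.univ.filter (fun s => f s = h), ((k : ℝ) + 1) * c s = 1 := by
    have h1 := key (Fin.last d) h
    simp only [hat, Fin.snoc_last, mul_one] at h1
    rw [hc1] at h1
    rw [← Finset.mul_sum, Finset.sum_filter]
    exact h1
  have hy : ∑ s, c s • q s =
      ∑ s ∈ Finset.univ.filter (fun s => f s = h), (((k : ℝ) + 1) * c s) • q s := by
    ext j
    have h1 := key (Fin.castSucc j) h
    simp only [hat, Fin.snoc_castSucc] at h1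
    simp only [WithLp.ofLp_sum, WithLp.ofLp_smul, Finset.sum_apply, Pi.smul_apply, smul_eq_mul]
    rw [← h1, Finset.mul_sum, Finset.sum_filter]
    refine Finset.sum_congr rfl fun s _ => ?_
    split_ifs <;> ring
  rw [hy]
  refine (convex_convexHull ℝ _).sum_mem (fun s _ => mul_nonneg hk (hc0 s)) hmass ?_
  intro s hs
  exact subset_convexHull ℝ _ ⟨s, (Finset.mem_filter.1 hs).2, rfl⟩

end Pool.Agent.Tvv
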