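import Pool.Agent.Tvv.Stmts
import Pool.Agent.Tvo.Stmts

/-!
# The sum of the determinants does not depend on the vector
-/

set_option autoImplicit false

namespace Pool.Agent.Tvv

open scoped Classical ENNReal
open Pool.Agent.Tvb (Pos Zero Base Good hat TP)
open Pool.Agent.Tvo (PP so ind)
open MeasureTheory

theorem const_sum_zero {ι L : Type*} [Fintype ι] [DecidableEq ι] [Fintype L] [Inhabited L]
    (F : (ι → L) → ℝ) (i : ι) (h : ∀ π : ι → L, ∑ l, F (Function.update π i l) = 0) :
    ∑ π, F π = 0 := by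
  rw [← (Equiv.funSplitAt i L).symm.sum_comp, Fintype.sum_prod_type_right]
  refine Finset.sum_eq_zero (fun g _ => ?_)
  rw [← h ((Equiv.funSplitAt i L).symm (default, g))]
  refine Finset.sum_congr rfl (fun l _ => ?_)
  congr 1
  funext j
  by_cases hj : j = i
  · subst hj
    simp [Equiv.funSplitAt, Equiv.piSplitAt]
  · rw [Function.update_of_ne hj]
    simp [Equiv.funSplitAt, Equiv.piSplitAt, hj]

theorem const_ev {k : ℕ} (j : Fin k) : ∑ l : Lb k, ev l j = 0 := by
  rw [Fintype.sum_option]
  have h : ∑ i : Fin k, ev (some i) j = 1 := by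
    simp [ev]
  rw [h]
  simp [ev]

theorem const_upd {k D : ℕ} (x : J k D → Fin D → ℝ) (π : J k D → Lb k) (i : J k D) (l : Lb k) :
    UU x (Function.update π i l) =
      Function.update (UU x π) i (fun c => ev l c.1 * x i c.2) := by
  funext a
  by_cases ha : a = i
  · subst ha
    rw [Function.update_self]
    unfold UU
    rw [Function.update_self]
  · rw [Function.update_of_ne ha]
    unfold UU
    rw [Function.update_of_ne ha]

theorem const_dd {k D : ℕ} (x : J k D → Fin D → ℝ) (π : J k D → Lb k) (i : J k D) :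
    ∑ l : Lb k, dd x (Function.update π i l) = 0 := by
  have h1 : ∀ l : Lb k, dd x (Function.update π i l) =
      Matrix.detRowAlternating (R := ℝ)
        (Function.update (UU x π) i (fun c => ev l c.1 * x i c.2)) := by
    intro l
    unfold dd
    rw [const_upd]
    rfl
  simp only [h1]
  have h2 := (Matrix.detRowAlternating (R := ℝ) (n := J k D)).toMultilinearMap.map_update_sum
    (Finset.univ : Finset (Lb k)) i (fun l => (fun c : J k D => ev l c.1 * x i c.2)) (UU x π)
  have h3 : (∑ l : Lb k, (fun c : J k D => ev l c.1 * x i c.2)) = 0 := by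
    funext c
    rw [Finset.sum_apply, ← Finset.sum_mul, const_ev, zero_mul]
    rfl
  rw [h3] at h2
  refine Eq.trans h2.symm ?_
  exact (Matrix.detRowAlternating (R := ℝ) (n := J k D)).map_update_zero (UU x π) i

theorem const_fix {k D : ℕ} (x : J k D → Fin D → ℝ) (ω v : J k D → ℝ) (i : J k D) :
    ∑ π : J k D → Lb k, dd x π * (PP ω (Function.update (UU x π) i v) : ℝ) = 0 := by
  refine const_sum_zero _ i (fun π => ?_)
  have h : ∀ l : Lb k, Function.update (UU x (Function.update π i l)) i v =
      Function.update (UU x π) i v := by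
    intro l
    rw [const_upd, Function.update_idem]
  simp only [h]
  rw [← Finset.sum_mul, const_dd, zero_mul]

theorem const_so {k D : ℕ} (x : J k D → Fin D → ℝ) (π : J k D → Lb k) :
    dd x π * (so (UU x π) : ℝ) = |dd x π| := by
  have h : (so (UU x π) : ℝ) = ((SignType.sign (dd x π) : SignType) : ℝ) := by
    unfold so dd
    push_cast
    rcases SignType.trichotomy (SignType.sign (Matrix.det (Matrix.of (UU x π)))) with h | h | h <;>
      rw [h]
  rw [h, mul_comm]
  exact sign_mul_self (dd x π)

theorem const_zero {k D : ℕ} (ω' : J k D → ℝ) (U : J k D → J k D → ℝ) :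
    Zero U (-ω') ↔ Pos ω' U := by
  constructor
  · rintro ⟨b, c, hb, hc, h⟩
    refine ⟨fun i => b⁻¹ * c i, fun i => mul_pos (inv_pos.2 hb) (hc i), ?_⟩
    have h1 : ∑ i, c i • U i = b • ω' := by
      rw [smul_neg] at h
      rw [← sub_eq_zero, sub_eq_neg_add]
      exact h
    have h2 : ∑ i, (b⁻¹ * c i) • U i = b⁻¹ • ∑ i, c i • U i := by
      rw [Finset.smul_sum]
      exact Finset.sum_congr rfl (fun i _ => by rw [mul_smul])
    rw [h2, h1, smul_smul, inv_mul_cancel₀ hb.ne', one_smul]
  · rintro ⟨c, hc, h⟩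
    refine ⟨1, c, one_pos, hc, ?_⟩
    rw [h, one_smul]
    exact neg_add_cancel ω'

theorem vConst (hV : Pool.Agent.Tvo.Stmt_OVec) : Stmt_Const := by
  intro k D x ω ω' hG
  have hpos : ∀ (w : J k D → ℝ), VV x w =
      ∑ π : J k D → Lb k, dd x π * ((so (UU x π) * ind (Pos w (UU x π)) : ℤ) : ℝ) := by
    intro w
    unfold VV
    refine Finset.sum_congr rfl (fun π _ => ?_)
    push_cast
    rw [← mul_assoc, const_so]
    congr 1
    unfold ind
    by_cases h : Pos w (UU x π)
    · rw [if_pos h, if_pos h]; simp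
    · rw [if_neg h, if_neg h]; simp
  have hterm : ∀ π : J k D → Lb k, dd x π * ((so (UU x π) * ind (Pos ω' (UU x π)) : ℤ) : ℝ) =
      dd x π * ((so (UU x π) * ind (Pos ω (UU x π)) : ℤ) : ℝ) -
        ∑ i, dd x π * (PP ω (Function.update (UU x π) i (-ω')) : ℝ) := by
    intro π
    by_cases hd : dd x π = 0
    · rw [hd]; simp
    · have h := (hV (J k D) ω (-ω') (UU x π) (hG π hd)).1
      have hz : ind (Zero (UU x π) (-ω')) = ind (Pos ω' (UU x π)) := by
        have h0 : Zero (UU x π) (-ω') = Pos ω' (UU x π) := propext (const_zero ω' (UU x π))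
        rw [h0]
      rw [hz] at h
      rw [← h, ← Finset.mul_sum, ← mul_sub]
      congr 1
      unfold PP
      push_cast
      rfl
  rw [hpos ω', hpos ω]
  simp only [hterm]
  rw [Finset.sum_sub_distrib, Finset.sum_comm]
  have h0 : ∑ i : J k D, ∑ π : J k D → Lb k,
      dd x π * (PP ω (Function.update (UU x π) i (-ω')) : ℝ) = 0 :=
    Finset.sum_eq_zero (fun i _ => const_fix x ω (-ω') i)
  rw [h0, sub_zero]

end Pool.Agent.Tvv
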