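import Pool.Agent.Tvv.Stmts

/-!
# The position (MP_001fdd_co, all numbers of parts, module Pst)
-/

set_option autoImplicit false

namespace Pool.Agent.Tvv

open scoped Classical ENNReal
open Pool.Agent.Tvb (Pos Zero Base Good hat TP)
open MeasureTheory

/-- inequality of the arithmetic and geometric means -/
theorem pst_amgm {ι : Type} [Fintype ι] (z : ι → ℝ) (hz : ∀ i, 0 ≤ z i) :
    ∏ i, z i ≤ ((∑ i, z i) / Fintype.card ι) ^ Fintype.card ι := by
  rcases Nat.eq_zero_or_pos (Fintype.card ι) with h0 | hpos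
  · have : IsEmpty ι := Fintype.card_eq_zero_iff.mp h0
    rw [h0]
    simp
  · have hn : (0 : ℝ) < Fintype.card ι := by exact_mod_cast hpos
    have h := Real.geom_mean_le_arith_mean_weighted (Finset.univ : Finset ι)
      (fun _ => (1 : ℝ) / Fintype.card ι) z (fun _ _ => by positivity)
      (by simp [Finset.card_univ]; field_simp) (fun i _ => hz i)
    have h2 : (∏ i, z i ^ ((1 : ℝ) / Fintype.card ι)) ^ Fintype.card ι = ∏ i, z i := by
      rw [← Finset.prod_pow]
      refine Finset.prod_congr rfl fun i _ => ?_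
      rw [← Real.rpow_natCast, ← Real.rpow_mul (hz i)]
      rw [one_div_mul_cancel hn.ne', Real.rpow_one]
    rw [← h2]
    have h3 : (0 : ℝ) ≤ ∏ i, z i ^ ((1 : ℝ) / Fintype.card ι) :=
      Finset.prod_nonneg fun i _ => Real.rpow_nonneg (hz i) _
    refine pow_le_pow_left₀ h3 (h.trans (le_of_eq ?_)) _
    rw [← Finset.mul_sum]
    ring

/-- some block determinant is not zero -/
theorem pst_exists {k D : ℕ} (x : J k D → Fin D → ℝ) (h : 0 < cc x) :
    ∃ π : J k D → Fin k, dd x (fun a => some (π a)) ≠ 0 := by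
  by_contra hc
  push Not at hc
  unfold cc at h
  rw [Finset.sum_eq_zero fun π _ => by rw [hc π]; ring] at h
  exact lt_irrefl _ h

theorem pst_sum_ev {k : ℕ} (j : Fin k) : ∑ i, ev (some j) i = 1 := by
  simp [ev]

/-- the vectors `x a` span the space -/
theorem pst_span {k D : ℕ} (hk : 1 ≤ k) (x : J k D → Fin D → ℝ) (h : 0 < cc x)
    (w : Fin D → ℝ) (hw : ∀ a, ∑ i, x a i * w i = 0) : w = 0 := by
  obtain ⟨π, hπ⟩ := pst_exists x h
  have h1 : (Matrix.of (UU x (fun a => some (π a)))).mulVec (fun c : J k D => w c.2) = 0 := by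
    funext a
    simp only [Matrix.mulVec, dotProduct, Matrix.of_apply, UU, Pi.zero_apply]
    rw [Fintype.sum_prod_type]
    calc ∑ j : Fin k, ∑ i : Fin D, ev (some (π a)) j * x a i * w i
        = ∑ j : Fin k, ev (some (π a)) j * ∑ i : Fin D, x a i * w i := by
          refine Finset.sum_congr rfl fun j _ => ?_
          rw [Finset.mul_sum]
          refine Finset.sum_congr rfl fun i _ => by ring
      _ = 0 := by
          rw [hw a]
          simp
  have h2 : (fun c : J k D => w c.2) = 0 := by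
    by_contra hne
    exact hπ (Matrix.exists_mulVec_eq_zero_iff.mp ⟨_, hne, h1⟩)
  funext i
  have := congrFun h2 (⟨0, hk⟩, i)
  simpa using this

theorem pst_ne {k D : ℕ} (x : J k D → Fin D → ℝ) (h : 0 < cc x) (a : J k D) : x a ≠ 0 := by
  intro h0
  obtain ⟨π, hπ⟩ := pst_exists x h
  apply hπ
  unfold dd
  refine Matrix.det_eq_zero_of_row_eq_zero a fun c => ?_
  simp [UU, h0]

/-- the determinants after a linear map and a scaling -/
theorem pst_dd {k D : ℕ} (x : J k D → Fin D → ℝ) (g : Matrix (Fin D) (Fin D) ℝ)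
    (r : J k D → ℝ) (π : J k D → Lb k) :
    dd (fun a i => r a * g.mulVec (x a) i) π = (∏ a, r a) * (dd x π * g.det ^ k) := by
  have h1 : Matrix.of (UU (fun a i => r a * g.mulVec (x a) i) π) =
      Matrix.diagonal r * (Matrix.of (UU x π) *
        Matrix.kroneckerMap (fun x1 x2 => x1 * x2) (1 : Matrix (Fin k) (Fin k) ℝ)
          g.transpose) := by
    ext a c
    rw [Matrix.diagonal_mul]
    simp only [Matrix.of_apply, UU, Matrix.mul_apply, Matrix.kroneckerMap_apply,
      Matrix.transpose_apply, Matrix.mulVec, dotProduct]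
    rw [Fintype.sum_prod_type, Finset.sum_eq_single c.1]
    · rw [Finset.mul_sum, Finset.mul_sum, Finset.mul_sum]
      refine Finset.sum_congr rfl fun i _ => ?_
      rw [Matrix.one_apply_eq]
      ring
    · intro j _ hj
      refine Finset.sum_eq_zero fun i _ => ?_
      rw [Matrix.one_apply_ne hj]
      ring
    · intro hc
      exact absurd (Finset.mem_univ _) hc
  unfold dd
  rw [h1, Matrix.det_mul, Matrix.det_mul, Matrix.det_diagonal, Matrix.det_kronecker]
  simp

theorem pst_cc {k D : ℕ} (x : J k D → Fin D → ℝ) (g : Matrix (Fin D) (Fin D) ℝ)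
    (r : J k D → ℝ) :
    cc (fun a i => r a * g.mulVec (x a) i) = (∏ a, r a) ^ 2 * (g.det ^ 2) ^ k * cc x := by
  unfold cc
  rw [Finset.mul_sum]
  refine Finset.sum_congr rfl fun π _ => ?_
  rw [pst_dd]
  ring

/-- a square root of a positive semidefinite matrix -/
theorem pst_sqrt {D : ℕ} (A : Matrix (Fin D) (Fin D) ℝ) (hA : A.PosSemidef) :
    ∃ g : Matrix (Fin D) (Fin D) ℝ, A = g.transpose * g := by
  open scoped MatrixOrder in
  obtain ⟨g, hg⟩ := CStarAlgebra.nonneg_iff_eq_star_mul_self.mp hA.nonneg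
  refine ⟨g, ?_⟩
  rw [hg, Matrix.star_eq_conjTranspose, Matrix.conjTranspose_eq_transpose_of_trivial]

/-- the trace -/
theorem pst_trace {D : ℕ} {ι : Type} [Fintype ι] (x : ι → Fin D → ℝ) (t : ι → ℝ)
    (g : Matrix (Fin D) (Fin D) ℝ) :
    ∑ a, t a * ∑ i, (g.mulVec (x a) i) ^ 2 = Matrix.trace (g.transpose * g *
      Matrix.of fun i i' : Fin D => ∑ a, t a * (x a i * x a i')) := by
  rw [Matrix.trace]
  simp only [Matrix.diag_apply, Matrix.mul_apply, Matrix.transpose_apply, Matrix.mulVec,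
    dotProduct, Matrix.of_apply]
  calc ∑ a, t a * ∑ l, (∑ i, g l i * x a i) ^ 2
      = ∑ a, ∑ l, ∑ i, ∑ j, g l i * g l j * (t a * (x a j * x a i)) := by
        refine Finset.sum_congr rfl fun a _ => ?_
        rw [Finset.mul_sum]
        refine Finset.sum_congr rfl fun l _ => ?_
        rw [sq, Finset.sum_mul_sum, Finset.mul_sum]
        refine Finset.sum_congr rfl fun i _ => ?_
        rw [Finset.mul_sum]
        refine Finset.sum_congr rfl fun j _ => by ring
    _ = ∑ l, ∑ i, ∑ j, ∑ a, g l i * g l j * (t a * (x a j * x a i)) := by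
        rw [Finset.sum_comm]
        refine Finset.sum_congr rfl fun l _ => ?_
        rw [Finset.sum_comm]
        refine Finset.sum_congr rfl fun i _ => ?_
        rw [Finset.sum_comm]
    _ = ∑ i, ∑ j, ∑ l, ∑ a, g l i * g l j * (t a * (x a j * x a i)) := by
        rw [Finset.sum_comm]
        refine Finset.sum_congr rfl fun i _ => ?_
        rw [Finset.sum_comm]
    _ = ∑ i, ∑ j, (∑ l, g l i * g l j) * ∑ a, t a * (x a j * x a i) := by
        refine Finset.sum_congr rfl fun i _ => Finset.sum_congr rfl fun j _ => ?_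
        rw [Finset.sum_mul_sum]

/-- V17: the position. -/
theorem vPst (hC : Stmt_Cap) : Stmt_Pst := by
  intro k D x hk hx δ hδ
  obtain ⟨t, ht, hcap⟩ := hC k D x hx δ hδ
  set M : Matrix (Fin D) (Fin D) ℝ :=
    Matrix.of fun i i' : Fin D => ∑ a, t a * (x a i * x a i') with hM
  have hquad : ∀ w : Fin D → ℝ, w ⬝ᵥ M.mulVec w = ∑ a, t a * (∑ i, x a i * w i) ^ 2 := by
    intro w
    simp only [dotProduct, Matrix.mulVec, hM, Matrix.of_apply]
    calc ∑ i, w i * ∑ i', (∑ a, t a * (x a i * x a i')) * w i'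
        = ∑ i, ∑ i', ∑ a, t a * (x a i * w i) * (x a i' * w i') := by
          refine Finset.sum_congr rfl fun i _ => ?_
          rw [Finset.mul_sum]
          refine Finset.sum_congr rfl fun i' _ => ?_
          rw [Finset.sum_mul, Finset.mul_sum]
          refine Finset.sum_congr rfl fun a _ => by ring
      _ = ∑ a, ∑ i, ∑ i', t a * (x a i * w i) * (x a i' * w i') := by
          rw [Finset.sum_comm (s := (Finset.univ : Finset (J k D)))]
          refine Finset.sum_congr rfl fun i _ => ?_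
          rw [Finset.sum_comm]
      _ = ∑ a, t a * (∑ i, x a i * w i) ^ 2 := by
          refine Finset.sum_congr rfl fun a _ => ?_
          rw [sq, Finset.sum_mul_sum, Finset.mul_sum]
          refine Finset.sum_congr rfl fun i _ => ?_
          rw [Finset.mul_sum]
          refine Finset.sum_congr rfl fun i' _ => by ring
  have hMpos : M.PosDef := by
    refine Matrix.PosDef.of_dotProduct_mulVec_pos ?_ ?_
    · ext i i'
      simp only [hM, Matrix.conjTranspose_apply, Matrix.of_apply, star_trivial]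
      refine Finset.sum_congr rfl fun a _ => by ring
    · intro w hw
      rw [star_trivial, hquad]
      have hnn : ∀ a ∈ (Finset.univ : Finset (J k D)), 0 ≤ t a * (∑ i, x a i * w i) ^ 2 :=
        fun a _ => mul_nonneg (ht a).le (sq_nonneg _)
      rcases (Finset.sum_nonneg hnn).lt_or_eq with h | h
      · exact h
      · exfalso
        apply hw
        apply pst_span hk x hx
        intro a
        have h2 := (Finset.sum_eq_zero_iff_of_nonneg hnn).mp h.symm a (Finset.mem_univ a)
        rcases mul_eq_zero.mp h2 with h3 | h3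
        · exact absurd h3 (ht a).ne'
        · exact pow_eq_zero_iff (two_ne_zero) |>.mp h3
  obtain ⟨g, hg⟩ := pst_sqrt M⁻¹ hMpos.inv.posSemidef
  have hdetM : 0 < M.det := hMpos.det_pos
  have hdetg2 : g.det ^ 2 = (M.det)⁻¹ := by
    have := congrArg Matrix.det hg
    rw [Matrix.det_mul, Matrix.det_transpose, Matrix.det_nonsing_inv, Ring.inverse_eq_inv'] at this
    rw [sq, this]
  have hdetg : g.det ≠ 0 := by
    intro h0
    rw [h0] at hdetg2
    have : (0 : ℝ) < (M.det)⁻¹ := inv_pos.mpr hdetM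
    rw [← hdetg2] at this
    norm_num at this
  -- the squared norms
  set q : J k D → ℝ := fun a => ∑ i, (g.mulVec (x a) i) ^ 2 with hq
  have hqpos : ∀ a, 0 < q a := by
    intro a
    have hne : g.mulVec (x a) ≠ 0 := by
      intro h0
      exact pst_ne x hx a (by
        by_contra hne
        exact hdetg (Matrix.exists_mulVec_eq_zero_iff.mp ⟨_, hne, h0⟩))
    obtain ⟨i, hi⟩ := Function.ne_iff.mp hne
    refine Finset.sum_pos' (fun i _ => sq_nonneg _) ⟨i, Finset.mem_univ i, ?_⟩
    have : g.mulVec (x a) i ≠ 0 := hi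
    positivity
  set r : J k D → ℝ := fun a => 1 / √(q a) with hr
  have hrpos : ∀ a, 0 < r a := fun a => one_div_pos.mpr (Real.sqrt_pos.mpr (hqpos a))
  have hr2 : ∀ a, r a ^ 2 = (q a)⁻¹ := by
    intro a
    rw [hr]
    simp only
    rw [div_pow, one_pow, Real.sq_sqrt (hqpos a).le, one_div]
  refine ⟨g, r, hdetg, hrpos, ?_, ?_⟩
  · intro a
    calc ∑ i, (r a * g.mulVec (x a) i) ^ 2 = r a ^ 2 * q a := by
          rw [hq, Finset.mul_sum]
          refine Finset.sum_congr rfl fun i _ => by ring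
      _ = 1 := by rw [hr2, inv_mul_cancel₀ (hqpos a).ne']
  · rw [pst_cc, hdetg2]
    -- the trace
    have htr : ∑ a, t a * q a = D := by
      have h1 : ∑ a, t a * q a = Matrix.trace (M⁻¹ * M) := by
        rw [hg, hq, hM]
        exact pst_trace x t g
      rw [h1, Matrix.nonsing_inv_mul _ (by rw [isUnit_iff_ne_zero]; exact hdetM.ne'),
        Matrix.trace_one, Fintype.card_fin]
    have ham := pst_amgm (fun a => t a * q a) fun a => (mul_pos (ht a) (hqpos a)).le
    rw [htr, Fintype.card_prod, Fintype.card_fin, Fintype.card_fin] at ham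
    have hE : (0 : ℝ) < Real.exp 1 ^ (k * D) := pow_pos (Real.exp_pos 1) _
    have hk0 : (0 : ℝ) < k := by exact_mod_cast hk
    have hP : (0 : ℝ) < ∏ a, (t a * q a) := Finset.prod_pos fun a _ => mul_pos (ht a) (hqpos a)
    have h1 : (k : ℝ) ^ (k * D) * ∏ a, (t a * q a) ≤ 1 := by
      rcases Nat.eq_zero_or_pos D with h0 | hD
      · subst h0
        simp
      · have hD0 : (0 : ℝ) < D := by exact_mod_cast hD
        calc (k : ℝ) ^ (k * D) * ∏ a, (t a * q a)
            ≤ (k : ℝ) ^ (k * D) * ((D : ℝ) / ((k * D : ℕ) : ℝ)) ^ (k * D) :=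
              mul_le_mul_of_nonneg_left ham (pow_nonneg hk0.le _)
          _ = 1 := by
              rw [← mul_pow]
              push_cast
              rw [show (k : ℝ) * ((D : ℝ) / ((k : ℝ) * D)) = 1 by field_simp, one_pow]
    have hprod : (∏ a, r a) ^ 2 = (∏ a, q a)⁻¹ := by
      rw [← Finset.prod_pow, ← Finset.prod_inv_distrib]
      exact Finset.prod_congr rfl fun a _ => hr2 a
    have hQ : (0 : ℝ) < ∏ a, q a := Finset.prod_pos fun a _ => hqpos a
    have hT : (0 : ℝ) < ∏ a, t a := Finset.prod_pos fun a _ => ht a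
    rw [hprod, inv_pow, div_pow, div_le_iff₀ hE]
    rw [Finset.prod_mul_distrib] at h1
    have hMk : (0 : ℝ) < M.det ^ k := pow_pos hdetM k
    have h2 : (k : ℝ) ^ (k * D) ≤ (∏ a, q a)⁻¹ * (∏ a, t a)⁻¹ := by
      rw [← mul_inv, ← one_div, le_div_iff₀ (mul_pos hQ hT)]
      calc (k : ℝ) ^ (k * D) * ((∏ a, q a) * ∏ a, t a)
          = (k : ℝ) ^ (k * D) * ((∏ a, t a) * ∏ a, q a) := by ring
        _ ≤ 1 := h1
    refine h2.trans ?_
    have h3 : (∏ a, t a)⁻¹ ≤ (1 + δ) * Real.exp 1 ^ (k * D) * cc x * (M.det ^ k)⁻¹ := by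
      rw [← div_eq_mul_inv, le_div_iff₀ hMk, inv_mul_le_iff₀ hT]
      calc M.det ^ k ≤ (1 + δ) * Real.exp 1 ^ (k * D) * cc x * ∏ a, t a := hcap
        _ = (∏ a, t a) * ((1 + δ) * Real.exp 1 ^ (k * D) * cc x) := by ring
    calc (∏ a, q a)⁻¹ * (∏ a, t a)⁻¹
        ≤ (∏ a, q a)⁻¹ * ((1 + δ) * Real.exp 1 ^ (k * D) * cc x * (M.det ^ k)⁻¹) :=
          mul_le_mul_of_nonneg_left h3 (inv_pos.mpr hQ).le
      _ = (1 + δ) * ((∏ a, q a)⁻¹ * (M.det ^ k)⁻¹ * cc x) * Real.exp 1 ^ (k * D) := by ring

end Pool.Agent.Tvv
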