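import Pool.Agent.Tvv.Stmts

/-!
# TVV, module Mdc: the mixed discriminant of the matrices of the points
-/

set_option autoImplicit false

namespace Pool.Agent.Tvv

open scoped Classical ENNReal
open Pool.Agent.Tvb (Pos Zero Base Good hat TP)
open MeasureTheory

/-- the labelling of a permutation -/
def mdcL {k D : ℕ} (σ : Equiv.Perm (J k D)) : J k D → Fin k := fun a => (σ.symm a).1

theorem mdc_dd {k D : ℕ} (x : J k D → Fin D → ℝ) (π : J k D → Fin k) :
    dd x (fun a => some (π a)) = ∑ σ : Equiv.Perm (J k D),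
      if π = mdcL σ then (Equiv.Perm.sign σ : ℝ) * ∏ r, x (σ r) r.2 else 0 := by
  unfold dd
  rw [Matrix.det_apply']
  refine Finset.sum_congr rfl fun σ _ => ?_
  by_cases h : π = mdcL σ
  · rw [if_pos h]
    congr 1
    refine Finset.prod_congr rfl fun r _ => ?_
    rw [Matrix.of_apply]
    subst h
    simp [UU, ev, mdcL]
  · rw [if_neg h]
    have : ∃ r : J k D, π (σ r) ≠ r.1 := by
      by_contra hc
      push Not at hc
      apply h
      funext a
      have := hc (σ.symm a)
      simpa [mdcL] using this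
    obtain ⟨r, hr⟩ := this
    have h0 : ∏ r : J k D, Matrix.of (UU x fun a => some (π a)) (σ r) r = 0 := by
      refine Finset.prod_eq_zero (Finset.mem_univ r) ?_
      rw [Matrix.of_apply]
      simp [UU, ev, hr]
    rw [h0, mul_zero]

theorem mdc_det {k D : ℕ} (x : J k D → Fin D → ℝ) (σ : Equiv.Perm (J k D)) :
    Matrix.det (Matrix.of fun r c : J k D =>
      if r.1 = c.1 then x (σ r) r.2 * x (σ r) c.2 else 0) =
    ((Equiv.Perm.sign σ : ℝ) * ∏ r, x (σ r) r.2) * dd x (fun a => some (mdcL σ a)) := by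
  have h1 : (Matrix.of fun r c : J k D =>
      if r.1 = c.1 then x (σ r) r.2 * x (σ r) c.2 else 0) =
      Matrix.of fun r c => x (σ r) r.2 *
        ((Matrix.of (UU x fun a => some (mdcL σ a))).submatrix σ id) r c := by
    ext r c
    simp only [Matrix.of_apply, Matrix.submatrix_apply, id_eq, UU, ev, mdcL,
      Equiv.symm_apply_apply]
    by_cases h : r.1 = c.1
    · simp [h]
    · simp [h]
  rw [h1, Matrix.det_mul_column, Matrix.det_permute]
  unfold dd
  ring

/-- Module Mdc. -/
theorem vMdc : Stmt_Mdc := by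
  intro k D x
  unfold md cc
  have h1 : ∀ π : J k D → Fin k, (dd x (fun a => some (π a))) ^ 2 =
      ∑ σ : Equiv.Perm (J k D), if π = mdcL σ then
        ((Equiv.Perm.sign σ : ℝ) * ∏ r, x (σ r) r.2) * dd x (fun a => some (π a)) else 0 := by
    intro π
    rw [sq]
    nth_rw 1 [mdc_dd]
    rw [Finset.sum_mul]
    refine Finset.sum_congr rfl fun σ _ => ?_
    rw [ite_mul, zero_mul]
  rw [Finset.sum_congr rfl fun π _ => h1 π, Finset.sum_comm]
  refine Finset.sum_congr rfl fun σ _ => ?_
  rw [Finset.sum_ite_eq' Finset.univ (mdcL σ)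
    (fun π => ((Equiv.Perm.sign σ : ℝ) * ∏ r, x (σ r) r.2) * dd x (fun a => some (π a)))]
  rw [if_pos (Finset.mem_univ _)]
  rw [← mdc_det]
  rfl

end Pool.Agent.Tvv
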