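import Pool.Agent.Tvv.Stmts

/-!
# TVV, module Ae: almost all vectors are in general position
-/

set_option autoImplicit false

namespace Pool.Agent.Tvv

open scoped Classical ENNReal
open Pool.Agent.Tvb (Pos Zero Base Good hat TP)
open MeasureTheory

theorem Ae_lin {ι : Type} [Fintype ι] (f : (ι → ℝ) →ₗ[ℝ] ℝ) (hf : f ≠ 0) :
    ∀ᵐ w ∂(volume : Measure (ι → ℝ)), f w ≠ 0 := by
  rw [ae_iff]
  have h1 : {w : ι → ℝ | ¬ f w ≠ 0} = (LinearMap.ker f : Set (ι → ℝ)) := by
    ext w
    simp [LinearMap.mem_ker]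
  rw [h1]
  exact Measure.addHaar_submodule _ _ (fun h => hf (LinearMap.ker_eq_top.1 h))

theorem Ae_base {ι : Type} [Fintype ι] [DecidableEq ι] (ω : ι → ℝ) (U : ι → ι → ℝ)
    (h : Base ω U) : ∀ᵐ w ∂(volume : Measure (ι → ℝ)), Good ω (-w) U := by
  obtain ⟨hli, c, hc, hc0⟩ := h
  have hsp : Submodule.span ℝ (Set.range U) = ⊤ :=
    hli.span_eq_top_of_card_eq_finrank' (by simp)
  let b : Module.Basis ι ℝ (ι → ℝ) := Module.Basis.mk hli hsp.ge
  have hb : ∀ i, b i = U i := fun i => Module.Basis.mk_apply hli hsp.ge i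
  have h1 : ∀ᵐ w ∂(volume : Measure (ι → ℝ)), ∀ i, b.coord i w ≠ 0 := by
    rw [ae_all_iff]
    intro i
    refine Ae_lin _ fun h0 => ?_
    have h2 : b.coord i (b i) = 0 := by rw [h0]; rfl
    rw [Module.Basis.coord_apply, Module.Basis.repr_self, Finsupp.single_eq_same] at h2
    exact one_ne_zero h2
  have h2 : ∀ᵐ w ∂(volume : Measure (ι → ℝ)), ∀ i j, i ≠ j →
      (c i • b.coord j - c j • b.coord i) w ≠ 0 := by
    rw [ae_all_iff]
    intro i
    rw [ae_all_iff]
    intro j
    by_cases hij : i = j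
    · exact Filter.Eventually.of_forall fun w h => absurd hij h
    · have h3 := Ae_lin (c i • b.coord j - c j • b.coord i) fun h0 => by
        have h4 : (c i • b.coord j - c j • b.coord i) (b j) = 0 := by rw [h0]; rfl
        rw [LinearMap.sub_apply, LinearMap.smul_apply, LinearMap.smul_apply,
          Module.Basis.coord_apply, Module.Basis.coord_apply, Module.Basis.repr_self,
          Finsupp.single_eq_same, Finsupp.single_eq_of_ne hij, smul_zero, sub_zero,
          smul_eq_mul, mul_one] at h4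
        exact hc0 i h4
      filter_upwards [h3] with w hw _
      exact hw
  filter_upwards [h1, h2] with w hw1 hw2
  have hα : ∀ i, b.repr (-w) i = - b.coord i w := by
    intro i
    rw [map_neg, Module.Basis.coord_apply]
    rfl
  have hα0 : ∀ i, b.repr (-w) i ≠ 0 := by
    intro i
    rw [hα]
    exact neg_ne_zero.2 (hw1 i)
  refine ⟨hli, fun i => b.repr (-w) i, fun i => c i / b.repr (-w) i, ?_, ?_, hα0, ?_, ?_⟩
  · have h3 := b.sum_repr (-w)
    rw [← h3]
    refine Finset.sum_congr rfl fun i _ => ?_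
    rw [h3, hb]
  · rw [hc]
    refine Finset.sum_congr rfl fun i _ => ?_
    have h4 : b.repr (-w) i * (c i / b.repr (-w) i) = c i := mul_div_cancel₀ _ (hα0 i)
    rw [h4]
  · intro i
    exact div_ne_zero (hc0 i) (hα0 i)
  · intro i j hij
    by_contra hne
    apply hw2 i j hne
    have h5 : c i / b.repr (-w) i = c j / b.repr (-w) j := hij
    rw [div_eq_div_iff (hα0 i) (hα0 j), hα, hα] at h5
    rw [LinearMap.sub_apply, LinearMap.smul_apply, LinearMap.smul_apply, smul_eq_mul,
      smul_eq_mul]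
    linarith

theorem vAe : Stmt_Ae := by
  intro k D x ω hG
  rw [ae_all_iff]
  intro π
  by_cases hd : dd x π = 0
  · exact Filter.Eventually.of_forall fun w h => absurd hd h
  · filter_upwards [Ae_base ω (UU x π) (hG π hd)] with w hw _
    exact hw

end Pool.Agent.Tvv
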