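import Pool.Agent.Tvv.Stmts
import Pool.Agent.Tvo.Gen

/-!
# V24: a generic vector
-/

set_option autoImplicit false

namespace Pool.Agent.Tvv

open scoped Classical ENNReal
open Pool.Agent.Tvb (Pos Zero Base Good hat TP)
open MeasureTheory

theorem ApW_li {k D : ℕ} (x : J k D → Fin D → ℝ) (π : J k D → Lb k) (h : dd x π ≠ 0) :
    LinearIndependent ℝ (UU x π) := by
  have h1 : IsUnit (Matrix.of (UU x π)) := by
    rw [Matrix.isUnit_iff_isUnit_det]
    exact isUnit_iff_ne_zero.mpr h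
  exact Matrix.linearIndependent_rows_iff_isUnit.mpr h1

theorem vApW : Stmt_ApW := by
  intro k D x v δ hδ
  let s : Type := {π : J k D → Lb k // dd x π ≠ 0}
  have hli : ∀ π : s, LinearIndependent ℝ (UU x π.1) := fun π => ApW_li x π.1 π.2
  let B : ∀ _ : s, Module.Basis (J k D) ℝ (J k D → ℝ) := fun π =>
    basisOfLinearIndependentOfCardEqFinrank' (UU x π.1) (hli π) (by simp)
  have hB : ∀ (π : s) i, B π i = UU x π.1 i := fun π i => by
    simp only [B, coe_basisOfLinearIndependentOfCardEqFinrank']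
  have hne : ∀ p : s × J k D, (B p.1).coord p.2 ≠ 0 := by
    intro p h0
    have h1 := congrArg (fun f => f (B p.1 p.2)) h0
    simp only [Module.Basis.coord_apply, Module.Basis.repr_self, Finsupp.single_eq_same,
      LinearMap.zero_apply] at h1
    exact one_ne_zero h1
  have : Finite s := inferInstance
  obtain ⟨ω, hω1, hω2⟩ := Pool.Agent.Tvo.Gen_avoid (fun p : s × J k D => (B p.1).coord p.2)
    hne v hδ
  refine ⟨ω, hω1, ?_⟩
  intro π hπ
  refine ⟨hli ⟨π, hπ⟩, fun i => (B ⟨π, hπ⟩).repr ω i, ?_, ?_⟩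
  · have h1 := (B ⟨π, hπ⟩).sum_repr ω
    rw [← h1]
    refine Finset.sum_congr rfl fun i _ => ?_
    rw [h1, hB]
  · intro i
    exact hω2 (⟨π, hπ⟩, i)

end Pool.Agent.Tvv
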