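import Pool.Agent.Tvv.Stmts

/-!
# V23: generic vectors
-/

set_option autoImplicit false

namespace Pool.Agent.Tvv

open scoped Classical ENNReal
open Pool.Agent.Tvb (Pos Zero Base Good hat TP)
open MeasureTheory

theorem ApX_mat {k D : ℕ} (y : J k D → Fin D → ℝ) (s : ℝ) :
    Matrix.of (UU (fun a => y a + s • Pi.single a.2 1) (fun a : J k D => some a.1)) =
      Matrix.scalar (J k D) s - (-Matrix.of (UU y (fun a : J k D => some a.1))) := by
  ext a c
  rw [sub_neg_eq_add, Matrix.add_apply, Matrix.of_apply, Matrix.of_apply]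
  simp only [UU, ev, Pi.add_apply, Pi.smul_apply, smul_eq_mul, Matrix.scalar_apply,
    Matrix.diagonal_apply]
  obtain ⟨j, i⟩ := a
  obtain ⟨j', i'⟩ := c
  by_cases hj : j = j'
  · subst hj
    by_cases hi : i = i'
    · subst hi
      simp
      ring
    · have h1 : (Pi.single i (1 : ℝ) : Fin D → ℝ) i' = 0 := Pi.single_eq_of_ne (Ne.symm hi) 1
      have h2 : ¬ ((j, i) = (j, i')) := fun h => hi (congrArg Prod.snd h)
      rw [if_pos rfl, if_neg h2]
      simp only [h1]
      ring
  · have h2 : ¬ ((j, i) = (j', i')) := fun h => hj (congrArg Prod.fst h)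
    rw [if_neg hj, if_neg h2]
    ring

theorem vApX : Stmt_ApX := by
  intro k D y δ hδ
  let M : Matrix (J k D) (J k D) ℝ := -Matrix.of (UU y (fun a : J k D => some a.1))
  have hM : M.charpoly ≠ 0 := (Matrix.charpoly_monic M).ne_zero
  have hinf : (Set.Ioo (0 : ℝ) δ).Infinite := Set.Ioo_infinite hδ
  obtain ⟨s, hs, hsn⟩ := hinf.exists_notMem_finset M.charpoly.roots.toFinset
  have hs0 : M.charpoly.eval s ≠ 0 := by
    intro h0
    refine hsn ?_
    rw [Multiset.mem_toFinset, Polynomial.mem_roots hM]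
    exact h0
  rw [Matrix.eval_charpoly, ← ApX_mat y s] at hs0
  refine ⟨fun a => y a + s • Pi.single a.2 1, ?_, ?_⟩
  · intro a
    rw [add_sub_cancel_left, norm_smul, Real.norm_eq_abs, abs_of_pos hs.1]
    have h1 : ‖(Pi.single a.2 1 : Fin D → ℝ)‖ ≤ 1 := by
      rw [pi_norm_le_iff_of_nonneg zero_le_one]
      intro i
      by_cases hi : i = a.2
      · rw [hi, Pi.single_eq_same]
        simp
      · rw [Pi.single_eq_of_ne hi]
        simp
    calc s * ‖(Pi.single a.2 1 : Fin D → ℝ)‖ ≤ s * 1 :=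
          mul_le_mul_of_nonneg_left h1 hs.1.le
      _ < δ := by rw [mul_one]; exact hs.2
  · unfold cc
    refine Finset.sum_pos' (fun π _ => sq_nonneg _) ⟨fun a => a.1, Finset.mem_univ _, ?_⟩
    have h2 : dd (fun a => y a + s • Pi.single a.2 1) (fun a : J k D => some a.1) ≠ 0 := hs0
    positivity

end Pool.Agent.Tvv
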