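import Pool.Agent.Tvv.Stmts

namespace Pool.Agent.Tvv

open scoped Classical ENNReal
open Pool.Agent.Tvb (Pos Zero Base Good hat TP)
open MeasureTheory

theorem Ari_fact (k : ℕ) (hk : 1 ≤ k) :
    (k.factorial : ℝ) ≤ Real.exp 1 * √(k : ℝ) * ((k : ℝ) / Real.exp 1) ^ k := by
  obtain ⟨m, rfl⟩ : ∃ m, k = m + 1 := ⟨k - 1, by omega⟩
  have h1 : Stirling.stirlingSeq (m + 1) ≤ Stirling.stirlingSeq 1 :=
    Stirling.stirlingSeq'_antitone (Nat.zero_le m)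
  rw [Stirling.stirlingSeq_one, Stirling.stirlingSeq] at h1
  have hpos : 0 < √(2 * ((m + 1 : ℕ) : ℝ)) * (((m + 1 : ℕ) : ℝ) / Real.exp 1) ^ (m + 1) := by
    positivity
  rw [div_le_iff₀ hpos] at h1
  refine h1.trans (le_of_eq ?_)
  have h2 : √(2 * ((m + 1 : ℕ) : ℝ)) = √2 * √((m + 1 : ℕ) : ℝ) :=
    Real.sqrt_mul (by norm_num) _
  rw [h2]
  have h3 : √(2 : ℝ) ≠ 0 := by positivity
  field_simp

theorem vAri : Stmt_Ari := by
  intro k d κ T hk hκ hT h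
  have hf := Ari_fact k hk
  have hfpos : (0 : ℝ) < (k.factorial : ℝ) := by exact_mod_cast Nat.factorial_pos k
  have hk0 : (0 : ℝ) ≤ (k : ℝ) := Nat.cast_nonneg k
  have he : (0 : ℝ) < Real.exp 1 := Real.exp_pos 1
  -- raise to the power d + 1
  have h1 : (k.factorial : ℝ) ^ (d + 1) ≤
      (Real.exp 1 * √(k : ℝ)) ^ (d + 1) * ((k : ℝ) / Real.exp 1) ^ (k * (d + 1)) := by
    calc (k.factorial : ℝ) ^ (d + 1)
        ≤ (Real.exp 1 * √(k : ℝ) * ((k : ℝ) / Real.exp 1) ^ k) ^ (d + 1) :=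
          pow_le_pow_left₀ hfpos.le hf _
      _ = _ := by rw [mul_pow, ← pow_mul]
  have h2 : (k.factorial : ℝ) ^ (d + 1) ≤
      (Real.exp 1 * √(k : ℝ)) ^ (d + 1) *
        ((k.factorial : ℝ) * T * (√((k : ℝ) ^ (d + 1)) * κ ^ k)) :=
    h1.trans (mul_le_mul_of_nonneg_left h (by positivity))
  have h3 : √((k : ℝ) ^ (d + 1)) = √(k : ℝ) ^ (d + 1) := by
    rw [Real.sqrt_eq_iff_mul_self_eq (by positivity) (by positivity), ← mul_pow,
      Real.mul_self_sqrt hk0]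
  have h4 : √(k : ℝ) ^ (d + 1) * √(k : ℝ) ^ (d + 1) = (k : ℝ) ^ (d + 1) := by
    rw [← mul_pow, Real.mul_self_sqrt hk0]
  have h5 : (Real.exp 1 * √(k : ℝ)) ^ (d + 1) *
        ((k.factorial : ℝ) * T * (√((k : ℝ) ^ (d + 1)) * κ ^ k)) =
      (k.factorial : ℝ) * ((Real.exp 1 * k) ^ (d + 1) * κ ^ k * T) := by
    rw [h3, mul_pow, mul_pow, ← h4]
    ring
  rw [h5, pow_succ'] at h2
  exact le_of_mul_le_mul_left h2 hfpos

end Pool.Agent.Tvv
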