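import Pool.Agent.Tvv.Stmts

/-!
# TVV module Ball: the euclidean norm (V19)
-/

set_option autoImplicit false

namespace Pool.Agent.Tvv

open scoped Classical ENNReal
open Pool.Agent.Tvb (Pos Zero Base Good hat TP)
open MeasureTheory

/-- the euclidean norm -/
noncomputable def Ball_N {D : ℕ} (w : Fin D → ℝ) : ℝ := ‖(WithLp.toLp 2 w : EuclideanSpace ℝ (Fin D))‖

theorem Ball_isN (D : ℕ) : IsN (Ball_N (D := D)) where
  zero := by
    unfold Ball_N
    rw [WithLp.toLp_zero, norm_zero]
  neg := by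
    intro w
    unfold Ball_N
    rw [WithLp.toLp_neg, norm_neg]
  add := by
    intro v w
    unfold Ball_N
    rw [WithLp.toLp_add]
    exact norm_add_le _ _
  eq := by
    intro w hw
    unfold Ball_N at hw
    have h := norm_eq_zero.1 hw
    have h2 := congrArg WithLp.ofLp h
    simpa using h2
  smul := by
    intro r w
    unfold Ball_N
    rw [WithLp.toLp_smul, norm_smul, Real.norm_eq_abs]
  cont := by
    unfold Ball_N
    exact continuous_norm.comp (PiLp.continuous_toLp 2 _)

theorem Ball_sq {D : ℕ} (w : Fin D → ℝ) : Ball_N w = √(∑ i, (w i) ^ 2) := by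
  unfold Ball_N
  rw [EuclideanSpace.norm_eq]
  congr 1
  exact Finset.sum_congr rfl (fun i _ => by rw [Real.norm_eq_abs, sq_abs])

theorem Ball_vol (D : ℕ) (hD : 1 ≤ D) : volume {w : Fin D → ℝ | Ball_N w < 1} =
    ENNReal.ofReal (√Real.pi ^ D / Real.Gamma ((D : ℝ) / 2 + 1)) := by
  have : Nonempty (Fin D) := ⟨⟨0, hD⟩⟩
  have h1 : {w : Fin D → ℝ | Ball_N w < 1} =
      (WithLp.toLp 2 : (Fin D → ℝ) → EuclideanSpace ℝ (Fin D)) ⁻¹' (Metric.ball 0 1) := by
    ext w
    rw [Set.mem_preimage, Metric.mem_ball, dist_zero_right]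
    rfl
  rw [h1, (PiLp.volume_preserving_toLp (Fin D)).measure_preimage
    measurableSet_ball.nullMeasurableSet, EuclideanSpace.volume_ball]
  rw [Fintype.card_fin]
  simp

theorem vBall : Stmt_Ball := by
  intro k D hD z hz _
  refine ⟨Ball_N, Ball_isN D, ?_, ?_⟩
  · intro a
    rw [Ball_sq, hz a, Real.sqrt_one]
  · unfold nu k1
    rw [Ball_vol D hD, ENNReal.toReal_ofReal]
    exact div_nonneg (pow_nonneg (Real.sqrt_nonneg _) _) (Real.Gamma_pos_of_pos (by positivity)).le

end Pool.Agent.Tvv
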