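import Pool.Agent.Tvv.Stmts

/-!
# V16: the capacity, from V14 and V15
-/

set_option autoImplicit false

namespace Pool.Agent.Tvv

open scoped Classical ENNReal
open Pool.Agent.Tvb (Pos Zero Base Good hat TP)
open MeasureTheory

/-- the blocks -/
noncomputable def cap_B {k D : ℕ} (x : J k D → Fin D → ℝ) (a : J k D) : Matrix (J k D) (J k D) ℝ :=
  Matrix.of fun c c' : J k D => if c.1 = c'.1 then x a c.2 * x a c'.2 else 0

/-- the determinant of a positive semidefinite matrix grows if a multiple of the identity is added -/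
lemma cap_det_mono {ι : Type*} [Fintype ι] [DecidableEq ι] {B : Matrix ι ι ℝ} (hB : B.PosSemidef)
    {s : ℝ} (hs : 0 ≤ s) : B.det ≤ (B + s • (1 : Matrix ι ι ℝ)).det := by
  have hH := hB.isHermitian
  have h1 : ∀ r : ℝ, (B + r • (1 : Matrix ι ι ℝ)).det = ∏ i, (hH.eigenvalues i + r) := by
    intro r
    have h2 := congrArg (Polynomial.eval (-r)) hH.charpoly_eq
    rw [Matrix.eval_charpoly, Polynomial.eval_prod] at h2
    simp only [Polynomial.eval_sub, Polynomial.eval_X, Polynomial.eval_C] at h2
    have h3 : (B + r • (1 : Matrix ι ι ℝ)) = -(Matrix.scalar ι (-r) - B) := by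
      ext i j
      by_cases hij : i = j
      · subst hij
        simp
      · simp [hij]
    rw [h3, Matrix.det_neg, h2]
    rw [← Finset.card_univ, ← Finset.prod_const, ← Finset.prod_mul_distrib]
    refine Finset.prod_congr rfl fun i _ => ?_
    simp
  have h4 := h1 0
  rw [zero_smul, add_zero] at h4
  rw [h4, h1 s]
  refine Finset.prod_le_prod (fun i _ => ?_) fun i _ => ?_
  · rw [add_zero]
    exact hB.eigenvalues_nonneg i
  · linarith

/-- the blocks are positive semidefinite -/
lemma cap_psd {k D : ℕ} (x : J k D → Fin D → ℝ) (a : J k D) : (cap_B x a).PosSemidef := by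
  refine Matrix.PosSemidef.of_dotProduct_mulVec_nonneg ?_ fun v => ?_
  · ext c c'
    simp only [cap_B, Matrix.conjTranspose_apply, Matrix.of_apply, star_trivial]
    by_cases h : c.1 = c'.1
    · rw [if_pos h, if_pos h.symm, mul_comm]
    · rw [if_neg h, if_neg (Ne.symm h)]
  · have h1 : star v ⬝ᵥ (cap_B x a).mulVec v = ∑ j : Fin k, (∑ i : Fin D, x a i * v (j, i)) ^ 2 := by
      simp only [dotProduct, Matrix.mulVec, cap_B, Matrix.of_apply, Pi.star_apply, star_trivial]
      rw [Fintype.sum_prod_type]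
      refine Finset.sum_congr rfl fun j _ => ?_
      rw [sq, Finset.sum_mul_sum]
      refine Finset.sum_congr rfl fun i _ => ?_
      rw [Finset.mul_sum, Fintype.sum_prod_type, Finset.sum_eq_single j]
      · refine Finset.sum_congr rfl fun i' _ => ?_
        simp
        ring
      · intro j' _ hj'
        refine Finset.sum_eq_zero fun i' _ => ?_
        simp [Ne.symm hj']
      · intro h
        exact absurd (Finset.mem_univ j) h
    rw [h1]
    exact Finset.sum_nonneg fun j _ => sq_nonneg _

/-- the determinant of the sum of the blocks -/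
lemma cap_det {k D : ℕ} (x : J k D → Fin D → ℝ) (t : J k D → ℝ) :
    (∑ a, t a • cap_B x a).det =
      (Matrix.det (Matrix.of fun i i' : Fin D => ∑ a, t a * (x a i * x a i'))) ^ k := by
  have h1 : (∑ a, t a • cap_B x a) = (Matrix.blockDiagonal fun _ : Fin k =>
      Matrix.of fun i i' : Fin D => ∑ a, t a * (x a i * x a i')).submatrix
        Prod.swap Prod.swap := by
    ext c c'
    simp only [Matrix.sum_apply, Matrix.smul_apply, cap_B, Matrix.of_apply, smul_eq_mul,
      Matrix.submatrix_apply, Matrix.blockDiagonal_apply, Prod.fst_swap, Prod.snd_swap]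
    by_cases h : c.1 = c'.1
    · simp [h]
    · simp [h]
  have h2 : (Prod.swap : J k D → Fin D × Fin k) = Equiv.prodComm (Fin k) (Fin D) := rfl
  rw [h1, h2, Matrix.det_submatrix_equiv_self, Matrix.det_blockDiagonal]
  simp

/-- the mixed discriminant is continuous -/
lemma cap_cont {k D : ℕ} (x : J k D → Fin D → ℝ) :
    Continuous fun s : ℝ => md (fun a : J k D => cap_B x a + s • (1 : Matrix (J k D) (J k D) ℝ)) := by
  unfold md
  refine continuous_finsetSum _ fun σ _ => Continuous.matrix_det ?_
  refine continuous_matrix fun r c => ?_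
  simp only [Matrix.of_apply, Matrix.add_apply, Matrix.smul_apply, smul_eq_mul]
  fun_prop

theorem vCap (hG : Stmt_Gur) (hM : Stmt_Mdc) : Stmt_Cap := by
  intro k D x hc δ hδ
  have h0 : md (fun a : J k D => cap_B x a + (0 : ℝ) • (1 : Matrix (J k D) (J k D) ℝ)) = cc x := by
    simp only [zero_smul, add_zero]
    exact hM k D x
  have hlt : cc x < (1 + δ) * cc x := by nlinarith
  have hev : ∀ᶠ s in nhds (0 : ℝ),
      md (fun a : J k D => cap_B x a + s • (1 : Matrix (J k D) (J k D) ℝ)) < (1 + δ) * cc x := by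
    refine (cap_cont x).continuousAt.eventually_lt continuousAt_const ?_
    rw [h0]
    exact hlt
  obtain ⟨r, hr, hball⟩ := Metric.eventually_nhds_iff.1 hev
  have hs : (0 : ℝ) < r / 2 := by positivity
  have h1 := hball (y := r / 2) (by rw [Real.dist_eq, sub_zero, abs_of_pos hs]; linarith)
  have hpd : ∀ a : J k D, (cap_B x a + (r / 2) • (1 : Matrix (J k D) (J k D) ℝ)).PosDef := fun a =>
    Matrix.PosDef.posSemidef_add (cap_psd x a) (Matrix.PosDef.one.smul hs)
  obtain ⟨t, ht, hle⟩ := hG (J k D) _ hpd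
  refine ⟨t, ht, ?_⟩
  rw [← cap_det]
  have hpsd : (∑ a, t a • cap_B x a).PosSemidef :=
    Matrix.posSemidef_sum _ fun a _ => (cap_psd x a).smul (ht a).le
  have h2 : ∑ a, t a • (cap_B x a + (r / 2) • (1 : Matrix (J k D) (J k D) ℝ)) =
      (∑ a, t a • cap_B x a) + ((∑ a, t a) * (r / 2)) • (1 : Matrix (J k D) (J k D) ℝ) := by
    rw [Finset.sum_mul, Finset.sum_smul, ← Finset.sum_add_distrib]
    refine Finset.sum_congr rfl fun a _ => ?_
    rw [smul_add, smul_smul]
  have h3 := cap_det_mono hpsd (s := (∑ a, t a) * (r / 2))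
    (mul_nonneg (Finset.sum_nonneg fun a _ => (ht a).le) hs.le)
  rw [h2] at hle
  have h4 : Real.exp (Fintype.card (J k D)) = Real.exp 1 ^ (k * D) := by
    rw [Fintype.card_prod, Fintype.card_fin, Fintype.card_fin, ← Real.exp_nat_mul, mul_one]
  have h5 : (0 : ℝ) < ∏ a, t a := Finset.prod_pos fun a _ => ht a
  calc (∑ a, t a • cap_B x a).det ≤ _ := h3
    _ ≤ _ := hle
    _ ≤ Real.exp (Fintype.card (J k D)) * ((1 + δ) * cc x) * ∏ a, t a := by
      refine mul_le_mul_of_nonneg_right ?_ h5.le
      exact mul_le_mul_of_nonneg_left h1.le (Real.exp_pos _).le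
    _ = _ := by rw [h4]; ring

end Pool.Agent.Tvv
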