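import Pool.Agent.Tvv.Stmts

/-!
# The chain of derivatives (MP_001fdd_co, all numbers of parts)
-/

set_option autoImplicit false

namespace Pool.Agent.Tvv

open scoped Classical ENNReal
open Pool.Agent.Tvb (Pos Zero Base Good hat TP)
open MeasureTheory

/-- the restriction of `f` to the line through `t` in the direction `c` -/
noncomputable def chnLine {n : ℕ} (t : Fin n → ℝ) (c : Fin n) (f : MvPolynomial (Fin n) ℝ) :
    Polynomial ℝ :=
  MvPolynomial.aeval (fun i => Polynomial.C (t i) + if i = c then Polynomial.X else 0) f

theorem chn_eval {n : ℕ} (t : Fin n → ℝ) (c : Fin n) (f : MvPolynomial (Fin n) ℝ) (s : ℝ) :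
    (chnLine t c f).eval s = MvPolynomial.eval (fun i => t i + if i = c then s else 0) f := by
  unfold chnLine
  induction f using MvPolynomial.induction_on with
  | C a => simp
  | add p q hp hq => rw [map_add, map_add, Polynomial.eval_add, hp, hq]
  | mul_X p i hp =>
    rw [map_mul, map_mul, Polynomial.eval_mul, hp, MvPolynomial.aeval_X, MvPolynomial.eval_X]
    by_cases hi : i = c
    · rw [if_pos hi, if_pos hi]; simp
    · rw [if_neg hi, if_neg hi]; simp

theorem chn_aeval {n : ℕ} (t : Fin n → ℝ) (c : Fin n) (f : MvPolynomial (Fin n) ℝ) (z : ℂ) :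
    Polynomial.aeval z (chnLine t c f) =
      MvPolynomial.aeval (fun i => (t i : ℂ) + if i = c then z else 0) f := by
  unfold chnLine
  induction f using MvPolynomial.induction_on with
  | C a => simp
  | add p q hp hq => rw [map_add, map_add, map_add, hp, hq]
  | mul_X p i hp =>
    rw [map_mul, map_mul, map_mul, hp, MvPolynomial.aeval_X, MvPolynomial.aeval_X]
    by_cases hi : i = c
    · rw [if_pos hi, if_pos hi]; simp
    · rw [if_neg hi, if_neg hi]; simp

theorem chn_deriv {n : ℕ} (t : Fin n → ℝ) (c : Fin n) (f : MvPolynomial (Fin n) ℝ) :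
    (chnLine t c f).derivative = chnLine t c (MvPolynomial.pderiv c f) := by
  unfold chnLine
  induction f using MvPolynomial.induction_on with
  | C a => simp
  | add p q hp hq => rw [map_add, map_add, hp, hq, map_add, map_add]
  | mul_X p i hp =>
    rw [map_mul, Polynomial.derivative_mul, hp, MvPolynomial.aeval_X, MvPolynomial.pderiv_mul,
      map_add (MvPolynomial.aeval _), map_mul (MvPolynomial.aeval _),
      map_mul (MvPolynomial.aeval _), MvPolynomial.aeval_X]
    by_cases hi : i = c
    · subst hi
      rw [MvPolynomial.pderiv_X_self]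
      simp
    · rw [if_neg hi, MvPolynomial.pderiv_X_of_ne hi]
      simp

theorem chn_filter {n : ℕ} (j : ℕ) (hj : j < n) :
    (Finset.univ.filter fun i : Fin n => i.val < j + 1) =
      insert (⟨j, hj⟩ : Fin n) (Finset.univ.filter fun i : Fin n => i.val < j) := by
  ext i
  simp only [Finset.mem_filter, Finset.mem_univ, true_and, Finset.mem_insert, Fin.ext_iff]
  omega

theorem chn_zero {n : ℕ} (f : MvPolynomial (Fin n) ℝ) (hf : HS f 0) (t : Fin n → ℝ) :
    MvPolynomial.eval t f = MvPolynomial.coeff 0 f := by
  have h1 := (MvPolynomial.totalDegree_zero_iff_isHomogeneous (Fin n)).mpr hf.1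
  rw [MvPolynomial.totalDegree_eq_zero_iff_eq_C] at h1
  rw [h1, MvPolynomial.eval_C, MvPolynomial.coeff_zero_C]

theorem chn_step (hU : Stmt_Uni) (hD : Stmt_Der) {n : ℕ} (j : ℕ) (hj : j < n)
    (ih : ∀ f : MvPolynomial (Fin n) ℝ, HS f j → ∃ t : Fin n → ℝ,
      (∀ i : Fin n, i.val < j → 0 < t i) ∧ (∀ i : Fin n, j ≤ i.val → t i = 0) ∧
      MvPolynomial.eval t f ≤ Real.exp j * MvPolynomial.coeff
        (∑ i ∈ Finset.univ.filter (fun i : Fin n => i.val < j), Finsupp.single i 1) f *
        ∏ i ∈ Finset.univ.filter (fun i : Fin n => i.val < j), t i)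
    (f : MvPolynomial (Fin n) ℝ) (hf : HS f (j + 1)) : ∃ t : Fin n → ℝ,
      (∀ i : Fin n, i.val < j + 1 → 0 < t i) ∧ (∀ i : Fin n, j + 1 ≤ i.val → t i = 0) ∧
      MvPolynomial.eval t f ≤ Real.exp (j + 1 : ℕ) * MvPolynomial.coeff
        (∑ i ∈ Finset.univ.filter (fun i : Fin n => i.val < j + 1), Finsupp.single i 1) f *
        ∏ i ∈ Finset.univ.filter (fun i : Fin n => i.val < j + 1), t i := by
  set c : Fin n := ⟨j, hj⟩ with hc
  have hg := hD n f j c hf
  obtain ⟨t, t1, t2, t3⟩ := ih _ hg
  have tc : t c = 0 := t2 c (le_refl j)
  have tn : ∀ i, 0 ≤ t i := by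
    intro i
    rcases lt_or_ge i.val j with h | h
    · exact (t1 i h).le
    · exact (t2 i h).ge
  have hcn : c ∉ Finset.univ.filter (fun i : Fin n => i.val < j) := by
    simp [hc]
  have hcoef : MvPolynomial.coeff
      (∑ i ∈ Finset.univ.filter (fun i : Fin n => i.val < j), Finsupp.single i 1)
      (MvPolynomial.pderiv c f) = MvPolynomial.coeff
      (∑ i ∈ Finset.univ.filter (fun i : Fin n => i.val < j + 1), Finsupp.single i 1) f := by
    rw [MvPolynomial.coeff_pderiv, chn_filter j hj, Finset.sum_insert hcn,
      add_comm (Finsupp.single c 1)]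
    have h0 : (∑ i ∈ Finset.univ.filter (fun i : Fin n => i.val < j),
        (Finsupp.single i 1 : Fin n →₀ ℕ)) c = 0 := by
      rw [Finsupp.finsetSum_apply]
      refine Finset.sum_eq_zero (fun i hi => ?_)
      rw [Finsupp.single_apply, if_neg]
      intro h
      exact hcn (h ▸ hi)
    rw [h0]
    simp
  -- the derivative at the point `t` is positive
  have hpos : 0 < MvPolynomial.eval t (MvPolynomial.pderiv c f) := by
    rcases Nat.eq_zero_or_pos j with h0 | h0
    · subst h0
      rw [chn_zero _ hg t, ← chn_zero _ hg (Pi.single c 1)]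
      refine hg.2.1 _ (fun i => ?_) ?_
      · by_cases hi : i = c
        · subst hi; simp
        · rw [Pi.single_eq_of_ne hi]
      · intro h
        have := congrFun h c
        simp at this
    · refine hg.2.1 t tn ?_
      intro h
      have h1 := t1 ⟨0, by omega⟩ h0
      rw [h] at h1
      exact lt_irrefl _ h1
  set R := chnLine t c f with hR
  have hR1 : R.derivative.eval 0 = MvPolynomial.eval t (MvPolynomial.pderiv c f) := by
    rw [hR, chn_deriv, chn_eval]
    congr 2
    funext i
    by_cases hi : i = c
    · rw [if_pos hi, add_zero]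
    · rw [if_neg hi, add_zero]
  have key : ∃ s : ℝ, 0 < s ∧ R.eval s ≤ Real.exp 1 * R.derivative.eval 0 * s := by
    rcases Nat.eq_zero_or_pos j with h0 | h0
    · subst h0
      refine ⟨1, one_pos, ?_⟩
      -- the derivative is constant
      have hconst : R.derivative = Polynomial.C (MvPolynomial.coeff 0 (MvPolynomial.pderiv c f)) := by
        rw [hR, chn_deriv]
        have h1 := (MvPolynomial.totalDegree_zero_iff_isHomogeneous (Fin n)).mpr hg.1
        rw [MvPolynomial.totalDegree_eq_zero_iff_eq_C] at h1
        rw [h1]
        unfold chnLine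
        simp
      have ht : t = 0 := by
        funext i
        exact t2 i (Nat.zero_le _)
      have hR0 : R.eval 0 = 0 := by
        rw [hR, chn_eval]
        have h1 : (fun i => t i + if i = c then (0 : ℝ) else 0) = 0 := by
          funext i
          rw [ht]
          by_cases hi : i = c
          · rw [if_pos hi]; simp
          · rw [if_neg hi]; simp
        rw [h1]
        have h2 : MvPolynomial.eval (0 : Fin n → ℝ) f = MvPolynomial.coeff 0 f := by
          have := congrFun (congrArg DFunLike.coe (MvPolynomial.eval_zero (R := ℝ) (σ := Fin n))) f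
          rw [this]
          rfl
        rw [h2]
        exact hf.1.coeff_eq_zero (by simp)
      have hlin : R.eval 1 = MvPolynomial.coeff 0 (MvPolynomial.pderiv c f) := by
        have h3 : (R - Polynomial.C (MvPolynomial.coeff 0 (MvPolynomial.pderiv c f)) *
            Polynomial.X).derivative = 0 := by
          rw [Polynomial.derivative_sub, hconst]
          simp
        have h4 := Polynomial.eq_C_of_derivative_eq_zero h3
        have h5 := congrArg (Polynomial.eval (0 : ℝ)) h4
        have h6 := congrArg (Polynomial.eval (1 : ℝ)) h4
        rw [Polynomial.eval_sub, hR0] at h5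
        rw [Polynomial.eval_sub] at h6
        simp only [Polynomial.eval_mul, Polynomial.eval_C, Polynomial.eval_X, mul_zero, sub_zero,
          mul_one] at h5 h6
        rw [← h5] at h6
        linarith
      have hp : 0 < MvPolynomial.coeff 0 (MvPolynomial.pderiv c f) := by
        rw [← chn_zero _ hg t]
        exact hpos
      rw [hlin, hconst, Polynomial.eval_C, mul_one]
      have he : 1 ≤ Real.exp 1 := Real.one_le_exp zero_le_one
      nlinarith
    · refine hU R ?_ ?_ ?_
      · intro z hz
        have main : ∀ w : ℂ, 0 < w.im → Polynomial.aeval w R ≠ 0 := by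
          intro w hw
          rw [hR, chn_aeval]
          have h1 := hf.2.2 (fun i => t i + if i = c then w.re else 0)
            (fun i => if i = c then w.im else 0) (fun i => by
              by_cases hi : i = c
              · simp only [if_pos hi]; exact hw.le
              · simp only [if_neg hi]; exact le_refl _) (by
              intro h
              have := congrFun h c
              simp only [if_true, Pi.zero_apply] at this
              linarith)
          have h2 : (fun i => (t i : ℂ) + if i = c then w else 0) =
              fun i => (((t i + if i = c then w.re else 0 : ℝ) : ℂ) +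
                ((if i = c then w.im else 0 : ℝ) : ℂ) * Complex.I) := by
            funext i
            by_cases hi : i = c
            · simp only [if_pos hi]
              push_cast
              rw [add_assoc, Complex.re_add_im]
            · simp only [if_neg hi]
              simp
          rw [h2]
          exact h1
        rcases lt_trichotomy z.im 0 with h | h | h
        · exfalso
          refine main (starRingEnd ℂ z) (by rw [Complex.conj_im]; linarith) ?_
          rw [Polynomial.aeval_conj, hz, map_zero]
        · exact h
        · exact absurd hz (main z h)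
      · intro s hs
        rw [hR, chn_eval]
        refine hf.2.1 _ (fun i => ?_) ?_
        · by_cases hi : i = c
          · simp only [if_pos hi]
            exact add_nonneg (tn i) hs
          · simp only [if_neg hi, add_zero]
            exact tn i
        · intro h
          have h1 := t1 ⟨0, by omega⟩ h0
          have h2 := congrFun h ⟨0, by omega⟩
          simp only [Pi.zero_apply] at h2
          have h3 : (0 : ℝ) ≤ if (⟨0, by omega⟩ : Fin n) = c then s else 0 := by
            split_ifs
            · exact hs
            · exact le_refl _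
          linarith
      · rw [hR1]
        exact hpos
  obtain ⟨s, hs, hs2⟩ := key
  refine ⟨fun i => t i + if i = c then s else 0, ?_, ?_, ?_⟩
  · intro i hi
    by_cases hic : i = c
    · simp only [if_pos hic]
      exact add_pos_of_nonneg_of_pos (tn i) hs
    · simp only [if_neg hic, add_zero]
      refine t1 i ?_
      have : i.val ≠ j := fun h => hic (Fin.ext h)
      omega
  · intro i hi
    have hic : i ≠ c := by
      intro h
      rw [h] at hi
      have : c.val = j := rfl
      omega
    simp only [if_neg hic, add_zero]
    exact t2 i (by omega)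
  · have hprod : ∏ i ∈ Finset.univ.filter (fun i : Fin n => i.val < j + 1),
        (t i + if i = c then s else 0) =
        s * ∏ i ∈ Finset.univ.filter (fun i : Fin n => i.val < j), t i := by
      rw [chn_filter j hj, Finset.prod_insert hcn]
      have h1 : (t (⟨j, hj⟩ : Fin n) + if (⟨j, hj⟩ : Fin n) = c then s else 0) = s := by
        rw [← hc, tc, if_pos rfl, zero_add]
      rw [h1]
      congr 1
      refine Finset.prod_congr rfl (fun i hi => ?_)
      have hic : i ≠ c := fun h => hcn (h ▸ hi)
      rw [if_neg hic, add_zero]
    rw [hprod, ← hcoef]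
    rw [hR1] at hs2
    rw [← chn_eval t c f s]
    calc R.eval s ≤ Real.exp 1 * MvPolynomial.eval t (MvPolynomial.pderiv c f) * s := hs2
      _ ≤ Real.exp 1 * (Real.exp j * MvPolynomial.coeff
          (∑ i ∈ Finset.univ.filter (fun i : Fin n => i.val < j), Finsupp.single i 1)
          (MvPolynomial.pderiv c f) *
          ∏ i ∈ Finset.univ.filter (fun i : Fin n => i.val < j), t i) * s :=
        mul_le_mul_of_nonneg_right (mul_le_mul_of_nonneg_left t3 (Real.exp_pos 1).le) hs.le
      _ = Real.exp (j + 1 : ℕ) * MvPolynomial.coeff
          (∑ i ∈ Finset.univ.filter (fun i : Fin n => i.val < j), Finsupp.single i 1)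
          (MvPolynomial.pderiv c f) *
          (s * ∏ i ∈ Finset.univ.filter (fun i : Fin n => i.val < j), t i) := by
        push_cast
        rw [Real.exp_add]
        ring

theorem vChn (hU : Stmt_Uni) (hD : Stmt_Der) : Stmt_Chn := by
  intro n f hf
  have main : ∀ j : ℕ, j ≤ n → ∀ f : MvPolynomial (Fin n) ℝ, HS f j → ∃ t : Fin n → ℝ,
      (∀ i : Fin n, i.val < j → 0 < t i) ∧ (∀ i : Fin n, j ≤ i.val → t i = 0) ∧
      MvPolynomial.eval t f ≤ Real.exp j * MvPolynomial.coeff
        (∑ i ∈ Finset.univ.filter (fun i : Fin n => i.val < j), Finsupp.single i 1) f *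
        ∏ i ∈ Finset.univ.filter (fun i : Fin n => i.val < j), t i := by
    intro j
    induction j with
    | zero =>
      intro _ f hf
      refine ⟨0, fun i hi => absurd hi (Nat.not_lt_zero _), fun i _ => rfl, ?_⟩
      rw [chn_zero f hf]
      simp
    | succ j ih =>
      intro hj f hf
      exact chn_step hU hD j hj (ih (by omega)) f hf
  obtain ⟨t, t1, -, t3⟩ := main n (le_refl n) f hf
  refine ⟨t, fun i => t1 i i.isLt, ?_⟩
  have h1 : (Finset.univ.filter fun i : Fin n => i.val < n) = Finset.univ := by
    rw [Finset.filter_true_of_mem]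
    intro i _
    exact i.isLt
  rw [h1] at t3
  exact t3

end Pool.Agent.Tvv
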