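import Pool.Agent.Tvv.Stmts
import Pool.Agent.Tvo.Stmts

/-!
# Module Cls: limits
-/

set_option autoImplicit false

namespace Pool.Agent.Tvv

open scoped Classical ENNReal
open Pool.Agent.Tvb (Pos Zero Base Good hat TP)
open MeasureTheory

theorem cls_min {ι : Type} [Finite ι] (f : ι → ℝ) (hf : ∀ i, 0 < f i) :
    ∃ δ > 0, ∀ i, δ ≤ f i := by
  rcases isEmpty_or_nonempty ι with h | h
  · exact ⟨1, one_pos, fun i => h.elim i⟩
  · obtain ⟨i, hi⟩ := Finite.exists_min f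
    exact ⟨f i, hf i, hi⟩

theorem cls_ev {k : ℕ} (l : Lb k) (j : Fin k) : |ev l j| ≤ 1 := by
  cases l with
  | none => simp [ev]
  | some i =>
    by_cases h : i = j
    · simp [ev, h]
    · simp [ev, h]

theorem cls_UU {k D : ℕ} (x y : J k D → Fin D → ℝ) (π : J k D → Lb k) (a : J k D) {δ : ℝ}
    (hδ : 0 < δ) (h : ‖x a - y a‖ < δ) : ‖UU x π a - UU y π a‖ < δ := by
  rw [pi_norm_lt_iff hδ] at h ⊢
  intro c
  have h1 := h c.2
  rw [Pi.sub_apply] at h1 ⊢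
  have h2 : UU x π a c - UU y π a c = ev (π a) c.1 * (x a c.2 - y a c.2) := by
    simp only [UU]
    ring
  rw [h2, norm_mul]
  refine lt_of_le_of_lt (mul_le_of_le_one_left (norm_nonneg _) ?_) h1
  exact cls_ev _ _

theorem cls_lin {D : ℕ} (l y : Fin D → ℝ) (h : 0 < ∑ i, l i * y i) :
    ∃ δ > 0, ∀ x : Fin D → ℝ, ‖x - y‖ < δ → 0 < ∑ i, l i * x i := by
  refine ⟨(∑ i, l i * y i) / (∑ i, |l i| + 1), by positivity, fun x hx => ?_⟩
  have hL : 0 < ∑ i, |l i| + 1 := by positivity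
  have h1 : ∑ i, l i * x i = ∑ i, l i * y i + ∑ i, l i * (x i - y i) := by
    rw [← Finset.sum_add_distrib]
    exact Finset.sum_congr rfl fun i _ => by ring
  have h2 : |∑ i, l i * (x i - y i)| ≤ (∑ i, |l i|) * ‖x - y‖ := by
    rw [Finset.sum_mul]
    refine (Finset.abs_sum_le_sum_abs _ _).trans (Finset.sum_le_sum fun i _ => ?_)
    rw [abs_mul]
    exact mul_le_mul_of_nonneg_left (norm_le_pi_norm (x - y) i) (abs_nonneg _)
  have h3 : (∑ i, |l i|) * ‖x - y‖ < ∑ i, l i * y i := by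
    rw [lt_div_iff₀ hL] at hx
    have h4 : (∑ i, |l i|) * ‖x - y‖ ≤ ‖x - y‖ * (∑ i, |l i| + 1) := by
      nlinarith [norm_nonneg (x - y)]
    linarith
  have h5 := neg_abs_le (∑ i, l i * (x i - y i))
  rw [h1]
  linarith

theorem vCls (hX : Stmt_ApX) (hW : Stmt_ApW) (hC : Pool.Agent.Tvo.Stmt_OClo) : Stmt_Cls := by
  intro k D l B hB y v hy
  by_contra hcon
  rw [not_le] at hcon
  have h1 : ∀ π : J k D → Lb k, ∃ δ : ℝ, 0 < δ ∧
      ((¬ ∃ c : Option (J k D) → ℝ, (∀ i, 0 ≤ c i) ∧ ∑ i, c i = 1 ∧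
        ∑ a, c (some a) • UU y π a + c none • v = 0) →
        ∀ y' : Option (J k D) → J k D → ℝ,
          (∀ i : Option (J k D), ‖y' i - i.elim v (UU y π)‖ < δ) →
          ¬ ∃ c : Option (J k D) → ℝ, (∀ i, 0 < c i) ∧ ∑ i, c i • y' i = 0) := by
    intro π
    by_contra h
    have hn : ¬ ∃ c : Option (J k D) → ℝ, (∀ i, 0 ≤ c i) ∧ ∑ i, c i = 1 ∧
        ∑ a, c (some a) • UU y π a + c none • v = 0 := by
      by_contra hn
      exact h ⟨1, one_pos, fun h' => absurd hn h'⟩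
    obtain ⟨c, hc0, hc1, hc⟩ := hC (Option (J k D)) (J k D) (fun i => i.elim v (UU y π)) (by
      intro δ hδ
      by_contra h3
      exact h ⟨δ, hδ, fun _ y' hy' hc => h3 ⟨y', hy', hc⟩⟩)
    refine hn ⟨c, hc0, hc1, ?_⟩
    rw [Fintype.sum_option] at hc
    rw [add_comm]
    exact hc
  choose f hf hf' using h1
  obtain ⟨δ₁, hδ₁, hδ₁'⟩ := cls_min f hf
  choose g hg hg' using fun a => cls_lin l (y a) (hy a)
  obtain ⟨δ₂, hδ₂, hδ₂'⟩ := cls_min g hg
  have hδ : 0 < min δ₁ δ₂ := lt_min hδ₁ hδ₂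
  obtain ⟨x, hxy, hcx⟩ := hX k D y _ hδ
  obtain ⟨ω, hω, hG⟩ := hW k D x (-v) _ hδ
  have hle := hB x ω (fun a => hg' a (x a)
    ((hxy a).trans_le ((min_le_right _ _).trans (hδ₂' a)))) hcx hG
  refine absurd (hle.trans ?_) (not_le.mpr hcon)
  unfold cnt
  refine Nat.cast_le.mpr (Finset.card_le_card fun π hπ => ?_)
  rw [Finset.mem_filter] at hπ ⊢
  refine ⟨hπ.1, ?_⟩
  by_contra hn
  obtain ⟨c, hc0, hc⟩ := hπ.2
  refine hf' π hn (fun i => i.elim (-ω) (UU x π)) ?_ ⟨fun i => i.elim 1 c, ?_, ?_⟩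
  · intro i
    refine lt_of_lt_of_le ?_ ((min_le_left δ₁ δ₂).trans (hδ₁' π))
    cases i with
    | none =>
      change ‖-ω - v‖ < _
      have e : -ω - v = -(ω - -v) := by abel
      rw [e, norm_neg]
      exact hω
    | some a => exact cls_UU x y π a hδ (hxy a)
  · intro i
    cases i with
    | none => exact one_pos
    | some a => exact hc0 a
  · rw [Fintype.sum_option]
    change (1 : ℝ) • (-ω) + ∑ a, c a • UU x π a = 0
    rw [hc, one_smul, neg_add_cancel]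

end Pool.Agent.Tvv
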