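import Pool.Agent.Tvv.Stmts

/-!
# V13: the coefficient of the determinant
-/

set_option autoImplicit false

namespace Pool.Agent.Tvv

open scoped Classical ENNReal
open Pool.Agent.Tvb (Pos Zero Base Good hat TP)
open MeasureTheory

theorem Coe_bij {n : ℕ} (h : Fin n → Fin n) :
    (∑ i, Finsupp.single (h i) 1 : Fin n →₀ ℕ) = ∑ i, Finsupp.single i 1 ↔
      Function.Bijective h := by
  constructor
  · intro hh
    have hsurj : Function.Surjective h := by
      intro j
      by_contra hcon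
      push Not at hcon
      have h1 := DFunLike.congr_fun hh j
      rw [Finsupp.finsetSum_apply, Finsupp.finsetSum_apply] at h1
      have h2 : ∑ i, (Finsupp.single (h i) 1 : Fin n →₀ ℕ) j = 0 := by
        refine Finset.sum_eq_zero fun i _ => ?_
        rw [Finsupp.single_apply, if_neg (hcon i)]
      have h3 : ∑ i, (Finsupp.single i 1 : Fin n →₀ ℕ) j = 1 := by
        simp only [Finsupp.single_apply]
        rw [Finset.sum_ite_eq' Finset.univ j, if_pos (Finset.mem_univ _)]
      rw [h2, h3] at h1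
      exact absurd h1 (by norm_num)
    exact ⟨Finite.injective_iff_surjective.mpr hsurj, hsurj⟩
  · intro hb
    exact Equiv.sum_comp (Equiv.ofBijective h hb) (fun i => (Finsupp.single i 1 : Fin n →₀ ℕ))

theorem Coe_prod {n : ℕ} (h : Fin n → Fin n) (a : Fin n → ℝ) :
    (∏ i, (MvPolynomial.X (h i) * MvPolynomial.C (a i)) : MvPolynomial (Fin n) ℝ) =
      MvPolynomial.monomial (∑ i, Finsupp.single (h i) 1) (∏ i, a i) := by
  rw [MvPolynomial.monomial_sum_index, map_prod, ← Finset.prod_mul_distrib]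
  refine Finset.prod_congr rfl fun i _ => ?_
  show MvPolynomial.X (h i) * MvPolynomial.C (a i) =
    MvPolynomial.C (a i) * MvPolynomial.monomial (Finsupp.single (h i) 1) 1
  exact mul_comm _ _

theorem Coe_sum {n : ℕ} (F : (Fin n → Fin n) → ℝ) :
    ∑ h : Fin n → Fin n, (if (∑ i, Finsupp.single (h i) 1 : Fin n →₀ ℕ) =
      ∑ i, Finsupp.single i 1 then F h else 0) = ∑ h : Equiv.Perm (Fin n), F h := by
  rw [← Finset.sum_filter]
  refine Finset.sum_bij' (fun h hh => Equiv.ofBijective h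
    ((Coe_bij h).mp (Finset.mem_filter.mp hh).2)) (fun h _ => (h : Fin n → Fin n)) ?_ ?_ ?_ ?_ ?_
  · intro h hh
    exact Finset.mem_univ _
  · intro h hh
    exact Finset.mem_filter.mpr ⟨Finset.mem_univ _, (Coe_bij _).mpr h.bijective⟩
  · intro h hh
    rfl
  · intro h hh
    exact Equiv.ext fun i => rfl
  · intro h hh
    rfl

theorem Coe_coeff {n : ℕ} (A : Fin n → Matrix (Fin n) (Fin n) ℝ) (σ : Equiv.Perm (Fin n)) :
    MvPolynomial.coeff (∑ i, Finsupp.single i 1)
      (∏ r, ∑ i, (MvPolynomial.X i * MvPolynomial.C (A i (σ r) r)) : MvPolynomial (Fin n) ℝ) =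
    ∑ h : Equiv.Perm (Fin n), ∏ r, A (h r) (σ r) r := by
  rw [Finset.prod_univ_sum, MvPolynomial.coeff_sum, Fintype.piFinset_univ]
  rw [← Coe_sum (fun h => ∏ r, A (h r) (σ r) r)]
  refine Finset.sum_congr rfl fun h _ => ?_
  rw [Coe_prod, MvPolynomial.coeff_monomial]

theorem vCoe : Stmt_Coe := by
  intro n A
  unfold PA md
  rw [Matrix.det_apply', MvPolynomial.coeff_sum]
  simp only [Matrix.det_apply', Matrix.of_apply]
  rw [Finset.sum_comm]
  refine Finset.sum_congr rfl fun σ _ => ?_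
  have h1 : ((((Equiv.Perm.sign σ : ℤˣ) : ℤ) : MvPolynomial (Fin n) ℝ)) =
      MvPolynomial.C (((Equiv.Perm.sign σ : ℤˣ) : ℤ) : ℝ) := by
    rw [map_intCast]
  rw [h1, MvPolynomial.coeff_C_mul, Coe_coeff, ← Finset.mul_sum]
  refine congrArg _ ?_
  exact (Equiv.sum_comp (Equiv.mulRight σ)
    (fun h : Equiv.Perm (Fin n) => ∏ r, A (h r) (σ r) r)).symm

end Pool.Agent.Tvv
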