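import Pool.Agent.Tvo.Defs

/-!
# Lower bounds for the number of Tverberg partitions (MP_001fdd_co), all numbers of parts:
definitions
-/

set_option autoImplicit false

namespace Pool.Agent.Tvv

open scoped Classical
open Pool.Agent.Tvb (Pos Zero Base Good hat TP)
open MeasureTheory

/-- the indices of the points and of the coordinates -/
abbrev J (k D : ℕ) : Type := Fin k × Fin D

/-- the labels -/
abbrev Lb (k : ℕ) : Type := Option (Fin k)

/-- the vectors of the labels: the standard basis and minus its sum -/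
def ev {k : ℕ} (l : Lb k) (j : Fin k) : ℝ :=
  match l with
  | none => -1
  | some i => if i = j then 1 else 0

/-- the vectors `ev (π a) ⊗ x a` -/
def UU {k D : ℕ} (x : J k D → Fin D → ℝ) (π : J k D → Lb k) : J k D → J k D → ℝ :=
  fun a c => ev (π a) c.1 * x a c.2

/-- their determinant -/
noncomputable def dd {k D : ℕ} (x : J k D → Fin D → ℝ) (π : J k D → Lb k) : ℝ :=
  Matrix.det (Matrix.of (UU x π))

/-- sum of the absolute values of the determinants of the cones which contain `ω` -/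
noncomputable def VV {k D : ℕ} (x : J k D → Fin D → ℝ) (ω : J k D → ℝ) : ℝ :=
  ∑ π : J k D → Lb k, |dd x π| * (if Pos ω (UU x π) then 1 else 0)

/-- sum over the labellings without the label `none` of the squares of the determinants -/
noncomputable def cc {k D : ℕ} (x : J k D → Fin D → ℝ) : ℝ :=
  ∑ π : J k D → Fin k, (dd x (fun a => some (π a))) ^ 2

/-- number of the cones which contain `ω` -/
noncomputable def cnt {k D : ℕ} (x : J k D → Fin D → ℝ) (ω : J k D → ℝ) : ℕ :=
  (Finset.univ.filter fun π : J k D → Lb k => Pos ω (UU x π)).card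

/-- `ω` is generic -/
def Gen {k D : ℕ} (x : J k D → Fin D → ℝ) (ω : J k D → ℝ) : Prop :=
  ∀ π : J k D → Lb k, dd x π ≠ 0 → Base ω (UU x π)

/-- `N` is a norm on `ℝ^D` -/
structure IsN {D : ℕ} (N : (Fin D → ℝ) → ℝ) : Prop where
  zero : N 0 = 0
  neg : ∀ w, N (-w) = N w
  add : ∀ v w, N (v + w) ≤ N v + N w
  eq : ∀ w, N w = 0 → w = 0
  smul : ∀ (r : ℝ) (w : Fin D → ℝ), N (r • w) ≤ |r| * N w
  cont : Continuous N

/-- `D! / 2` times the volume of the unit ball of `N` -/
noncomputable def nu {D : ℕ} (N : (Fin D → ℝ) → ℝ) : ℝ :=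
  (D.factorial : ℝ) * (volume {w : Fin D → ℝ | N w < 1}).toReal / 2

/-- for all unit vectors there is a norm with `nu N ≤ κ` -/
def Kap (k D : ℕ) (κ : ℝ) : Prop := ∀ z : J k D → Fin D → ℝ, (∀ a, ∑ i, (z a i) ^ 2 = 1) →
  0 < cc z → ∃ N : (Fin D → ℝ) → ℝ, IsN N ∧ (∀ a, N (z a) ≤ 1) ∧ nu N ≤ κ

/-- the first constant -/
noncomputable def k1 (D : ℕ) : ℝ :=
  (D.factorial : ℝ) * (√Real.pi ^ D / Real.Gamma ((D : ℝ) / 2 + 1)) / 2

/-- the second constant -/
noncomputable def k2 (k D : ℕ) : ℝ := (16 * √(6 + 2 * Real.log k)) ^ D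

/-- homogeneous polynomials of degree `N`, positive on the nonnegative orthant and without zeros
with nonnegative imaginary parts -/
def HS {n : ℕ} (f : MvPolynomial (Fin n) ℝ) (N : ℕ) : Prop :=
  f.IsHomogeneous N ∧ (∀ b : Fin n → ℝ, (∀ i, 0 ≤ b i) → b ≠ 0 → 0 < MvPolynomial.eval b f) ∧
  ∀ b a : Fin n → ℝ, (∀ i, 0 ≤ a i) → a ≠ 0 →
    MvPolynomial.aeval (fun i => (b i : ℂ) + (a i : ℂ) * Complex.I) f ≠ 0

/-- the determinant of `∑ X_i A_i` -/
noncomputable def PA {n : ℕ} (A : Fin n → Matrix (Fin n) (Fin n) ℝ) : MvPolynomial (Fin n) ℝ :=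
  Matrix.det (Matrix.of fun r c => ∑ i, MvPolynomial.X i * MvPolynomial.C (A i r c))

/-- the mixed discriminant -/
noncomputable def md {ι : Type} [Fintype ι] [DecidableEq ι] (A : ι → Matrix ι ι ℝ) : ℝ :=
  ∑ σ : Equiv.Perm ι, Matrix.det (Matrix.of fun r c => A (σ r) r c)

end Pool.Agent.Tvv
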