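import Pool.Agent.Tvv.Stmts

/-!
# TVV, module Der: derivatives of stable polynomials
-/

set_option autoImplicit false

namespace Pool.Agent.Tvv

open scoped Classical ENNReal
open Pool.Agent.Tvb (Pos Zero Base Good hat TP)
open MeasureTheory

theorem der_smul {n : ℕ} {f : MvPolynomial (Fin n) ℝ} {N : ℕ} (hf : f.IsHomogeneous N)
    (r : ℂ) (z : Fin n → ℂ) :
    MvPolynomial.aeval (fun i => r * z i) f = r ^ N * MvPolynomial.aeval z f := by
  rw [MvPolynomial.aeval_def, MvPolynomial.aeval_def, MvPolynomial.eval₂_eq',
    MvPolynomial.eval₂_eq', Finset.mul_sum]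
  refine Finset.sum_congr rfl fun m hm => ?_
  have hN : ∑ i, m i = N := by
    have h1 := hf (MvPolynomial.mem_support_iff.1 hm)
    rw [Finsupp.weight_apply, Finsupp.sum_fintype _ _ (by simp)] at h1
    simpa using h1
  have : ∏ i, (r * z i) ^ m i = r ^ N * ∏ i, z i ^ m i := by
    rw [← hN, ← Finset.prod_pow_eq_pow_sum, ← Finset.prod_mul_distrib]
    exact Finset.prod_congr rfl fun i _ => mul_pow _ _ _
  rw [this]
  ring

theorem der_real {n : ℕ} (f : MvPolynomial (Fin n) ℝ) (b : Fin n → ℝ) :
    MvPolynomial.aeval (fun i => (b i : ℂ)) f = ((MvPolynomial.eval b f : ℝ) : ℂ) := by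
  have h := MvPolynomial.aeval_algebraMap_apply (B := ℂ) b f
  rw [Complex.coe_algebraMap] at h
  have h2 : MvPolynomial.aeval b f = MvPolynomial.eval b f := by
    rw [MvPolynomial.aeval_def, MvPolynomial.eval₂_eq', MvPolynomial.eval_eq']
    rfl
  rw [← h2]
  exact h

/-- the restriction to a line -/
noncomputable def derG {n : ℕ} (z w : Fin n → ℂ) :
    MvPolynomial (Fin n) ℝ →ₐ[ℝ] Polynomial ℂ :=
  MvPolynomial.aeval (fun i => Polynomial.C (z i) + Polynomial.C (w i) * Polynomial.X)

theorem derG_eval {n : ℕ} (z w : Fin n → ℂ) (f : MvPolynomial (Fin n) ℝ) (r : ℂ) :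
    (derG z w f).eval r = MvPolynomial.aeval (fun i => z i + w i * r) f := by
  unfold derG
  induction f using MvPolynomial.induction_on with
  | C a =>
      simp only [MvPolynomial.algHom_C]
      rw [Polynomial.algebraMap_apply]
      simp
  | add p q hp hq => simp only [map_add, Polynomial.eval_add, hp, hq]
  | mul_X p i hp => simp only [map_mul, Polynomial.eval_mul, hp, MvPolynomial.aeval_X,
      Polynomial.eval_add, Polynomial.eval_C, Polynomial.eval_X]

theorem derG_derivative {n : ℕ} (z : Fin n → ℂ) (c : Fin n) (f : MvPolynomial (Fin n) ℝ) :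
    (derG z (fun i => if i = c then 1 else 0) f).derivative =
      derG z (fun i => if i = c then 1 else 0) (MvPolynomial.pderiv c f) := by
  unfold derG
  induction f using MvPolynomial.induction_on with
  | C a =>
      simp only [MvPolynomial.algHom_C, MvPolynomial.pderiv_C, map_zero]
      rw [Polynomial.algebraMap_apply]
      simp
  | add p q hp hq => simp only [map_add, hp, hq]
  | mul_X p i hp =>
      rw [MvPolynomial.pderiv_mul, map_mul, Polynomial.derivative_mul, hp, map_add, map_mul,
        map_mul]
      congr 2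
      rw [MvPolynomial.pderiv_X]
      by_cases h : i = c
      · subst h
        simp
      · simp [h]

theorem der_ne {n : ℕ} {f : MvPolynomial (Fin n) ℝ} {N : ℕ} {c : Fin n} (hf : HS f (N + 1))
    (b a : Fin n → ℝ) (ha : ∀ i, 0 ≤ a i) (ha0 : a ≠ 0) :
    MvPolynomial.aeval (fun i => (b i : ℂ) + (a i : ℂ) * Complex.I)
      (MvPolynomial.pderiv c f) ≠ 0 := by
  obtain ⟨h1, h2, h3⟩ := hf
  set z : Fin n → ℂ := fun i => (b i : ℂ) + (a i : ℂ) * Complex.I with hz
  set w : Fin n → ℂ := fun i => if i = c then 1 else 0 with hw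
  set g := derG z w f with hg
  -- the roots of `g`
  have hroot : ∀ r : ℂ, g.eval r = 0 → r.im < 0 := by
    intro r hr
    by_contra hc
    push Not at hc
    rw [hg, derG_eval] at hr
    refine h3 (fun i => b i + (if i = c then r.re else 0))
      (fun i => a i + (if i = c then r.im else 0)) ?_ ?_ ?_
    · intro i
      split_ifs
      · exact add_nonneg (ha i) hc
      · simpa using ha i
    · intro h0
      apply ha0
      funext i
      have h4 := congrFun h0 i
      simp only [Pi.zero_apply] at h4 ⊢
      have h5 : 0 ≤ (if i = c then r.im else 0) := by split_ifs <;> simp [hc]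
      linarith [ha i]
    · rw [← hr]
      congr 2
      funext i
      rw [hz, hw]
      have hre : (r.re : ℂ) + (r.im : ℂ) * Complex.I = r := Complex.re_add_im r
      by_cases h : i = c
      · rw [if_pos h]
        simp only [if_pos h]
        rw [one_mul]
        push_cast
        linear_combination hre
      · simp only [if_neg h]
        push_cast
        ring
  -- `g` is not constant
  have hdeg : 0 < g.degree := by
    by_contra hc
    push Not at hc
    have hC : ∀ r : ℂ, g.eval r = g.coeff 0 := by
      intro r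
      rw [Polynomial.eq_C_of_degree_le_zero hc]
      simp
    -- the polynomial `s ↦ f (e_c + s z)`
    set q := derG w z f with hq
    have hq1 : ∀ s : ℂ, s ≠ 0 → q.eval s = (Polynomial.C (g.coeff 0) *
        Polynomial.X ^ (N + 1)).eval s := by
      intro s hs
      rw [hq, derG_eval]
      have h4 : (fun i => w i + z i * s) = fun i => s * (z i + w i * s⁻¹) := by
        funext i
        field_simp
        ring
      rw [h4, der_smul h1, ← derG_eval, ← hg, hC, Polynomial.eval_mul, Polynomial.eval_C,
        Polynomial.eval_pow, Polynomial.eval_X]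
      ring
    have hq2 : q = Polynomial.C (g.coeff 0) * Polynomial.X ^ (N + 1) := by
      apply Polynomial.eq_of_infinite_eval_eq
      refine Set.Infinite.mono (s := {s : ℂ | s ≠ 0}) ?_ ?_
      · intro s hs
        exact hq1 s hs
      · exact Set.Finite.infinite_compl (Set.finite_singleton (0 : ℂ))
    have h5 : q.eval 0 = 0 := by
      rw [hq2]
      simp
    rw [hq, derG_eval] at h5
    have h6 : (fun i => w i + z i * 0) = fun i => (((if i = c then 1 else 0 : ℝ)) : ℂ) := by
      funext i
      rw [hw]
      by_cases h : i = c <;> simp [h]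
    rw [h6, der_real] at h5
    have h7 := h2 (fun i => if i = c then 1 else 0) (fun i => by split_ifs <;> norm_num)
      (fun h0 => by simpa using congrFun h0 c)
    rw [Complex.ofReal_eq_zero] at h5
    linarith
  -- the roots of the derivative
  intro h0
  have h4 : g.derivative.eval 0 = 0 := by
    rw [hg, derG_derivative, derG_eval]
    simpa using h0
  have hd0 : g.derivative ≠ 0 := by
    intro hd
    have := Polynomial.derivative_eq_zero.1 hd
    rw [← Polynomial.natDegree_pos_iff_degree_pos] at hdeg
    omega
  have h5 : (0 : ℂ) ∈ g.derivative.rootSet ℂ := by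
    rw [Polynomial.mem_rootSet]
    refine ⟨hd0, ?_⟩
    simpa using h4
  have h6 := Polynomial.rootSet_derivative_subset_convexHull_rootSet hdeg h5
  have h7 : convexHull ℝ (g.rootSet ℂ) ⊆ {r : ℂ | r.im < 0} := by
    apply convexHull_min
    · intro r hr
      rw [Polynomial.mem_rootSet] at hr
      exact hroot r (by simpa using hr.2)
    · exact convex_halfSpace_im_lt 0
  have h8 := h7 h6
  simp at h8

/-- Module Der. -/
theorem vDer : Stmt_Der := by
  intro n f N c hf
  have hne := fun b a ha ha0 => der_ne (c := c) hf b a ha ha0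
  have h1 : (MvPolynomial.pderiv c f).IsHomogeneous N := by
    have := MvPolynomial.IsHomogeneous.pderiv (i := c) hf.1
    simpa using this
  refine ⟨h1, ?_, hne⟩
  -- the values at real points
  have hb : ∀ b : Fin n → ℝ, (∀ i, 0 ≤ b i) → b ≠ 0 →
      MvPolynomial.eval b (MvPolynomial.pderiv c f) ≠ 0 := by
    intro b hb hb0 h0
    apply hne 0 b hb hb0
    have h2 : (fun i => (((0 : Fin n → ℝ) i : ℝ) : ℂ) + (b i : ℂ) * Complex.I) =
        fun i => Complex.I * (b i : ℂ) := by
      funext i
      simp [mul_comm]
    rw [h2, der_smul h1, der_real, h0]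
    simp
  set e : Fin n → ℝ := fun i => if i = c then 1 else 0 with he
  have he0 : ∀ i, 0 ≤ e i := fun i => by
    rw [he]
    by_cases h : i = c <;> simp [h]
  have hepos : 0 < MvPolynomial.eval e (MvPolynomial.pderiv c f) := by
    have h2 := congrArg (MvPolynomial.eval e) (MvPolynomial.IsHomogeneous.sum_X_mul_pderiv hf.1)
    rw [map_sum] at h2
    have h3 : ∑ i, MvPolynomial.eval e (MvPolynomial.X i * MvPolynomial.pderiv i f) =
        MvPolynomial.eval e (MvPolynomial.pderiv c f) := by
      rw [Finset.sum_eq_single c]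
      · simp [he]
      · intro i _ hi
        simp [he, hi]
      · intro h
        exact absurd (Finset.mem_univ c) h
    rw [h3] at h2
    rw [h2, map_nsmul, nsmul_eq_mul]
    have h4 := hf.2.1 e he0 (fun h0 => by simpa [he] using congrFun h0 c)
    positivity
  intro b hb1 hb0
  by_contra hneg
  push Not at hneg
  -- the path
  set φ : ℝ → ℝ := fun t =>
    MvPolynomial.eval (fun i => (1 - t) * b i + t * e i) (MvPolynomial.pderiv c f) with hφ
  have hcont : Continuous φ := by
    have h2 : Continuous fun t : ℝ => (fun i => (1 - t) * b i + t * e i : Fin n → ℝ) := by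
      fun_prop
    exact (MvPolynomial.continuous_eval _).comp h2
  have hφ0 : φ 0 ≤ 0 := by simpa [hφ] using hneg
  have hφ1 : 0 ≤ φ 1 := by
    have : φ 1 = MvPolynomial.eval e (MvPolynomial.pderiv c f) := by simp [hφ]
    rw [this]
    exact hepos.le
  obtain ⟨t, ht, ht0⟩ := intermediate_value_Icc (zero_le_one' ℝ) hcont.continuousOn
    (show (0 : ℝ) ∈ Set.Icc (φ 0) (φ 1) from ⟨hφ0, hφ1⟩)
  refine hb (fun i => (1 - t) * b i + t * e i) ?_ ?_ ht0
  · intro i
    exact add_nonneg (mul_nonneg (by linarith [ht.2]) (hb1 i)) (mul_nonneg ht.1 (he0 i))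
  · intro h0
    have h2 : ∀ i, (1 - t) * b i = 0 ∧ t * e i = 0 := by
      intro i
      have h3 := congrFun h0 i
      simp only [Pi.zero_apply] at h3
      have h4 : 0 ≤ (1 - t) * b i := mul_nonneg (by linarith [ht.2]) (hb1 i)
      have h5 : 0 ≤ t * e i := mul_nonneg ht.1 (he0 i)
      exact ⟨by linarith, by linarith⟩
    have h3 : t = 0 := by simpa [he] using (h2 c).2
    apply hb0
    funext i
    simpa [h3] using (h2 i).1

end Pool.Agent.Tvv
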