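import Pool.Agent.Tvv.Stmts

/-!
# Determinants of positive definite pencils (MP_001fdd_co, all numbers of parts)
-/

set_option autoImplicit false

namespace Pool.Agent.Tvv

open scoped Classical ENNReal
open Pool.Agent.Tvb (Pos Zero Base Good hat TP)
open MeasureTheory

theorem detH_hom {n : ℕ} (A : Fin n → Matrix (Fin n) (Fin n) ℝ) : (PA A).IsHomogeneous n := by
  unfold PA
  rw [Matrix.det_apply']
  refine MvPolynomial.IsHomogeneous.sum _ _ _ (fun σ _ => ?_)
  have h1 : (∏ i, (Matrix.of fun r c => ∑ i, MvPolynomial.X i * MvPolynomial.C (A i r c) :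
      Matrix (Fin n) (Fin n) (MvPolynomial (Fin n) ℝ)) (σ i) i).IsHomogeneous n := by
    have h2 := MvPolynomial.IsHomogeneous.prod (Finset.univ : Finset (Fin n))
      (fun i => (Matrix.of fun r c => ∑ i, MvPolynomial.X i * MvPolynomial.C (A i r c) :
        Matrix (Fin n) (Fin n) (MvPolynomial (Fin n) ℝ)) (σ i) i) (fun _ => 1) (fun i _ => by
          rw [Matrix.of_apply]
          refine MvPolynomial.IsHomogeneous.sum _ _ _ (fun j _ => ?_)
          have h3 := (MvPolynomial.isHomogeneous_X ℝ j).mul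
            (MvPolynomial.isHomogeneous_C (Fin n) (A j (σ i) i))
          rw [add_zero] at h3
          exact h3)
    simpa using h2
  have h4 := h1.C_mul (((Equiv.Perm.sign σ : ℤˣ) : ℤ) : ℝ)
  rw [map_intCast] at h4
  exact h4

theorem detH_eval {n : ℕ} (A : Fin n → Matrix (Fin n) (Fin n) ℝ) (b : Fin n → ℝ) :
    MvPolynomial.eval b (PA A) = Matrix.det (∑ i, b i • A i) := by
  unfold PA
  rw [RingHom.map_det]
  congr 1
  ext r c
  rw [RingHom.mapMatrix_apply, Matrix.map_apply, Matrix.of_apply, map_sum, Matrix.sum_apply]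
  refine Finset.sum_congr rfl (fun i _ => ?_)
  rw [map_mul, MvPolynomial.eval_X, MvPolynomial.eval_C, Matrix.smul_apply, smul_eq_mul]

theorem detH_pos {n : ℕ} (A : Fin n → Matrix (Fin n) (Fin n) ℝ) (hA : ∀ i, (A i).PosDef)
    (b : Fin n → ℝ) (hb : ∀ i, 0 ≤ b i) (hb0 : b ≠ 0) : (∑ i, b i • A i).PosDef := by
  have h1 : ∑ i, b i • A i = ∑ i ∈ Finset.univ.filter (fun i => 0 < b i), b i • A i := by
    refine (Finset.sum_subset (Finset.filter_subset _ _) (fun i _ hi => ?_)).symm
    have h2 : b i = 0 := by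
      by_contra h
      apply hi
      rw [Finset.mem_filter]
      exact ⟨Finset.mem_univ _, lt_of_le_of_ne (hb i) (Ne.symm h)⟩
    rw [h2, zero_smul]
  rw [h1]
  refine Matrix.posDef_sum ?_ (fun i hi => ?_)
  · obtain ⟨i, hi⟩ := Function.ne_iff.mp hb0
    exact ⟨i, by
      rw [Finset.mem_filter]
      exact ⟨Finset.mem_univ _, lt_of_le_of_ne (hb i) (Ne.symm hi)⟩⟩
  · rw [Finset.mem_filter] at hi
    exact (hA i).smul hi.2

theorem detH_quad {n : ℕ} {C : Matrix (Fin n) (Fin n) ℝ} (hC : C.PosDef) (u : Fin n → ℝ) :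
    0 ≤ ∑ r, ∑ c, u r * (C r c * u c) ∧ ((∑ r, ∑ c, u r * (C r c * u c)) = 0 → u = 0) := by
  have h1 : ∑ r, ∑ c, u r * (C r c * u c) = star u ⬝ᵥ (C.mulVec u) := by
    unfold dotProduct Matrix.mulVec dotProduct
    refine Finset.sum_congr rfl (fun r _ => ?_)
    rw [Finset.mul_sum]
    rfl
  rw [h1]
  by_cases hu : u = 0
  · subst hu
    simp
  · have h2 := hC.dotProduct_mulVec_pos hu
    exact ⟨h2.le, fun h => absurd h h2.ne'⟩

theorem detH_aeval {n : ℕ} (A : Fin n → Matrix (Fin n) (Fin n) ℝ) (z : Fin n → ℂ) :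
    MvPolynomial.aeval z (PA A) = Matrix.det (∑ i, z i • (A i).map (fun y : ℝ => (y : ℂ))) := by
  unfold PA
  rw [AlgHom.map_det]
  congr 1
  ext r c
  rw [AlgHom.mapMatrix_apply, Matrix.map_apply, Matrix.of_apply, map_sum, Matrix.sum_apply]
  refine Finset.sum_congr rfl (fun i _ => ?_)
  rw [map_mul, MvPolynomial.aeval_X, MvPolynomial.aeval_C, Matrix.smul_apply, smul_eq_mul,
    Matrix.map_apply]
  rfl

theorem vDetH : Stmt_DetH := by
  intro n A hA
  refine ⟨detH_hom A, ?_, ?_⟩
  · intro b hb hb0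
    rw [detH_eval]
    exact (detH_pos A hA b hb hb0).det_pos
  · intro b a ha ha0
    rw [detH_aeval]
    intro hdet
    obtain ⟨w, hw, hw0⟩ := Matrix.exists_mulVec_eq_zero_iff.mpr hdet
    set B : Matrix (Fin n) (Fin n) ℝ := ∑ i, b i • A i with hB
    set C : Matrix (Fin n) (Fin n) ℝ := ∑ i, a i • A i with hC
    have hCp : C.PosDef := detH_pos A hA a ha ha0
    have hBs : ∀ r c, B r c = B c r := by
      intro r c
      rw [hB, Matrix.sum_apply, Matrix.sum_apply]
      refine Finset.sum_congr rfl (fun i _ => ?_)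
      have h1 := (hA i).isHermitian.apply c r
      rw [Matrix.smul_apply, Matrix.smul_apply]
      rw [star_trivial] at h1
      rw [h1]
    have hent : ∀ r c, (∑ i, ((b i : ℂ) + (a i : ℂ) * Complex.I) •
        (A i).map (fun y : ℝ => (y : ℂ))) r c = (B r c : ℂ) + (C r c : ℂ) * Complex.I := by
      intro r c
      rw [Matrix.sum_apply, hB, hC, Matrix.sum_apply, Matrix.sum_apply, Complex.ofReal_sum,
        Complex.ofReal_sum, Finset.sum_mul, ← Finset.sum_add_distrib]
      refine Finset.sum_congr rfl (fun i _ => ?_)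
      rw [Matrix.smul_apply, Matrix.smul_apply, Matrix.smul_apply, Matrix.map_apply, smul_eq_mul,
        smul_eq_mul, smul_eq_mul]
      push_cast
      ring
    set u : Fin n → ℝ := fun c => (w c).re with hu
    set v : Fin n → ℝ := fun c => (w c).im with hv
    have hrow : ∀ r, ∑ c, ((B r c : ℂ) + (C r c : ℂ) * Complex.I) * w c = 0 := by
      intro r
      have h1 := congrFun hw0 r
      unfold Matrix.mulVec dotProduct at h1
      rw [Pi.zero_apply] at h1
      rw [← h1]
      refine Finset.sum_congr rfl (fun c _ => ?_)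
      exact (congrArg (fun y => y * w c) (hent r c)).symm
    have hre : ∀ r, ∑ c, (B r c * u c - C r c * v c) = 0 := by
      intro r
      have h1 := congrArg Complex.re (hrow r)
      rw [Complex.re_sum, Complex.zero_re] at h1
      rw [← h1]
      refine Finset.sum_congr rfl (fun c _ => ?_)
      simp [hu, hv]
    have him : ∀ r, ∑ c, (B r c * v c + C r c * u c) = 0 := by
      intro r
      have h1 := congrArg Complex.im (hrow r)
      rw [Complex.im_sum, Complex.zero_im] at h1
      rw [← h1]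
      refine Finset.sum_congr rfl (fun c _ => ?_)
      simp [hu, hv]
    have hsum : (∑ r, ∑ c, u r * (C r c * u c)) + ∑ r, ∑ c, v r * (C r c * v c) = 0 := by
      have e1 : ∑ r, u r * ∑ c, (B r c * v c + C r c * u c) = 0 :=
        Finset.sum_eq_zero (fun r _ => by rw [him r, mul_zero])
      have e2 : ∑ r, v r * ∑ c, (B r c * u c - C r c * v c) = 0 :=
        Finset.sum_eq_zero (fun r _ => by rw [hre r, mul_zero])
      have e3 : ∑ r, ∑ c, u r * (B r c * v c) = ∑ r, ∑ c, v r * (B r c * u c) := by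
        rw [Finset.sum_comm]
        refine Finset.sum_congr rfl (fun r _ => Finset.sum_congr rfl (fun c _ => ?_))
        rw [hBs c r]
        ring
      have e4 : ∑ r, u r * ∑ c, (B r c * v c + C r c * u c) =
          (∑ r, ∑ c, u r * (B r c * v c)) + ∑ r, ∑ c, u r * (C r c * u c) := by
        rw [← Finset.sum_add_distrib]
        refine Finset.sum_congr rfl (fun r _ => ?_)
        rw [Finset.mul_sum, ← Finset.sum_add_distrib]
        refine Finset.sum_congr rfl (fun c _ => ?_)
        ring
      have e5 : ∑ r, v r * ∑ c, (B r c * u c - C r c * v c) =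
          (∑ r, ∑ c, v r * (B r c * u c)) - ∑ r, ∑ c, v r * (C r c * v c) := by
        rw [← Finset.sum_sub_distrib]
        refine Finset.sum_congr rfl (fun r _ => ?_)
        rw [Finset.mul_sum, ← Finset.sum_sub_distrib]
        refine Finset.sum_congr rfl (fun c _ => ?_)
        ring
      linarith
    have hu1 := detH_quad hCp u
    have hv1 := detH_quad hCp v
    have hu0 : u = 0 := hu1.2 (by linarith [hu1.1, hv1.1])
    have hv0 : v = 0 := hv1.2 (by linarith [hu1.1, hv1.1])
    apply hw
    funext c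
    apply Complex.ext
    · exact congrFun hu0 c
    · exact congrFun hv0 c

end Pool.Agent.Tvv
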