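import Pool.Agent.Tvv.Stmts

set_option autoImplicit false

namespace Pool.Agent.Tvv

open scoped Classical
open Pool.Agent.Tvb (Pos Zero Base Good hat TP)

/-- lower bound for the number of cones which contain a generic vector -/
theorem coreV (hNrm : Stmt_Nrm) (hHad : Stmt_Had) (hPst : Stmt_Pst) (hInv : Stmt_Inv)
    (k D : ℕ) (hk : 1 ≤ k) (hD : 1 ≤ D) (κ : ℝ) (hκ : 0 < κ) (hK : Kap k D κ)
    (l : Fin D → ℝ) (x : J k D → Fin D → ℝ) (ω : J k D → ℝ) (hl : ∀ a, 0 < ∑ i, l i * x a i)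
    (hc : 0 < cc x) (hG : Gen x ω) :
    ((k : ℝ) / Real.exp 1) ^ (k * D) ≤ (cnt x ω : ℝ) * (√((k : ℝ) ^ D) * κ ^ k) := by
  refine le_of_forall_pos_le_add fun ε hε => ?_
  set B : ℝ := (cnt x ω : ℝ) * (√((k : ℝ) ^ D) * κ ^ k) with hB
  have hB0 : 0 ≤ B := by positivity
  obtain ⟨g, r, hg, hr, hu, hz⟩ := hPst k D x hk hc (ε / (B + 1)) (by positivity)
  set z : J k D → Fin D → ℝ := fun a i => r a * g.mulVec (x a) i with hzdef
  set ω' : J k D → ℝ := fun c => g.mulVec (fun i => ω (c.1, i)) c.2 with hω'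
  have hk0 : (0 : ℝ) < k := by exact_mod_cast hk
  have hcz : 0 < cc z := by
    have h1 : 0 < ((k : ℝ) / Real.exp 1) ^ (k * D) := by positivity
    by_contra h
    have h2 : (1 + ε / (B + 1)) * cc z ≤ 0 :=
      mul_nonpos_of_nonneg_of_nonpos (by positivity) (not_lt.1 h)
    linarith
  obtain ⟨N, hN, hNz, hNκ⟩ := hK z hu hcz
  obtain ⟨hcnt, hgen⟩ := hInv k D x ω g r hg hr
  have hl' : ∀ a, 0 < ∑ i, (Matrix.vecMul l g⁻¹) i * z a i := by
    intro a
    have h1 : ∑ i, (Matrix.vecMul l g⁻¹) i * z a i = r a * ∑ i, l i * x a i := by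
      have h2 : ∑ i, (Matrix.vecMul l g⁻¹) i * z a i =
          r a * (dotProduct (Matrix.vecMul l g⁻¹) (g.mulVec (x a))) := by
        rw [dotProduct, Finset.mul_sum]
        exact Finset.sum_congr rfl fun i _ => by rw [hzdef]; ring
      rw [h2, ← Matrix.dotProduct_mulVec, Matrix.mulVec_mulVec,
        Matrix.nonsing_inv_mul _ (isUnit_iff_ne_zero.2 hg), Matrix.one_mulVec]
      rfl
    rw [h1]
    exact mul_pos (hr a) (hl a)
  have hnu : 0 ≤ nu N := by unfold nu; positivity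
  have h3 := hNrm k D hk hD z ω' (Matrix.vecMul l g⁻¹) N (hgen hG) hl' hN hNz
  have h4 : VV z ω' ≤ (cnt x ω : ℝ) * √((k : ℝ) ^ D) := by
    have h5 : ∀ π : J k D → Lb k, |dd z π| * (if Pos ω' (UU z π) then (1 : ℝ) else 0) ≤
        √((k : ℝ) ^ D) * (if Pos ω' (UU z π) then (1 : ℝ) else 0) := by
      intro π
      refine mul_le_mul_of_nonneg_right ?_ (by split_ifs <;> norm_num)
      rw [← Real.sqrt_sq_eq_abs]
      exact Real.sqrt_le_sqrt (hHad k D hk z (fun a => (hu a).le) π)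
    calc VV z ω' ≤ ∑ π : J k D → Lb k,
          √((k : ℝ) ^ D) * (if Pos ω' (UU z π) then (1 : ℝ) else 0) :=
          Finset.sum_le_sum fun π _ => h5 π
      _ = (cnt z ω' : ℝ) * √((k : ℝ) ^ D) := by
          rw [← Finset.mul_sum, Finset.sum_boole, mul_comm]
          rfl
      _ = (cnt x ω : ℝ) * √((k : ℝ) ^ D) := by rw [hcnt]
  have h6 : cc z ≤ B := by
    calc cc z ≤ VV z ω' * nu N ^ k := h3
      _ ≤ ((cnt x ω : ℝ) * √((k : ℝ) ^ D)) * κ ^ k :=
          mul_le_mul h4 (pow_le_pow_left₀ hnu hNκ k) (by positivity) (by positivity)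
      _ = B := by rw [hB]; ring
  calc ((k : ℝ) / Real.exp 1) ^ (k * D) ≤ (1 + ε / (B + 1)) * cc z := hz
    _ ≤ (1 + ε / (B + 1)) * B := mul_le_mul_of_nonneg_left h6 (by positivity)
    _ = B + ε * (B / (B + 1)) := by ring
    _ ≤ B + ε := by
        have : B / (B + 1) ≤ 1 := (div_le_one (by positivity)).2 (by linarith)
        nlinarith

/-- the theorem -/
theorem finalV (hNrm : Stmt_Nrm) (hHad : Stmt_Had) (hPst : Stmt_Pst) (hInv : Stmt_Inv)
    (hCls : Stmt_Cls) (hCvx : Stmt_Cvx) (hLab : Stmt_Lab) (hAri : Stmt_Ari)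
    (k d : ℕ) (hk : 1 ≤ k) (κ : ℝ) (hκ : 0 < κ) (hK : Kap k (d + 1) κ)
    (S : Finset (EuclideanSpace ℝ (Fin d))) (hS : S.card = k * (d + 1) + 1) :
    (k.factorial : ℝ) ^ d ≤
      (Real.exp 1 * k) ^ (d + 1) * κ ^ k * ((TP (k + 1) S).ncard : ℝ) := by
  have hk0 : (0 : ℝ) < k := by exact_mod_cast hk
  have hX : 0 < √((k : ℝ) ^ (d + 1)) * κ ^ k := by positivity
  have hq : Fintype.card (Option (J k (d + 1))) = Fintype.card S := by
    simp [hS]
  obtain ⟨q⟩ := Fintype.card_eq.1 hq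
  set B : ℝ := ((k : ℝ) / Real.exp 1) ^ (k * (d + 1)) / (√((k : ℝ) ^ (d + 1)) * κ ^ k) with hB
  let p : Option (J k (d + 1)) → EuclideanSpace ℝ (Fin d) := fun s => (q s : _)
  let l : Fin (d + 1) → ℝ := fun i => if i = Fin.last d then 1 else 0
  have hl : ∀ s, ∑ i, l i * hat (p s) i = 1 := by
    intro s
    simp only [l, ite_mul, one_mul, zero_mul, Finset.sum_ite_eq', Finset.mem_univ, if_true]
    simp [hat, Fin.snoc]
  have hB1 : ∀ (x : J k (d + 1) → Fin (d + 1) → ℝ) (ω : J k (d + 1) → ℝ),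
      (∀ a, 0 < ∑ i, l i * x a i) → 0 < cc x → Gen x ω → B ≤ cnt x ω := by
    intro x ω h1 h2 h3
    rw [hB, div_le_iff₀ hX]
    exact coreV hNrm hHad hPst hInv k (d + 1) hk (by omega) κ hκ hK l x ω h1 h2 h3
  -- the valid labellings
  let A : Finset (Option (J k (d + 1)) → Lb k) := Finset.univ.filter fun f =>
    ∃ c : Option (J k (d + 1)) → ℝ, (∀ s, 0 ≤ c s) ∧ ∑ s, c s = 1 ∧
      ∀ (j : Fin k) (i : Fin (d + 1)), ∑ s, c s * (ev (f s) j * hat (p s) i) = 0
  have hA : A.card ≤ (k + 1).factorial * (TP (k + 1) S).ncard := by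
    apply hLab k d S q A
    intro f hf
    obtain ⟨c, hc0, hc1, hc2⟩ := (Finset.mem_filter.1 hf).2
    exact hCvx k d p f c hc0 hc1 hc2
  -- the labellings with a given label of the last point
  let y : J k (d + 1) → Fin (d + 1) → ℝ := fun a => hat (p (some a))
  let v : Lb k → J k (d + 1) → ℝ := fun h c => ev h c.1 * hat (p none) c.2
  let L : Lb k → Finset (J k (d + 1) → Lb k) := fun h =>
    Finset.univ.filter fun π : J k (d + 1) → Lb k => ∃ c : Option (J k (d + 1)) → ℝ,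
    (∀ i, 0 ≤ c i) ∧ ∑ i, c i = 1 ∧ ∑ a, c (some a) • UU y π a + c none • v h = 0
  have hL : ∀ h, B ≤ ((L h).card : ℝ) := by
    intro h
    have hy : ∀ a : J k (d + 1), 0 < ∑ i, l i * y a i := by
      intro a
      have h1 : ∑ i, l i * y a i = 1 := hl (some a)
      rw [h1]
      norm_num
    exact hCls k (d + 1) l B hB1 y (v h) hy
  have hsum : (k + 1 : ℝ) * B ≤ (A.card : ℝ) := by
    have h1 : ∑ h : Lb k, (L h).card ≤ A.card := by
      rw [← Finset.card_sigma]
      refine Finset.card_le_card_of_injOn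
        (fun u : (Σ _ : Lb k, (J k (d + 1) → Lb k)) =>
          (fun s : Option (J k (d + 1)) => match s with
            | none => u.1
            | some a => u.2 a)) ?_ ?_
      · rintro ⟨h, π⟩ hu
        simp only [Finset.coe_sigma, Set.mem_sigma_iff, Finset.coe_univ, Set.mem_univ,
          true_and, Finset.mem_coe] at hu
        obtain ⟨c, hc0, hc1, hc2⟩ := (Finset.mem_filter.1 hu).2
        refine Finset.mem_coe.2 (Finset.mem_filter.2 ⟨Finset.mem_univ _, c, hc0, hc1, ?_⟩)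
        intro j i
        have h3 := congrFun hc2 (j, i)
        rw [Fintype.sum_option]
        simp only [Pi.add_apply, Finset.sum_apply, Pi.smul_apply, smul_eq_mul, Pi.zero_apply,
          UU] at h3
        rw [add_comm]
        exact h3
      · rintro ⟨h, π⟩ _ ⟨h', π'⟩ _ he
        have h1 : h = h' := congrFun he none
        have h2 : π = π' := by
          funext a
          exact congrFun he (some a)
        rw [h1, h2]
    calc (k + 1 : ℝ) * B = ∑ _h : Lb k, B := by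
          rw [Finset.sum_const, Finset.card_univ, Fintype.card_option, Fintype.card_fin,
            nsmul_eq_mul]
          push_cast
          ring
      _ ≤ ∑ h : Lb k, ((L h).card : ℝ) := Finset.sum_le_sum fun h _ => hL h
      _ = ((∑ h : Lb k, (L h).card : ℕ) : ℝ) := by push_cast; rfl
      _ ≤ (A.card : ℝ) := by exact_mod_cast h1
  apply hAri k d κ _ hk hκ.le (Nat.cast_nonneg _)
  have h5 : (k + 1 : ℝ) * B ≤ (k + 1 : ℝ) * ((k.factorial : ℝ) * ((TP (k + 1) S).ncard : ℝ)) := by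
    calc (k + 1 : ℝ) * B ≤ (A.card : ℝ) := hsum
      _ ≤ (((k + 1).factorial * (TP (k + 1) S).ncard : ℕ) : ℝ) := by exact_mod_cast hA
      _ = _ := by rw [Nat.factorial_succ]; push_cast; ring
  have h6 : B ≤ (k.factorial : ℝ) * ((TP (k + 1) S).ncard : ℝ) :=
    le_of_mul_le_mul_left h5 (by positivity)
  rw [hB, div_le_iff₀ hX] at h6
  exact h6

end Pool.Agent.Tvv
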