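import Pool.Agent.Tvv.Stmts

/-!
# Tverberg partitions, all numbers of parts: Fubini
-/

set_option autoImplicit false

namespace Pool.Agent.Tvv

open scoped Classical ENNReal
open MeasureTheory

/-- currying preserves the volume -/
theorem fub_curry (k D : ℕ) :
    MeasurePreserving (MeasurableEquiv.curry (Fin k) (Fin D) ℝ).symm
      (volume : Measure (Fin k → Fin D → ℝ)) (volume : Measure (J k D → ℝ)) := by
  refine ⟨(MeasurableEquiv.curry (Fin k) (Fin D) ℝ).symm.measurable, ?_⟩
  rw [volume_pi (α := fun _ : J k D => ℝ)]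
  refine (Measure.pi_eq fun s hs => ?_).symm
  rw [MeasurableEquiv.map_apply]
  have h : (MeasurableEquiv.curry (Fin k) (Fin D) ℝ).symm ⁻¹' Set.univ.pi s =
      Set.univ.pi (fun i : Fin k => Set.univ.pi (fun j : Fin D => s (i, j))) := by
    ext v
    simp only [Set.mem_preimage, Set.mem_univ_pi]
    exact ⟨fun H i j => H (i, j), fun H p => H p.1 p.2⟩
  rw [h, volume_pi_pi, Fintype.prod_prod_type]
  exact Finset.prod_congr rfl fun i _ => volume_pi_pi _

theorem fub_prod (D : ℕ) (φ : (Fin D → ℝ) → ℝ≥0∞) (hφ : Measurable φ) (k : ℕ) :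
    ∫⁻ v : Fin k → Fin D → ℝ, ∏ j, φ (v j) = (∫⁻ w, φ w) ^ k := by
  induction k with
  | zero =>
    simp only [Finset.univ_eq_empty, Finset.prod_empty, lintegral_const, one_mul, pow_zero]
    have h := volume_pi_pi (α := fun _ : Fin 0 => (Fin D → ℝ)) (fun _ => Set.univ)
    simpa using h
  | succ k ih =>
    have hmp := (volume_preserving_piFinSuccAbove (fun _ : Fin (k + 1) => (Fin D → ℝ)) 0).symm
    rw [← hmp.lintegral_comp_emb (MeasurableEquiv.measurableEmbedding _)]
    have h : ∀ p : (Fin D → ℝ) × (Fin k → Fin D → ℝ),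
        ∏ j, φ ((MeasurableEquiv.piFinSuccAbove (fun _ : Fin (k + 1) => (Fin D → ℝ)) 0).symm p j) =
          φ p.1 * ∏ j, φ (p.2 j) := by
      intro p
      rw [Fin.prod_univ_succAbove _ 0]
      simp [MeasurableEquiv.piFinSuccAbove]
    simp only [h]
    have hm : Measurable (fun v : Fin k → Fin D → ℝ => ∏ j, φ (v j)) :=
      Finset.measurable_fun_prod _ fun i _ => hφ.comp (measurable_pi_apply i)
    rw [Measure.volume_eq_prod, lintegral_prod_mul hφ.aemeasurable hm.aemeasurable, ih, pow_succ,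
      mul_comm]

theorem vFub : Stmt_Fub := by
  intro k D φ hφ
  rw [← (fub_curry k D).lintegral_comp_emb (MeasurableEquiv.measurableEmbedding _)]
  exact fub_prod D φ hφ k

end Pool.Agent.Tvv
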