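import Pool.Agent.Tvv.Stmts

/-!
# V14: the inequality of Gurvits, from V11, V12 and V13
-/

set_option autoImplicit false

namespace Pool.Agent.Tvv

open scoped Classical ENNReal
open Pool.Agent.Tvb (Pos Zero Base Good hat TP)
open MeasureTheory

/-- the value of the polynomial at a point -/
lemma gur_eval {n : ℕ} (A : Fin n → Matrix (Fin n) (Fin n) ℝ) (t : Fin n → ℝ) :
    MvPolynomial.eval t (PA A) = Matrix.det (∑ i, t i • A i) := by
  unfold PA
  rw [RingHom.map_det]
  apply congrArg
  ext r c
  simp only [RingHom.mapMatrix_apply, Matrix.map_apply, Matrix.of_apply, map_sum, map_mul,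
    MvPolynomial.eval_X, MvPolynomial.eval_C, Matrix.sum_apply, Matrix.smul_apply, smul_eq_mul]

/-- the mixed discriminant after a renaming -/
lemma gur_md {ι κ : Type} [Fintype ι] [DecidableEq ι] [Fintype κ] [DecidableEq κ] (e : ι ≃ κ)
    (A : ι → Matrix ι ι ℝ) :
    md (fun i : κ => (A (e.symm i)).submatrix e.symm e.symm) = md A := by
  unfold md
  refine (Fintype.sum_equiv e.permCongr _ _ fun σ => ?_).symm
  rw [← Matrix.det_submatrix_equiv_self e.symm]
  apply congrArg
  ext r c
  simp [Matrix.submatrix_apply, Equiv.permCongr_apply]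

theorem vGur (hC : Stmt_Chn) (hD : Stmt_DetH) (hCo : Stmt_Coe) : Stmt_Gur := by
  intro ι _ _ A hA
  obtain ⟨e⟩ : Nonempty (ι ≃ Fin (Fintype.card ι)) := ⟨Fintype.equivFin ι⟩
  set n := Fintype.card ι with hn
  have hA' : ∀ i : Fin n, ((A (e.symm i)).submatrix e.symm e.symm).PosDef :=
    fun i => (hA (e.symm i)).submatrix e.symm.injective
  obtain ⟨t, ht, hle⟩ := hC n _ (hD n (fun i : Fin n => (A (e.symm i)).submatrix e.symm e.symm) hA')
  rw [gur_eval, hCo, gur_md] at hle
  refine ⟨fun i => t (e i), fun i => ht _, ?_⟩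
  have h1 : Matrix.det (∑ i, t (e i) • A i) =
      Matrix.det (∑ i : Fin n, t i • (A (e.symm i)).submatrix e.symm e.symm) := by
    rw [← Matrix.det_submatrix_equiv_self e.symm]
    apply congrArg
    ext r c
    simp only [Matrix.submatrix_apply, Matrix.sum_apply, Matrix.smul_apply, smul_eq_mul]
    refine Fintype.sum_equiv e _ _ fun i => ?_
    simp
  have h2 : ∏ i, t (e i) = ∏ i, t i := Fintype.prod_equiv e _ _ fun i => rfl
  rw [h1, h2]
  exact hle

end Pool.Agent.Tvv
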