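import Pool.Agent.Tvv.Stmts
import Pool.Agent.Helper60.Hadamard

/-!
# V8: the inequality of Hadamard
-/

set_option autoImplicit false

namespace Pool.Agent.Tvv

open scoped Classical ENNReal
open Pool.Agent.Tvb (Pos Zero Base Good hat TP)
open MeasureTheory

/-- the inequality of Hadamard for the rows -/
lemma had_rows {ι : Type*} [Fintype ι] [DecidableEq ι] (U : Matrix ι ι ℝ) :
    U.det ^ 2 ≤ ∏ a, ∑ c, (U a c) ^ 2 := by
  have h1 : (U * U.conjTranspose).PosSemidef := Matrix.posSemidef_self_mul_conjTranspose U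
  have h2 := Pool.Agent.Helper60.Had.det_le_prod_diag h1
  rw [Matrix.det_mul, Matrix.det_conjTranspose] at h2
  have h3 : ∀ a, (U * U.conjTranspose) a a = ∑ c, (U a c) ^ 2 := by
    intro a
    rw [Matrix.mul_apply]
    refine Finset.sum_congr rfl fun c _ => ?_
    simp [Matrix.conjTranspose_apply, sq]
  simp only [h3] at h2
  calc U.det ^ 2 = U.det * star U.det := by simp [sq]
    _ ≤ _ := h2

/-- the sum of the squares of a row -/
lemma had_row {k D : ℕ} (x : J k D → Fin D → ℝ) (π : J k D → Lb k) (a : J k D)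
    (hx : ∑ i, (x a i) ^ 2 ≤ 1) :
    ∑ c, (UU x π a c) ^ 2 ≤ if π a = none then (k : ℝ) else 1 := by
  have h1 : ∑ c : J k D, (UU x π a c) ^ 2 = (∑ j, (ev (π a) j) ^ 2) * ∑ i, (x a i) ^ 2 := by
    rw [Fintype.sum_prod_type, Finset.sum_mul_sum]
    refine Finset.sum_congr rfl fun j _ => Finset.sum_congr rfl fun i _ => ?_
    simp [UU, mul_pow]
  have h2 : ∑ j, (ev (π a) j) ^ 2 = if π a = none then (k : ℝ) else 1 := by
    cases h : π a with
    | none => simp [ev]
    | some i => simp [ev]
  rw [h1, h2]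
  have h3 : (0 : ℝ) ≤ if π a = none then (k : ℝ) else 1 := by
    split_ifs
    · positivity
    · norm_num
  calc _ ≤ (if π a = none then (k : ℝ) else 1) * 1 := mul_le_mul_of_nonneg_left hx h3
    _ = _ := mul_one _

/-- the linear map `w ↦ (-1, …, -1) ⊗ w` -/
def had_lin (k D : ℕ) : (Fin D → ℝ) →ₗ[ℝ] (J k D → ℝ) where
  toFun w := fun c => -1 * w c.2
  map_add' v w := by
    ext c
    simp
    ring
  map_smul' r w := by
    ext c
    simp

/-- at most `D` labels are `none` if the determinant is not zero -/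
lemma had_card {k D : ℕ} (x : J k D → Fin D → ℝ) (π : J k D → Lb k) (h : dd x π ≠ 0) :
    (Finset.univ.filter fun a => π a = none).card ≤ D := by
  have h1 : LinearIndependent ℝ (Matrix.of (UU x π)).row :=
    Matrix.linearIndependent_rows_of_det_ne_zero h
  have h2 : LinearIndependent ℝ
      (fun a : {a : J k D // π a = none} => (Matrix.of (UU x π)).row a.1) :=
    h1.comp _ Subtype.val_injective
  have h3 : (fun a : {a : J k D // π a = none} => (Matrix.of (UU x π)).row a.1) =
      (had_lin k D) ∘ (fun a : {a : J k D // π a = none} => x a.1) := by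
    funext a
    ext c
    have := a.2
    simp only [Matrix.row, Matrix.of_apply, UU, Function.comp, had_lin, LinearMap.coe_mk,
      AddHom.coe_mk]
    rw [this]
    rfl
  rw [h3] at h2
  have h4 := LinearIndependent.of_comp _ h2
  have h5 := h4.fintype_card_le_finrank
  rw [Module.finrank_fin_fun] at h5
  rw [Fintype.card_subtype] at h5
  exact h5

theorem vHad : Stmt_Had := by
  intro k D hk x hx π
  by_cases h : dd x π = 0
  · rw [h, zero_pow two_ne_zero]
    positivity
  have hk1 : (1 : ℝ) ≤ k := by exact_mod_cast hk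
  calc (dd x π) ^ 2 ≤ ∏ a, ∑ c, (UU x π a c) ^ 2 := had_rows _
    _ ≤ ∏ a : J k D, (if π a = none then (k : ℝ) else 1) :=
      Finset.prod_le_prod (fun a _ => Finset.sum_nonneg fun c _ => sq_nonneg _)
        fun a _ => had_row x π a (hx a)
    _ = (k : ℝ) ^ (Finset.univ.filter fun a => π a = none).card := by
      rw [Finset.prod_ite]
      simp
    _ ≤ (k : ℝ) ^ D := pow_le_pow_right₀ hk1 (had_card x π h)

end Pool.Agent.Tvv
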