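import Pool.Agent.Tvv.Stmts

/-!
# The integral over a half space (V5)
-/

set_option autoImplicit false

namespace Pool.Agent.Tvv

open scoped Classical ENNReal
open Pool.Agent.Tvb (Pos Zero Base Good hat TP)
open MeasureTheory

/-- the integral of `exp (-N)` -/
theorem half_total {D : ℕ} (N : (Fin D → ℝ) → ℝ) (hN : IsN N) :
    ∫⁻ w, ENNReal.ofReal (Real.exp (-N w)) = ENNReal.ofReal (2 * nu N) := by
  have h := MeasureTheory.measure_lt_one_eq_integral_div_gamma (volume : Measure (Fin D → ℝ))
    (g := N) hN.zero hN.neg hN.add (fun {x} hx => hN.eq x hx) hN.smul (p := 1) one_pos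
  have hG : Real.Gamma (((Module.finrank ℝ (Fin D → ℝ) : ℕ) : ℝ) / 1 + 1) =
      (D.factorial : ℝ) := by
    rw [Module.finrank_fin_fun, div_one, Real.Gamma_nat_eq_factorial]
  rw [hG] at h
  simp only [Real.rpow_one] at h
  have hD : (0 : ℝ) < (D.factorial : ℝ) := by exact_mod_cast D.factorial_pos
  have hopen : IsOpen {w : Fin D → ℝ | N w < 1} := isOpen_lt hN.cont continuous_const
  have hpos : 0 < volume {w : Fin D → ℝ | N w < 1} :=
    hopen.measure_pos volume ⟨0, by
      show N 0 < 1
      rw [hN.zero]
      exact one_pos⟩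
  have hI : 0 < ∫ w : Fin D → ℝ, Real.exp (-N w) := by
    rw [h] at hpos
    have := ENNReal.ofReal_pos.mp hpos
    rcases div_pos_iff.mp this with h1 | h1
    · exact h1.1
    · exact absurd h1.2 (not_lt.mpr hD.le)
  have hint : Integrable (fun w : Fin D → ℝ => Real.exp (-N w)) := by
    by_contra hn
    rw [integral_undef hn] at hI
    exact lt_irrefl _ hI
  have hnu : 2 * nu N = ∫ w : Fin D → ℝ, Real.exp (-N w) := by
    unfold nu
    rw [h, ENNReal.toReal_ofReal (div_nonneg hI.le hD.le)]
    field_simp
  rw [hnu, ofReal_integral_eq_lintegral_ofReal hint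
    (Filter.Eventually.of_forall fun w => (Real.exp_pos _).le)]

theorem vHalf : Stmt_Half := by
  intro D l N hl hN
  have htot := half_total N hN
  set F : (Fin D → ℝ) → ℝ≥0∞ := fun w => ENNReal.ofReal (Real.exp (-N w)) with hF
  set A : Set (Fin D → ℝ) := {w | 0 < ∑ i, l i * w i} with hA
  set B : Set (Fin D → ℝ) := {w | ∑ i, l i * w i < 0} with hB
  have hcont : Continuous fun w : Fin D → ℝ => ∑ i, l i * w i := by fun_prop
  have hAm : MeasurableSet A := (isOpen_lt continuous_const hcont).measurableSet
  have hBm : MeasurableSet B := (isOpen_lt hcont continuous_const).measurableSet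
  have hFm : Measurable F := (Real.continuous_exp.comp hN.cont.neg).measurable.ennreal_ofReal
  -- the hyperplane is null
  have hnull : volume {w : Fin D → ℝ | ∑ i, l i * w i = 0} = 0 := by
    let L : (Fin D → ℝ) →ₗ[ℝ] ℝ := ∑ i, l i • LinearMap.proj i
    have hL : ∀ w, L w = ∑ i, l i * w i := by
      intro w
      simp [L]
    have hne : LinearMap.ker L ≠ ⊤ := by
      intro htop
      apply hl
      funext i
      have : Pi.single i (1 : ℝ) ∈ LinearMap.ker L := by
        rw [htop]
        trivial
      rw [LinearMap.mem_ker, hL] at this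
      simpa [Pi.single_apply] using this
    have := Measure.addHaar_submodule (volume : Measure (Fin D → ℝ)) (LinearMap.ker L) hne
    have heq : {w : Fin D → ℝ | ∑ i, l i * w i = 0} = (LinearMap.ker L : Set (Fin D → ℝ)) := by
      ext w
      rw [SetLike.mem_coe, LinearMap.mem_ker, hL]
      rfl
    rw [heq]
    exact this
  -- reflection
  have hrefl : ∫⁻ w, B.indicator F w = ∫⁻ w, A.indicator F w := by
    rw [← lintegral_neg_eq_self (fun w => A.indicator F w) (μ := (volume : Measure (Fin D → ℝ)))]
    apply lintegral_congr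
    intro w
    have h1 : (-w ∈ A) ↔ w ∈ B := by
      show (0 < ∑ i, l i * (-w) i) ↔ (∑ i, l i * w i < 0)
      have : ∑ i, l i * (-w) i = -∑ i, l i * w i := by
        rw [← Finset.sum_neg_distrib]
        exact Finset.sum_congr rfl fun i _ => by
          rw [Pi.neg_apply]
          ring
      rw [this]
      exact neg_pos
    have h2 : F (-w) = F w := by
      show ENNReal.ofReal (Real.exp (-N (-w))) = ENNReal.ofReal (Real.exp (-N w))
      rw [hN.neg]
    by_cases hw : w ∈ B
    · rw [Set.indicator_of_mem hw, Set.indicator_of_mem (h1.mpr hw), h2]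
    · rw [Set.indicator_of_notMem hw, Set.indicator_of_notMem (fun h => hw (h1.mp h))]
  have hsum : ∫⁻ w, F w = (∫⁻ w, A.indicator F w) + ∫⁻ w, B.indicator F w := by
    rw [← lintegral_add_left (hFm.indicator hAm)]
    apply lintegral_congr_ae
    have hae : ∀ᵐ w : Fin D → ℝ, ¬ (∑ i, l i * w i = 0) := by
      rw [ae_iff]
      simpa using hnull
    filter_upwards [hae] with w hw
    rcases lt_or_gt_of_ne hw with h1 | h1
    · have hwB : w ∈ B := h1
      have hwA : w ∉ A := fun h => lt_asymm h h1
      rw [Set.indicator_of_mem hwB, Set.indicator_of_notMem hwA, zero_add]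
    · have hwA : w ∈ A := h1
      have hwB : w ∉ B := fun h => lt_asymm h h1
      rw [Set.indicator_of_mem hwA, Set.indicator_of_notMem hwB, add_zero]
  rw [hrefl, ← two_mul] at hsum
  have hnn : 0 ≤ nu N := by
    unfold nu
    positivity
  rw [hsum, ENNReal.ofReal_mul (by norm_num : (0 : ℝ) ≤ 2)] at htot
  have h2 : ENNReal.ofReal 2 = 2 := by norm_num
  rw [h2] at htot
  exact (ENNReal.mul_right_inj (by norm_num) (by norm_num)).mp htot

end Pool.Agent.Tvv
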