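import Pool.Agent.Tvv.Stmts

/-!
# Integration over the cones
-/

set_option autoImplicit false

namespace Pool.Agent.Tvv

open scoped Classical ENNReal
open Pool.Agent.Tvb (Pos Zero Base Good hat TP)
open MeasureTheory

/-- the linear map `t ↦ ∑ t_a U_a` -/
noncomputable def intL {k D : ℕ} (x : J k D → Fin D → ℝ) (π : J k D → Lb k) :
    (J k D → ℝ) →L[ℝ] (J k D → ℝ) :=
  LinearMap.toContinuousLinearMap (Matrix.toLin' (Matrix.of (UU x π)).transpose)

theorem int_apply {k D : ℕ} (x : J k D → Fin D → ℝ) (π : J k D → Lb k) (t : J k D → ℝ) :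
    intL x π t = ∑ a, t a • UU x π a := by
  funext c
  simp only [intL, LinearMap.coe_toContinuousLinearMap', Matrix.toLin'_apply, Matrix.mulVec,
    dotProduct, Matrix.transpose_apply, Matrix.of_apply, Finset.sum_apply, Pi.smul_apply,
    smul_eq_mul]
  exact Finset.sum_congr rfl fun a _ => mul_comm _ _

theorem int_det {k D : ℕ} (x : J k D → Fin D → ℝ) (π : J k D → Lb k) :
    (intL x π).det = dd x π := by
  rw [ContinuousLinearMap.det, intL]
  have : ((LinearMap.toContinuousLinearMap (Matrix.toLin' (Matrix.of (UU x π)).transpose) :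
    (J k D → ℝ) →L[ℝ] (J k D → ℝ)) : (J k D → ℝ) →ₗ[ℝ] (J k D → ℝ)) =
    Matrix.toLin' (Matrix.of (UU x π)).transpose := by
    ext1; rfl
  rw [this, LinearMap.det_toLin', Matrix.det_transpose, dd]

theorem int_inj {k D : ℕ} (x : J k D → Fin D → ℝ) (π : J k D → Lb k) (h : dd x π ≠ 0) :
    Function.Injective (intL x π) := by
  have h1 : IsUnit (Matrix.of (UU x π)).transpose := by
    rw [Matrix.isUnit_iff_isUnit_det, Matrix.det_transpose]
    exact isUnit_iff_ne_zero.2 h
  have h2 := Matrix.mulVec_injective_iff_isUnit.2 h1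
  intro s t hst
  apply h2
  simpa only [intL, LinearMap.coe_toContinuousLinearMap', Matrix.toLin'_apply] using hst

theorem int_image {k D : ℕ} (x : J k D → Fin D → ℝ) (π : J k D → Lb k) :
    intL x π '' {t : J k D → ℝ | ∀ a, 0 < t a} = {ω | Pos ω (UU x π)} := by
  ext ω
  simp only [Set.mem_image, Set.mem_setOf_eq, Pos]
  constructor
  · rintro ⟨t, ht, h⟩
    exact ⟨t, ht, by rw [← h, int_apply]⟩
  · rintro ⟨t, ht, h⟩
    exact ⟨t, ht, by rw [← h, int_apply]⟩

theorem int_open {k D : ℕ} : IsOpen {t : J k D → ℝ | ∀ a, 0 < t a} := by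
  have : {t : J k D → ℝ | ∀ a, 0 < t a} = ⋂ a, {t | 0 < t a} := by
    ext t; simp
  rw [this]
  exact isOpen_iInter_of_finite fun a => isOpen_lt continuous_const (continuous_apply a)

theorem int_term {k D : ℕ} (x : J k D → Fin D → ℝ) (φ : (J k D → ℝ) → ℝ≥0∞)
    (π : J k D → Lb k) :
    ∫⁻ ω, φ ω * ENNReal.ofReal (|dd x π| * (if Pos ω (UU x π) then 1 else 0)) =
    ENNReal.ofReal ((dd x π) ^ 2) *
      ∫⁻ t in {t : J k D → ℝ | ∀ a, 0 < t a}, φ (∑ a, t a • UU x π a) := by
  by_cases h : dd x π = 0
  · simp [h]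
  have hS : MeasurableSet {t : J k D → ℝ | ∀ a, 0 < t a} := int_open.measurableSet
  have himg : MeasurableSet (intL x π '' {t : J k D → ℝ | ∀ a, 0 < t a}) :=
    hS.image_of_continuousOn_injOn (intL x π).continuous.continuousOn (int_inj x π h).injOn
  have key := lintegral_image_eq_lintegral_abs_det_fderiv_mul volume hS
    (f := intL x π) (f' := fun _ => intL x π)
    (fun t _ => (intL x π).hasFDerivAt.hasFDerivWithinAt) (int_inj x π h).injOn φ
  have e1 : ∀ ω, φ ω * ENNReal.ofReal (|dd x π| * (if Pos ω (UU x π) then 1 else 0)) =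
      (intL x π '' {t : J k D → ℝ | ∀ a, 0 < t a}).indicator
        (fun ω => ENNReal.ofReal |dd x π| * φ ω) ω := by
    intro ω
    rw [int_image]
    by_cases hω : Pos ω (UU x π)
    · rw [Set.indicator_of_mem (by exact hω), if_pos hω, mul_one, mul_comm]
    · rw [Set.indicator_of_notMem (by exact hω), if_neg hω, mul_zero, ENNReal.ofReal_zero,
        mul_zero]
  rw [lintegral_congr e1, lintegral_indicator himg,
    lintegral_const_mul' _ _ ENNReal.ofReal_ne_top, key]
  simp only [int_det]
  rw [lintegral_const_mul' _ _ ENNReal.ofReal_ne_top, ← mul_assoc,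
    ← ENNReal.ofReal_mul (abs_nonneg _), ← pow_two, sq_abs]
  simp only [int_apply]

theorem vInt : Stmt_Int := by
  intro k D x φ hφ
  have e1 : ∀ ω, φ ω * ENNReal.ofReal (VV x ω) = ∑ π : J k D → Lb k,
      φ ω * ENNReal.ofReal (|dd x π| * (if Pos ω (UU x π) then 1 else 0)) := by
    intro ω
    rw [VV, ENNReal.ofReal_sum_of_nonneg, Finset.mul_sum]
    intro π _
    split_ifs <;> simp
  rw [lintegral_congr e1, lintegral_finset_sum']
  · exact Finset.sum_congr rfl fun π _ => int_term x φ π
  · intro π _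
    refine (hφ.aemeasurable).mul (Measurable.aemeasurable ?_)
    by_cases h : dd x π = 0
    · simp [h]
    · have hS : MeasurableSet {t : J k D → ℝ | ∀ a, 0 < t a} := int_open.measurableSet
      have himg : MeasurableSet (intL x π '' {t : J k D → ℝ | ∀ a, 0 < t a}) :=
        hS.image_of_continuousOn_injOn (intL x π).continuous.continuousOn (int_inj x π h).injOn
      rw [int_image] at himg
      exact (measurable_const.mul (Measurable.ite himg measurable_const
        measurable_const)).ennreal_ofReal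

end Pool.Agent.Tvv
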