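import Pool.Agent.Tvv.Stmts

/-!
# Module Inv: invariance under linear maps and positive factors (MP_001fdd_co)
-/

set_option autoImplicit false

namespace Pool.Agent.Tvv

open scoped Classical ENNReal
open Pool.Agent.Tvb (Pos Zero Base Good hat TP)
open MeasureTheory

section abs

variable {ι V : Type} [Fintype ι] [AddCommGroup V] [Module ℝ V]

theorem Inv_pos_imp (G : V →ₗ[ℝ] V) (r : ι → ℝ) (hr : ∀ a, 0 < r a) (ω : V) (x : ι → V)
    (h : Pos ω x) : Pos (G ω) (fun a => r a • G (x a)) := by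
  obtain ⟨c, hc, rfl⟩ := h
  refine ⟨fun a => c a / r a, fun a => div_pos (hc a) (hr a), ?_⟩
  rw [map_sum]
  refine Finset.sum_congr rfl fun a _ => ?_
  rw [map_smul, smul_smul, div_mul_cancel₀ _ (hr a).ne']

theorem Inv_pos_iff (G : V ≃ₗ[ℝ] V) (r : ι → ℝ) (hr : ∀ a, 0 < r a) (ω : V) (x : ι → V) :
    Pos (G ω) (fun a => r a • G (x a)) ↔ Pos ω x := by
  constructor
  · intro h
    have h1 := Inv_pos_imp G.symm.toLinearMap (fun a => (r a)⁻¹) (fun a => inv_pos.mpr (hr a)) _ _ h
    have h2 : (fun a => (r a)⁻¹ • G.symm.toLinearMap (r a • G (x a))) = x := by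
      funext a
      rw [map_smul, smul_smul, inv_mul_cancel₀ (hr a).ne', one_smul]
      simp
    simp only [LinearEquiv.coe_coe] at h1 h2
    rw [h2, LinearEquiv.symm_apply_apply] at h1
    exact h1
  · intro h
    exact Inv_pos_imp G.toLinearMap r hr ω x h

omit [Fintype ι] in
theorem Inv_li (G : V ≃ₗ[ℝ] V) (r : ι → ℝ) (hr : ∀ a, 0 < r a) (x : ι → V) :
    LinearIndependent ℝ (fun a => r a • G (x a)) ↔ LinearIndependent ℝ x := by
  have h1 : (fun a => r a • G (x a)) =
      (fun a => Units.mk0 (r a) (hr a).ne') • (G ∘ x) := by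
    funext a
    simp [Units.smul_def]
  rw [h1]
  constructor
  · intro h
    have h2 := h.units_smul (fun a => (Units.mk0 (r a) (hr a).ne')⁻¹)
    have h3 : ((fun a => (Units.mk0 (r a) (hr a).ne')⁻¹) •
        ((fun a => Units.mk0 (r a) (hr a).ne') • (G ∘ x))) = G ∘ x := by
      funext a
      exact inv_smul_smul (Units.mk0 (r a) (hr a).ne') (G (x a))
    rw [h3] at h2
    exact (G.toLinearMap.linearIndependent_iff G.ker).mp h2
  · intro h
    exact ((G.toLinearMap.linearIndependent_iff G.ker).mpr h).units_smul _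

theorem Inv_base (G : V ≃ₗ[ℝ] V) (r : ι → ℝ) (hr : ∀ a, 0 < r a) (ω : V) (x : ι → V)
    (h : Base ω x) : Base (G ω) (fun a => r a • G (x a)) := by
  obtain ⟨h1, c, hc, hc0⟩ := h
  refine ⟨(Inv_li G r hr x).mpr h1, fun a => c a / r a, ?_, fun a => div_ne_zero (hc0 a) (hr a).ne'⟩
  rw [hc, map_sum]
  refine Finset.sum_congr rfl fun a _ => ?_
  rw [map_smul, smul_smul, div_mul_cancel₀ _ (hr a).ne']

end abs

theorem Inv_dd {k D : ℕ} (x : J k D → Fin D → ℝ) (π : J k D → Lb k) :
    dd x π ≠ 0 ↔ LinearIndependent ℝ (UU x π) := by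
  have h := Matrix.linearIndependent_rows_iff_isUnit (A := Matrix.of (UU x π))
  rw [Matrix.isUnit_iff_isUnit_det, isUnit_iff_ne_zero] at h
  exact h.symm

/-- the map `1 ⊗ g` -/
noncomputable def InvG {k D : ℕ} (g : Matrix (Fin D) (Fin D) ℝ) (hg : g.det ≠ 0) :
    (J k D → ℝ) ≃ₗ[ℝ] (J k D → ℝ) where
  toFun ω := fun c => g.mulVec (fun i => ω (c.1, i)) c.2
  map_add' v w := by
    funext c
    have : (fun i => (v + w) (c.1, i)) = (fun i => v (c.1, i)) + (fun i => w (c.1, i)) := rfl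
    rw [this, Matrix.mulVec_add]
    rfl
  map_smul' s v := by
    funext c
    have : (fun i => (s • v) (c.1, i)) = s • (fun i => v (c.1, i)) := rfl
    rw [this, Matrix.mulVec_smul]
    rfl
  invFun ω := fun c => g⁻¹.mulVec (fun i => ω (c.1, i)) c.2
  left_inv v := by
    funext c
    have h : IsUnit g.det := isUnit_iff_ne_zero.mpr hg
    show g⁻¹.mulVec (fun i => g.mulVec (fun i => v (c.1, i)) i) c.2 = v c
    have h2 : g⁻¹.mulVec (g.mulVec (fun i => v (c.1, i))) = fun i => v (c.1, i) := by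
      rw [Matrix.mulVec_mulVec, Matrix.nonsing_inv_mul _ h, Matrix.one_mulVec]
    exact congrFun h2 c.2
  right_inv v := by
    funext c
    have h : IsUnit g.det := isUnit_iff_ne_zero.mpr hg
    show g.mulVec (fun i => g⁻¹.mulVec (fun i => v (c.1, i)) i) c.2 = v c
    have h2 : g.mulVec (g⁻¹.mulVec (fun i => v (c.1, i))) = fun i => v (c.1, i) := by
      rw [Matrix.mulVec_mulVec, Matrix.mul_nonsing_inv _ h, Matrix.one_mulVec]
    exact congrFun h2 c.2

theorem Inv_UU {k D : ℕ} (x : J k D → Fin D → ℝ) (g : Matrix (Fin D) (Fin D) ℝ)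
    (hg : g.det ≠ 0) (r : J k D → ℝ) (π : J k D → Lb k) :
    UU (fun a i => r a * g.mulVec (x a) i) π = fun a => r a • InvG g hg (UU x π a) := by
  funext a c
  show ev (π a) c.1 * (r a * g.mulVec (x a) c.2) =
    r a * g.mulVec (fun i => ev (π a) c.1 * x a i) c.2
  have : (fun i => ev (π a) c.1 * x a i) = ev (π a) c.1 • x a := rfl
  rw [this, Matrix.mulVec_smul]
  show _ = r a * (ev (π a) c.1 * g.mulVec (x a) c.2)
  ring

theorem vInv : Stmt_Inv := by
  intro k D x ω g r hg hr
  have hω : (fun c : J k D => g.mulVec (fun i => ω (c.1, i)) c.2) = InvG g hg ω := rfl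
  constructor
  · unfold cnt
    congr 1
    ext π
    simp only [Finset.mem_filter, Finset.mem_univ, true_and]
    rw [Inv_UU x g hg r π, hω]
    exact Inv_pos_iff (InvG g hg) r hr ω (UU x π)
  · intro h π hπ
    rw [Inv_dd, Inv_UU x g hg r π, Inv_li, ← Inv_dd] at hπ
    · rw [Inv_UU x g hg r π, hω]
      exact Inv_base (InvG g hg) r hr ω (UU x π) (h π hπ)
    · exact hr

end Pool.Agent.Tvv
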