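import Pool.Agent.Tvv.Stmts

/-!
# Module Low: lower bound for the integral over a cone
-/

set_option autoImplicit false

namespace Pool.Agent.Tvv

open scoped Classical ENNReal
open Pool.Agent.Tvb (Pos Zero Base Good hat TP)
open MeasureTheory

theorem low_int (ι : Type) [Fintype ι] :
    ∫⁻ t in {t : ι → ℝ | ∀ a, 0 < t a}, ENNReal.ofReal (∏ a, Real.exp (-(t a))) = 1 := by
  have hs : {t : ι → ℝ | ∀ a, 0 < t a} = Set.univ.pi fun _ : ι => Set.Ioi (0 : ℝ) := by
    ext t
    simp
  rw [hs, volume_pi, Measure.restrict_pi_pi]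
  have hint : Integrable (fun t : ι → ℝ => ∏ a, Real.exp (-(t a)))
      (Measure.pi fun _ : ι => (volume : Measure ℝ).restrict (Set.Ioi 0)) :=
    Integrable.fintype_prod (f := fun (_ : ι) (t : ℝ) => Real.exp (-t))
      fun _ => integrableOn_exp_neg_Ioi 0
  rw [← ofReal_integral_eq_lintegral_ofReal hint
    (Filter.Eventually.of_forall fun t => Finset.prod_nonneg fun a _ => (Real.exp_pos _).le)]
  have h := integral_fintype_prod_eq_prod (𝕜 := ℝ) (fun (_ : ι) (t : ℝ) => Real.exp (-t))
    (μ := fun _ : ι => (volume : Measure ℝ).restrict (Set.Ioi 0))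
  rw [h, Finset.prod_congr rfl fun _ _ => integral_exp_neg_Ioi_zero]
  simp

theorem low_N {D : ℕ} {N : (Fin D → ℝ) → ℝ} (hN : IsN N) {ι : Type} (s : Finset ι) (t : ι → ℝ)
    (x : ι → Fin D → ℝ) (ht : ∀ a, 0 < t a) (hx : ∀ a, N (x a) ≤ 1) :
    N (∑ a ∈ s, t a • x a) ≤ ∑ a ∈ s, t a := by
  induction s using Finset.induction_on with
  | empty => rw [Finset.sum_empty, Finset.sum_empty, hN.zero]
  | insert a s ha ih =>
    rw [Finset.sum_insert ha, Finset.sum_insert ha]
    refine (hN.add _ _).trans (add_le_add ?_ ih)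
    refine (hN.smul _ _).trans ?_
    rw [abs_of_pos (ht a)]
    exact mul_le_of_le_one_right (ht a).le (hx a)

theorem low_apply {k D : ℕ} (x : J k D → Fin D → ℝ) (π : J k D → Fin k) (t : J k D → ℝ)
    (j : Fin k) (i : Fin D) :
    (∑ a, t a • UU x (fun a => some (π a)) a) (j, i) =
      (∑ a ∈ Finset.univ.filter (fun a => π a = j), t a • x a) i := by
  rw [Finset.sum_apply, Finset.sum_apply, Finset.sum_filter]
  refine Finset.sum_congr rfl fun a _ => ?_
  by_cases h : π a = j
  · simp [UU, ev, h]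
  · simp [UU, ev, h]

theorem vLow : Stmt_Low := by
  intro k D hD x l N hl hN hx π hd
  refine (low_int (J k D)).symm.le.trans ?_
  have hms : MeasurableSet {t : J k D → ℝ | ∀ a, 0 < t a} := by
    have hs : {t : J k D → ℝ | ∀ a, 0 < t a} = Set.univ.pi fun _ : J k D => Set.Ioi (0 : ℝ) := by
      ext t
      simp
    rw [hs]
    exact MeasurableSet.univ_pi fun _ => measurableSet_Ioi
  refine setLIntegral_mono' hms fun t ht => ?_
  have ht' : ∀ a, 0 < t a := ht
  have hj : ∀ j : Fin k, ∃ a, π a = j := by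
    intro j
    by_contra hcon
    push Not at hcon
    refine hd ?_
    unfold dd
    refine Matrix.det_eq_zero_of_column_eq_zero (j, ⟨0, hD⟩) fun a => ?_
    simp [UU, ev, hcon a]
  have key : ∀ j : Fin k, ENNReal.ofReal (∏ a ∈ Finset.univ.filter (fun a => π a = j),
      Real.exp (-(t a))) ≤ Set.indicator {w : Fin D → ℝ | 0 < ∑ i, l i * w i}
      (fun w => ENNReal.ofReal (Real.exp (-N w)))
      (fun i => (∑ a, t a • UU x (fun a => some (π a)) a) (j, i)) := by
    intro j
    have e : (fun i => (∑ a, t a • UU x (fun a => some (π a)) a) (j, i)) =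
        ∑ a ∈ Finset.univ.filter (fun a => π a = j), t a • x a := by
      funext i
      exact low_apply x π t j i
    rw [e]
    have hmem : (∑ a ∈ Finset.univ.filter (fun a => π a = j), t a • x a) ∈
        {w : Fin D → ℝ | 0 < ∑ i, l i * w i} := by
      change 0 < ∑ i, l i * (∑ a ∈ Finset.univ.filter (fun a => π a = j), t a • x a) i
      have e2 : ∑ i, l i * (∑ a ∈ Finset.univ.filter (fun a => π a = j), t a • x a) i =
          ∑ a ∈ Finset.univ.filter (fun a => π a = j), t a * ∑ i, l i * x a i := by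
        simp only [Finset.sum_apply, Finset.mul_sum, Pi.smul_apply, smul_eq_mul]
        rw [Finset.sum_comm]
        exact Finset.sum_congr rfl fun a _ => Finset.sum_congr rfl fun i _ => by ring
      rw [e2]
      obtain ⟨a, ha⟩ := hj j
      exact Finset.sum_pos (fun b _ => mul_pos (ht' b) (hl b))
        ⟨a, Finset.mem_filter.mpr ⟨Finset.mem_univ _, ha⟩⟩
    rw [Set.indicator_of_mem hmem]
    refine ENNReal.ofReal_le_ofReal ?_
    rw [← Real.exp_sum, Finset.sum_neg_distrib]
    exact Real.exp_le_exp.mpr (neg_le_neg (low_N hN _ t x ht' hx))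
  refine le_trans ?_ (Finset.prod_le_prod' fun j _ => key j)
  rw [← ENNReal.ofReal_prod_of_nonneg
    fun j _ => Finset.prod_nonneg fun a _ => (Real.exp_pos _).le]
  rw [Finset.prod_fiberwise]

end Pool.Agent.Tvv
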