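import Pool.Agent.Tvv.Stmts

/-!
# V20: the volume of the convex hull of `M` points of the unit ball (MP_001fdd_co)
-/

set_option autoImplicit false

namespace Pool.Agent.Tvv

open scoped Classical ENNReal
open Pool.Agent.Tvb (Pos Zero Base Good hat TP)
open MeasureTheory

theorem mauA_weights {E : Type*} [AddCommGroup E] [Module ℝ E] {M : ℕ} (Y : Fin M → E) (v : E)
    (hv : v ∈ convexHull ℝ (Set.range Y)) :
    ∃ p : Fin M → ℝ, (∀ i, 0 ≤ p i) ∧ ∑ i, p i = 1 ∧ ∑ i, p i • Y i = v := by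
  have h1 : Convex ℝ {w : E | ∃ p : Fin M → ℝ, (∀ i, 0 ≤ p i) ∧ ∑ i, p i = 1 ∧
      ∑ i, p i • Y i = w} := by
    rintro x ⟨p, p1, p2, rfl⟩ y ⟨q, q1, q2, rfl⟩ a b ha hb hab
    refine ⟨fun i => a * p i + b * q i, fun i => ?_, ?_, ?_⟩
    · have := p1 i
      have := q1 i
      positivity
    · rw [Finset.sum_add_distrib, ← Finset.mul_sum, ← Finset.mul_sum, p2, q2]
      linarith
    · rw [Finset.smul_sum, Finset.smul_sum, ← Finset.sum_add_distrib]
      refine Finset.sum_congr rfl (fun i _ => ?_)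
      rw [add_smul, mul_smul, mul_smul]
  have h2 : Set.range Y ⊆ {w : E | ∃ p : Fin M → ℝ, (∀ i, 0 ≤ p i) ∧ ∑ i, p i = 1 ∧
      ∑ i, p i • Y i = w} := by
    rintro _ ⟨i, rfl⟩
    refine ⟨fun j => if j = i then 1 else 0, fun j => ?_, ?_, ?_⟩
    · show (0 : ℝ) ≤ if j = i then 1 else 0
      split_ifs <;> norm_num
    · rw [Finset.sum_ite_eq' Finset.univ i (fun _ => (1 : ℝ)), if_pos (Finset.mem_univ i)]
    · rw [Finset.sum_eq_single i]
      · show (if i = i then (1 : ℝ) else 0) • Y i = Y i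
        rw [if_pos rfl, one_smul]
      · intro j _ hj
        show (if j = i then (1 : ℝ) else 0) • Y j = 0
        rw [if_neg hj, zero_smul]
      · intro h
        exact absurd (Finset.mem_univ i) h
  exact convexHull_min h2 h1 hv

theorem mauA_step {D M : ℕ} (Y : Fin M → EuclideanSpace ℝ (Fin D)) (hY : ∀ i, ‖Y i‖ ≤ 1)
    (p : Fin M → ℝ) (hp : ∀ i, 0 ≤ p i) (hp1 : ∑ i, p i = 1) (v S : EuclideanSpace ℝ (Fin D))
    (hv : ∑ i, p i • Y i = v) : ∃ i, ‖S + (v - Y i)‖ ^ 2 ≤ ‖S‖ ^ 2 + 1 := by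
  by_contra hcon
  push Not at hcon
  have h1 : ∀ i, ‖S + (v - Y i)‖ ^ 2 = ‖S‖ ^ 2 + 2 * inner ℝ S (v - Y i) + ‖v - Y i‖ ^ 2 :=
    fun i => norm_add_sq_real S (v - Y i)
  have h2 : ∀ i, ‖v - Y i‖ ^ 2 = ‖v‖ ^ 2 - 2 * inner ℝ v (Y i) + ‖Y i‖ ^ 2 :=
    fun i => norm_sub_sq_real v (Y i)
  have h3 : ∑ i, p i * inner ℝ S (v - Y i) = 0 := by
    have e1 : ∀ i, p i * inner ℝ S (v - Y i) = inner ℝ S (p i • v - p i • Y i) := by
      intro i
      rw [← smul_sub, real_inner_smul_right]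
    rw [Finset.sum_congr rfl (fun i _ => e1 i), ← inner_sum, Finset.sum_sub_distrib, hv,
      ← Finset.sum_smul, hp1, one_smul, sub_self, inner_zero_right]
  have h4 : ∑ i, p i * inner ℝ v (Y i) = ‖v‖ ^ 2 := by
    have e1 : ∀ i, p i * inner ℝ v (Y i) = inner ℝ v (p i • Y i) := by
      intro i
      rw [real_inner_smul_right]
    rw [Finset.sum_congr rfl (fun i _ => e1 i), ← inner_sum, hv, real_inner_self_eq_norm_sq]
  have h5 : ∑ i, p i * ‖Y i‖ ^ 2 ≤ 1 := by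
    calc ∑ i, p i * ‖Y i‖ ^ 2 ≤ ∑ i, p i * 1 := by
          refine Finset.sum_le_sum (fun i _ => mul_le_mul_of_nonneg_left ?_ (hp i))
          exact pow_le_one₀ (norm_nonneg _) (hY i)
      _ = 1 := by rw [← Finset.sum_mul, hp1, one_mul]
  have h6 : ∑ i, p i * ‖S + (v - Y i)‖ ^ 2 ≤ ‖S‖ ^ 2 + 1 := by
    have e1 : ∀ i, p i * ‖S + (v - Y i)‖ ^ 2 = ‖S‖ ^ 2 * p i + 2 * (p i * inner ℝ S (v - Y i)) +
        ‖v‖ ^ 2 * p i - 2 * (p i * inner ℝ v (Y i)) + p i * ‖Y i‖ ^ 2 := by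
      intro i
      rw [h1, h2]
      ring
    rw [Finset.sum_congr rfl (fun i _ => e1 i), Finset.sum_add_distrib, Finset.sum_sub_distrib,
      Finset.sum_add_distrib, Finset.sum_add_distrib, ← Finset.mul_sum, ← Finset.mul_sum,
      ← Finset.mul_sum, ← Finset.mul_sum, h3, h4, hp1]
    have := sq_nonneg ‖v‖
    linarith
  have h7 : ∑ i, p i * (‖S‖ ^ 2 + 1) < ∑ i, p i * ‖S + (v - Y i)‖ ^ 2 := by
    apply Finset.sum_lt_sum
    · intro i _
      exact mul_le_mul_of_nonneg_left (hcon i).le (hp i)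
    · by_contra hno
      push Not at hno
      have h8 : ∀ i, p i = 0 := by
        intro i
        by_contra hpi
        have h9 : 0 < p i := lt_of_le_of_ne (hp i) (Ne.symm hpi)
        have h10 := hno i (Finset.mem_univ i)
        have h11 := mul_lt_mul_of_pos_left (hcon i) h9
        linarith
      rw [Finset.sum_congr rfl (fun i _ => h8 i), Finset.sum_const_zero] at hp1
      exact zero_ne_one hp1
  rw [← Finset.sum_mul, hp1, one_mul] at h7
  linarith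

theorem mauA_ms {D M : ℕ} (Y : Fin M → EuclideanSpace ℝ (Fin D)) (hY : ∀ i, ‖Y i‖ ≤ 1)
    (v : EuclideanSpace ℝ (Fin D)) (hv : v ∈ convexHull ℝ (Set.range Y)) (t : ℕ) :
    ∃ m : Multiset (Fin M), m.card = t ∧ ‖(t : ℝ) • v - (m.map Y).sum‖ ^ 2 ≤ t := by
  obtain ⟨p, p1, p2, p3⟩ := mauA_weights Y v hv
  induction t with
  | zero => exact ⟨0, rfl, by simp⟩
  | succ t ih =>
    obtain ⟨m, m1, m2⟩ := ih
    obtain ⟨i, hi⟩ := mauA_step Y hY p p1 p2 v ((t : ℝ) • v - (m.map Y).sum) p3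
    refine ⟨i ::ₘ m, by rw [Multiset.card_cons, m1], ?_⟩
    have h1 : ((t + 1 : ℕ) : ℝ) • v - ((i ::ₘ m).map Y).sum =
        (t : ℝ) • v - (m.map Y).sum + (v - Y i) := by
      rw [Multiset.map_cons, Multiset.sum_cons]
      push_cast
      rw [add_smul, one_smul]
      abel
    rw [h1]
    push_cast
    linarith

theorem mauA_cover {D M s : ℕ} (hs : 1 ≤ s) (Y : Fin M → EuclideanSpace ℝ (Fin D))
    (hY : ∀ i, ‖Y i‖ ≤ 1) : convexHull ℝ (Set.range Y) ⊆
      ⋃ m : Sym (Fin M) s, Metric.closedBall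
        ((1 / (s : ℝ)) • ((m : Multiset (Fin M)).map Y).sum) (1 / √(s : ℝ)) := by
  intro v hv
  obtain ⟨m, m1, m2⟩ := mauA_ms Y hY v hv s
  refine Set.mem_iUnion.2 ⟨⟨m, m1⟩, ?_⟩
  have hs0 : (0 : ℝ) < s := by exact_mod_cast hs
  rw [Metric.mem_closedBall, dist_eq_norm]
  show ‖v - (1 / (s : ℝ)) • (m.map Y).sum‖ ≤ 1 / √(s : ℝ)
  have h1 : v - (1 / (s : ℝ)) • (m.map Y).sum =
      (1 / (s : ℝ)) • ((s : ℝ) • v - (m.map Y).sum) := by
    rw [smul_sub, smul_smul, one_div_mul_cancel hs0.ne', one_smul]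
  rw [h1, norm_smul, Real.norm_of_nonneg (by positivity)]
  have h2 : ‖(s : ℝ) • v - (m.map Y).sum‖ ≤ √(s : ℝ) := Real.le_sqrt_of_sq_le m2
  calc 1 / (s : ℝ) * ‖(s : ℝ) • v - (m.map Y).sum‖ ≤ 1 / (s : ℝ) * √(s : ℝ) :=
        mul_le_mul_of_nonneg_left h2 (by positivity)
    _ = 1 / √(s : ℝ) := by
        rw [one_div_mul_eq_div, Real.sqrt_div_self']

theorem vMauA : Stmt_MauA := by
  intro D M s hD hs Y hY
  have hs0 : (0 : ℝ) < s := by exact_mod_cast hs
  have hne : Nonempty (Fin D) := ⟨⟨0, hD⟩⟩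
  have hΓ : 0 < Real.Gamma ((D : ℝ) / 2 + 1) := Real.Gamma_pos_of_pos (by positivity)
  calc volume (convexHull ℝ (Set.range Y))
      ≤ volume (⋃ m : Sym (Fin M) s, Metric.closedBall
        ((1 / (s : ℝ)) • ((m : Multiset (Fin M)).map Y).sum) (1 / √(s : ℝ))) :=
        measure_mono (mauA_cover hs Y hY)
    _ ≤ ∑ m : Sym (Fin M) s, volume (Metric.closedBall
        ((1 / (s : ℝ)) • ((m : Multiset (Fin M)).map Y).sum) (1 / √(s : ℝ))) :=
        measure_iUnion_fintype_le _ _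
    _ = ∑ _m : Sym (Fin M) s, ENNReal.ofReal ((√Real.pi ^ D / Real.Gamma ((D : ℝ) / 2 + 1)) /
        √(s : ℝ) ^ D) := by
        refine Finset.sum_congr rfl (fun m _ => ?_)
        rw [EuclideanSpace.volume_closedBall, Fintype.card_fin,
          ← ENNReal.ofReal_pow (by positivity), ← ENNReal.ofReal_mul (by positivity)]
        congr 1
        rw [div_pow, one_pow]
        ring
    _ = _ := by
        rw [Finset.sum_const, Finset.card_univ, Sym.card_sym_eq_choose, Fintype.card_fin,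
          nsmul_eq_mul, ← ENNReal.ofReal_natCast, ← ENNReal.ofReal_mul (by positivity)]
        congr 1
        ring

end Pool.Agent.Tvv
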