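import Pool.Agent.Tvv.Stmts

/-!
# Module MauB (MP_001fdd_co, all numbers of parts): arithmetic
-/

set_option autoImplicit false

namespace Pool.Agent.Tvv

open scoped Classical ENNReal
open Pool.Agent.Tvb (Pos Zero Base Good hat TP)
open MeasureTheory

lemma mauB_k1_zero : k1 0 = 1 / 2 := by
  simp [k1, Real.Gamma_one]

lemma mauB_k1_one : k1 1 = 1 := by
  have h : Real.Gamma ((1 : ℝ) / 2 + 1) = √Real.pi / 2 := by
    rw [Real.Gamma_add_one (by norm_num), Real.Gamma_one_half_eq]; ring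
  have hp : (0 : ℝ) < √Real.pi := Real.sqrt_pos.2 Real.pi_pos
  unfold k1
  rw [Nat.cast_one, h]
  simp only [Nat.factorial_one, Nat.cast_one, pow_one]
  field_simp

lemma mauB_k1_rec (D : ℕ) : k1 (D + 2) = 2 * Real.pi * ((D : ℝ) + 1) * k1 D := by
  have hG : Real.Gamma (((D + 2 : ℕ) : ℝ) / 2 + 1) =
      ((D : ℝ) / 2 + 1) * Real.Gamma ((D : ℝ) / 2 + 1) := by
    rw [← Real.Gamma_add_one (by positivity)]
    congr 1
    push_cast
    ring
  have hpos : 0 < Real.Gamma ((D : ℝ) / 2 + 1) := Real.Gamma_pos_of_pos (by positivity)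
  have hsq : √Real.pi ^ (D + 2) = √Real.pi ^ D * Real.pi := by
    rw [pow_add, Real.sq_sqrt Real.pi_pos.le]
  unfold k1
  rw [hG, hsq, Nat.factorial_succ, Nat.factorial_succ]
  push_cast
  have h2 : (0 : ℝ) < (D : ℝ) / 2 + 1 := by positivity
  field_simp
  ring

lemma mauB_k1_nonneg (D : ℕ) : 0 ≤ k1 D := by
  have hpos : 0 < Real.Gamma ((D : ℝ) / 2 + 1) := Real.Gamma_pos_of_pos (by positivity)
  unfold k1
  positivity

lemma mauB_step (D : ℕ) :
    Real.pi ^ 2 * ((D : ℝ) + 1) ^ 2 * (D : ℝ) ^ D ≤ 4 * ((D : ℝ) + 2) ^ (D + 2) := by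
  have hpi : Real.pi ^ 2 ≤ 12 := by
    have h1 := Real.pi_lt_d2
    have h2 := Real.pi_pos
    nlinarith
  rcases Nat.eq_zero_or_pos D with h | h
  · subst h
    simp
    linarith
  · have hD : (0 : ℝ) < D := by exact_mod_cast h
    have hB : (3 : ℝ) ≤ (1 + 2 / (D : ℝ)) ^ D := by
      have h1 : (-2 : ℝ) ≤ 2 / (D : ℝ) := by
        have : (0 : ℝ) ≤ 2 / (D : ℝ) := by positivity
        linarith
      have h2 := one_add_mul_le_pow h1 D
      have h3 : (1 : ℝ) + (D : ℝ) * (2 / (D : ℝ)) = 3 := by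
        field_simp
        norm_num
      linarith
    have hE : ((D : ℝ) + 2) ^ D = (D : ℝ) ^ D * (1 + 2 / (D : ℝ)) ^ D := by
      rw [← mul_pow]
      congr 1
      field_simp
    have hDD : (0 : ℝ) < (D : ℝ) ^ D := by positivity
    have h4 : 3 * (D : ℝ) ^ D ≤ ((D : ℝ) + 2) ^ D := by
      rw [hE]
      nlinarith
    have h5 : ((D : ℝ) + 1) ^ 2 ≤ ((D : ℝ) + 2) ^ 2 := by
      apply pow_le_pow_left₀ (by positivity)
      linarith
    calc Real.pi ^ 2 * ((D : ℝ) + 1) ^ 2 * (D : ℝ) ^ D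
        ≤ 12 * ((D : ℝ) + 2) ^ 2 * (D : ℝ) ^ D := by
          apply mul_le_mul_of_nonneg_right _ hDD.le
          exact mul_le_mul hpi h5 (by positivity) (by norm_num)
      _ = 4 * ((D : ℝ) + 2) ^ 2 * (3 * (D : ℝ) ^ D) := by ring
      _ ≤ 4 * ((D : ℝ) + 2) ^ 2 * ((D : ℝ) + 2) ^ D :=
          mul_le_mul_of_nonneg_left h4 (by positivity)
      _ = 4 * ((D : ℝ) + 2) ^ (D + 2) := by ring

lemma mauB_sq : ∀ D : ℕ, (k1 D) ^ 2 ≤ (4 * (D : ℝ)) ^ D
  | 0 => by rw [mauB_k1_zero]; norm_num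
  | 1 => by rw [mauB_k1_one]; norm_num
  | (D + 2) => by
    have ih := mauB_sq D
    have hs := mauB_step D
    rw [mauB_k1_rec]
    have h4 : (0 : ℝ) < (4 : ℝ) ^ D := by positivity
    calc (2 * Real.pi * ((D : ℝ) + 1) * k1 D) ^ 2
        = 4 * Real.pi ^ 2 * ((D : ℝ) + 1) ^ 2 * (k1 D) ^ 2 := by ring
      _ ≤ 4 * Real.pi ^ 2 * ((D : ℝ) + 1) ^ 2 * (4 * (D : ℝ)) ^ D :=
          mul_le_mul_of_nonneg_left ih (by positivity)
      _ = 4 * 4 ^ D * (Real.pi ^ 2 * ((D : ℝ) + 1) ^ 2 * (D : ℝ) ^ D) := by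
          rw [mul_pow]; ring
      _ ≤ 4 * 4 ^ D * (4 * ((D : ℝ) + 2) ^ (D + 2)) :=
          mul_le_mul_of_nonneg_left hs (by positivity)
      _ = (4 * (((D + 2 : ℕ) : ℝ))) ^ (D + 2) := by
          push_cast
          rw [mul_pow]
          ring

lemma mauB_le (D : ℕ) : k1 D ≤ (2 * √(D : ℝ)) ^ D := by
  have h := mauB_sq D
  have h2 : ((2 * √(D : ℝ)) ^ D) ^ 2 = (4 * (D : ℝ)) ^ D := by
    rw [← pow_mul, mul_comm D 2, pow_mul, mul_pow, Real.sq_sqrt (Nat.cast_nonneg D)]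
    norm_num
  rw [← h2] at h
  exact le_of_sq_le_sq h (by positivity)

lemma mauB_exp_two : Real.exp 1 ^ 2 ≤ 8 := by
  have h := Real.exp_one_lt_d9
  have h0 : (0 : ℝ) < Real.exp 1 := Real.exp_pos 1
  nlinarith

/-- `3 e k L ≤ e^L` for `L = 6 + 2 log k` -/
lemma mauB_log (k : ℕ) (hk : 1 ≤ k) :
    3 * Real.exp 1 * (k : ℝ) * (6 + 2 * Real.log k) ≤ Real.exp (6 + 2 * Real.log k) := by
  have hk0 : (0 : ℝ) < k := by exact_mod_cast hk
  have hl : 0 ≤ Real.log k := Real.log_nonneg (by exact_mod_cast hk)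
  set x := Real.log k with hx
  have hkx : (k : ℝ) = Real.exp x := by rw [hx, Real.exp_log hk0]
  rw [hkx]
  have h1 : x + 1 ≤ Real.exp x := Real.add_one_le_exp x
  have he : (2 : ℝ) ≤ Real.exp 1 := by
    have := Real.exp_one_gt_d9
    linarith
  have h5 : (18 : ℝ) ≤ Real.exp 5 := by
    have : Real.exp 5 = Real.exp 1 ^ 5 := by rw [← Real.exp_nat_mul]; norm_num
    rw [this]
    have h32 : (2 : ℝ) ^ 5 ≤ Real.exp 1 ^ 5 := pow_le_pow_left₀ (by norm_num) he 5
    norm_num at h32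
    linarith
  have h6 : Real.exp (6 + 2 * x) = Real.exp 1 * Real.exp x * (Real.exp 5 * Real.exp x) := by
    rw [← Real.exp_add, ← Real.exp_add, ← Real.exp_add]
    congr 1
    ring
  rw [h6]
  have h7 : 3 * (6 + 2 * x) ≤ Real.exp 5 * Real.exp x := by
    calc 3 * (6 + 2 * x) ≤ 18 * (x + 1) := by linarith
      _ ≤ Real.exp 5 * Real.exp x := mul_le_mul h5 h1 (by linarith) (by positivity)
  calc 3 * Real.exp 1 * Real.exp x * (6 + 2 * x)
      = Real.exp 1 * Real.exp x * (3 * (6 + 2 * x)) := by ring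
    _ ≤ _ := mul_le_mul_of_nonneg_left h7 (by positivity)

/-- `choose N s ≤ (e N / s)^s` -/
lemma mauB_choose (N s : ℕ) (hs : 1 ≤ s) :
    (N.choose s : ℝ) ≤ (Real.exp 1 * ((N : ℝ) / s)) ^ s := by
  have hs0 : (0 : ℝ) < s := by exact_mod_cast hs
  have h1 : (N.choose s : ℝ) ≤ (N : ℝ) ^ s / (s.factorial : ℝ) :=
    Nat.choose_le_pow_div s N
  have h2 : (s : ℝ) ^ s / (s.factorial : ℝ) ≤ Real.exp s :=
    Real.pow_div_factorial_le_exp (s : ℝ) hs0.le s
  have h3 : Real.exp s = Real.exp 1 ^ s := by rw [← Real.exp_nat_mul]; simp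
  calc (N.choose s : ℝ) ≤ (N : ℝ) ^ s / (s.factorial : ℝ) := h1
    _ = ((N : ℝ) / s) ^ s * ((s : ℝ) ^ s / (s.factorial : ℝ)) := by
        rw [div_pow]
        field_simp
    _ ≤ ((N : ℝ) / s) ^ s * Real.exp s := mul_le_mul_of_nonneg_left h2 (by positivity)
    _ = (Real.exp 1 * ((N : ℝ) / s)) ^ s := by rw [h3, mul_pow]; ring

theorem vMauB : Stmt_MauB := by
  intro k D hk hD
  have hk0 : (0 : ℝ) < k := by exact_mod_cast hk
  have hk1 : (1 : ℝ) ≤ k := by exact_mod_cast hk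
  have hD0 : (0 : ℝ) < D := by exact_mod_cast hD
  have hl : 0 ≤ Real.log k := Real.log_nonneg (by exact_mod_cast hk)
  have hlog := mauB_log k hk
  unfold k2
  set L : ℝ := 6 + 2 * Real.log k with hL
  have hL6 : 6 ≤ L := by rw [hL]; linarith
  have hL0 : 0 < L := by linarith
  have hle := mauB_le D
  rcases le_or_gt (D : ℝ) L with h | h
  · left
    refine hle.trans (pow_le_pow_left₀ (by positivity) ?_ D)
    have h1 : √(D : ℝ) ≤ √L := Real.sqrt_le_sqrt h
    have h2 : 0 ≤ √L := Real.sqrt_nonneg L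
    nlinarith
  · right
    set s : ℕ := ⌈(D : ℝ) / L⌉₊ with hsdef
    have hDL : 1 < (D : ℝ) / L := (one_lt_div hL0).2 h
    have hs_ge : (D : ℝ) / L ≤ s := Nat.le_ceil _
    have hs_lt : (s : ℝ) < (D : ℝ) / L + 1 := Nat.ceil_lt_add_one (by positivity)
    have hs1 : 1 ≤ s := by
      have : (1 : ℝ) < s := lt_of_lt_of_le hDL hs_ge
      exact_mod_cast this.le
    have hs0 : (0 : ℝ) < s := by exact_mod_cast hs1
    refine ⟨s, hs1, ?_⟩
    have hsL : (s : ℝ) * L ≤ 2 * D := by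
      have h1 : (s : ℝ) ≤ 2 * ((D : ℝ) / L) := by linarith
      calc (s : ℝ) * L ≤ 2 * ((D : ℝ) / L) * L := mul_le_mul_of_nonneg_right h1 hL0.le
        _ = 2 * D := by field_simp
    have hDs : (D : ℝ) ≤ s * L := by
      calc (D : ℝ) = (D : ℝ) / L * L := by field_simp
        _ ≤ s * L := mul_le_mul_of_nonneg_right hs_ge hL0.le
    have hsD : (s : ℝ) ≤ D := by nlinarith
    have hsD' : s ≤ D := by exact_mod_cast hsD
    set N : ℕ := 2 * (k * D) + s - 1 with hN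
    have hNle : (N : ℝ) ≤ 3 * (k * D) := by
      have hkD : D ≤ k * D := Nat.le_mul_of_pos_left D hk
      have : N ≤ 3 * (k * D) := by omega
      exact_mod_cast this
    have hC : (N.choose s : ℝ) ≤ Real.exp 1 ^ (2 * D) := by
      have h1 := mauB_choose N s hs1
      have h2 : (N : ℝ) / s ≤ 3 * k * L := by
        rw [div_le_iff₀ hs0]
        calc (N : ℝ) ≤ 3 * (k * D) := hNle
          _ ≤ 3 * (k * (s * L)) := by
            apply mul_le_mul_of_nonneg_left _ (by norm_num)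
            exact mul_le_mul_of_nonneg_left hDs hk0.le
          _ = 3 * k * L * s := by ring
      have h3 : Real.exp 1 * ((N : ℝ) / s) ≤ Real.exp L := by
        calc Real.exp 1 * ((N : ℝ) / s) ≤ Real.exp 1 * (3 * k * L) :=
              mul_le_mul_of_nonneg_left h2 (Real.exp_pos 1).le
          _ = 3 * Real.exp 1 * (k : ℝ) * L := by ring
          _ ≤ Real.exp L := hlog
      calc (N.choose s : ℝ) ≤ (Real.exp 1 * ((N : ℝ) / s)) ^ s := h1
        _ ≤ Real.exp L ^ s := pow_le_pow_left₀ (by positivity) h3 s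
        _ = Real.exp (s * L) := by rw [Real.exp_nat_mul]
        _ ≤ Real.exp (2 * D) := Real.exp_le_exp.2 hsL
        _ = Real.exp 1 ^ (2 * D) := by
            rw [← Real.exp_nat_mul]
            congr 1
            push_cast
            ring
    have hsq : √(D : ℝ) ≤ √(s : ℝ) * √L := by
      rw [← Real.sqrt_mul hs0.le]
      exact Real.sqrt_le_sqrt hDs
    have hss : 0 < √(s : ℝ) := Real.sqrt_pos.2 hs0
    have hLL : 0 < √L := Real.sqrt_pos.2 hL0
    have hk1n := mauB_k1_nonneg D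
    rw [div_le_iff₀ (pow_pos hss D)]
    calc k1 D * (N.choose s : ℝ)
        ≤ (2 * √(D : ℝ)) ^ D * Real.exp 1 ^ (2 * D) :=
          mul_le_mul hle hC (Nat.cast_nonneg _) (by positivity)
      _ = (2 * √(D : ℝ) * Real.exp 1 ^ 2) ^ D := by
          rw [mul_pow (2 * √(D : ℝ)) (Real.exp 1 ^ 2) D, ← pow_mul]
      _ ≤ (16 * √L * √(s : ℝ)) ^ D := by
          apply pow_le_pow_left₀ (by positivity)
          have he := mauB_exp_two
          calc 2 * √(D : ℝ) * Real.exp 1 ^ 2 ≤ 2 * √(D : ℝ) * 8 :=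
                mul_le_mul_of_nonneg_left he (by positivity)
            _ = 16 * √(D : ℝ) := by ring
            _ ≤ 16 * (√(s : ℝ) * √L) := mul_le_mul_of_nonneg_left hsq (by norm_num)
            _ = 16 * √L * √(s : ℝ) := by ring
      _ = (16 * √L) ^ D * √(s : ℝ) ^ D := by rw [mul_pow (16 * √L) (√(s : ℝ)) D]

end Pool.Agent.Tvv
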