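import Pool.Agent.Tvv.Stmts

/-!
# Module MauC: the second constant
-/

set_option autoImplicit false

namespace Pool.Agent.Tvv

open scoped Classical ENNReal
open Pool.Agent.Tvb (Pos Zero Base Good hat TP)
open MeasureTheory

/-- the points and their negatives -/
noncomputable def MauC_Y {k D : ℕ} (z : J k D → Fin D → ℝ) (p : Bool × J k D) :
    EuclideanSpace ℝ (Fin D) :=
  if p.1 then WithLp.toLp 2 (z p.2) else - WithLp.toLp 2 (z p.2)

/-- the convex hull -/
noncomputable def MauC_K {k D : ℕ} (z : J k D → Fin D → ℝ) : Set (EuclideanSpace ℝ (Fin D)) :=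
  convexHull ℝ (Set.range (MauC_Y z))

theorem MauC_mem {k D : ℕ} (z : J k D → Fin D → ℝ) (a : J k D) :
    WithLp.toLp 2 (z a) ∈ MauC_K z :=
  subset_convexHull ℝ _ ⟨(true, a), by simp [MauC_Y]⟩

theorem MauC_mem' {k D : ℕ} (z : J k D → Fin D → ℝ) (a : J k D) :
    - WithLp.toLp 2 (z a) ∈ MauC_K z :=
  subset_convexHull ℝ _ ⟨(false, a), by simp [MauC_Y]⟩

theorem MauC_neg {k D : ℕ} (z : J k D → Fin D → ℝ) (v : EuclideanSpace ℝ (Fin D))
    (hv : v ∈ MauC_K z) : -v ∈ MauC_K z := by
  have h1 : -(MauC_K z) = MauC_K z := by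
    unfold MauC_K
    rw [← convexHull_neg]
    congr 1
    ext v
    constructor
    · rintro ⟨⟨b, a⟩, h⟩
      refine ⟨(!b, a), ?_⟩
      have h' : v = - MauC_Y z (b, a) := by rw [h]; simp
      rw [h']
      cases b <;> simp [MauC_Y]
    · rintro ⟨⟨b, a⟩, h⟩
      refine ⟨(!b, a), ?_⟩
      show MauC_Y z (!b, a) = -v
      rw [← h]
      cases b <;> simp [MauC_Y]
  rw [← h1]
  simpa using hv

theorem MauC_convex {k D : ℕ} (z : J k D → Fin D → ℝ) : Convex ℝ (MauC_K z) :=
  convex_convexHull ℝ _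

theorem MauC_compact {k D : ℕ} (z : J k D → Fin D → ℝ) : IsCompact (MauC_K z) :=
  (Set.finite_range _).isCompact_convexHull ℝ

/-- the points span the space -/
theorem MauC_span {k D : ℕ} (hk : 1 ≤ k) (z : J k D → Fin D → ℝ) (hc : 0 < cc z) :
    Submodule.span ℝ (Set.range fun a => WithLp.toLp 2 (z a)) =
      (⊤ : Submodule ℝ (EuclideanSpace ℝ (Fin D))) := by
  obtain ⟨π, hπ⟩ : ∃ π : J k D → Fin k, dd z (fun a => some (π a)) ≠ 0 := by
    by_contra h
    have h : ∀ π : J k D → Fin k, dd z (fun a => some (π a)) = 0 := by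
      intro π
      by_contra h'
      exact h ⟨π, h'⟩
    have : cc z = 0 := by
      unfold cc
      apply Finset.sum_eq_zero
      intro π _
      rw [h π]; simp
    linarith
  rw [eq_top_iff]
  intro v _
  by_contra hv
  -- a linear functional which vanishes on the span and not at v
  obtain ⟨f, hf1, hf2⟩ := Submodule.exists_le_ker_of_notMem hv
  have hexp : ∀ w : Fin D → ℝ, f (WithLp.toLp 2 w) =
      ∑ i, w i * f (WithLp.toLp 2 (Pi.single i (1:ℝ))) := by
    intro w
    have h1 : (WithLp.toLp 2 w : EuclideanSpace ℝ (Fin D)) =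
        ∑ i, w i • (WithLp.toLp 2 (Pi.single i (1:ℝ)) : EuclideanSpace ℝ (Fin D)) := by
      ext j
      simp [Pi.single_apply]
    rw [h1, map_sum]
    apply Finset.sum_congr rfl
    intro i _
    rw [map_smul, smul_eq_mul]
  have hz0 : ∀ a, ∑ i, z a i * f (WithLp.toLp 2 (Pi.single i (1:ℝ))) = 0 := by
    intro a
    rw [← hexp]
    have := hf2 (Submodule.subset_span ⟨a, rfl⟩)
    simpa using this
  apply hπ
  have hdet : ∃ u : J k D → ℝ, u ≠ 0 ∧
      (Matrix.of (UU z (fun a => some (π a)))).mulVec u = 0 := by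
    refine ⟨fun c => if c.1 = ⟨0, hk⟩ then f (WithLp.toLp 2 (Pi.single c.2 (1:ℝ))) else 0, ?_, ?_⟩
    · intro h0
      apply hf1
      have h1 : v = WithLp.toLp 2 (WithLp.ofLp v) := rfl
      rw [h1, hexp]
      apply Finset.sum_eq_zero
      intro i _
      have h2 := congrFun h0 (⟨0, hk⟩, i)
      simp only [if_true, Pi.zero_apply] at h2
      rw [h2, mul_zero]
    · ext a
      simp only [Matrix.mulVec, dotProduct, Matrix.of_apply, UU, Pi.zero_apply]
      rw [Fintype.sum_prod_type]
      rw [Finset.sum_eq_single (⟨0, hk⟩ : Fin k)]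
      · simp only [if_true]
        have h3 := hz0 a
        calc ∑ i, ev (some (π a)) ⟨0, hk⟩ * z a i * f (WithLp.toLp 2 (Pi.single i (1:ℝ)))
            = ev (some (π a)) ⟨0, hk⟩ * ∑ i, z a i * f (WithLp.toLp 2 (Pi.single i (1:ℝ))) := by
              rw [Finset.mul_sum]
              apply Finset.sum_congr rfl
              intro i _
              ring
          _ = 0 := by rw [h3, mul_zero]
      · intro j _ hj
        apply Finset.sum_eq_zero
        intro i _
        simp [hj]
      · intro h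
        exact absurd (Finset.mem_univ _) h
  obtain ⟨u, hu1, hu2⟩ := hdet
  exact Matrix.exists_mulVec_eq_zero_iff.mp ⟨u, hu1, hu2⟩

theorem MauC_nhds {k D : ℕ} (hk : 1 ≤ k) (hD : 1 ≤ D) (z : J k D → Fin D → ℝ) (hc : 0 < cc z) :
    MauC_K z ∈ nhds (0 : EuclideanSpace ℝ (Fin D)) := by
  have a0 : J k D := (⟨0, hk⟩, ⟨0, hD⟩)
  have h0 : (0 : EuclideanSpace ℝ (Fin D)) ∈ MauC_K z := by
    have h := (MauC_convex z) (MauC_mem z a0) (MauC_mem' z a0) (by norm_num : (0:ℝ) ≤ 1/2)
      (by norm_num : (0:ℝ) ≤ 1/2) (by norm_num)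
    have h2 : (1/2 : ℝ) • WithLp.toLp 2 (z a0) + (1/2 : ℝ) • - WithLp.toLp 2 (z a0) =
        (0 : EuclideanSpace ℝ (Fin D)) := by simp
    rw [h2] at h
    exact h
  have h1 : MauC_K z = convexHull ℝ (insert 0 (Set.range (MauC_Y z))) := by
    apply Set.Subset.antisymm
    · exact convexHull_mono (Set.subset_insert _ _)
    · apply convexHull_min _ (MauC_convex z)
      intro v hv
      rcases hv with hv | hv
      · rw [hv]; exact h0
      · exact subset_convexHull ℝ _ hv
  have h2 : (interior (MauC_K z)).Nonempty := by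
    rw [h1, interior_convexHull_nonempty_iff_affineSpan_eq_top]
    have h3 : (affineSpan ℝ (insert 0 (Set.range (MauC_Y z))) : Set (EuclideanSpace ℝ (Fin D))) =
      Submodule.span ℝ (Set.range (MauC_Y z)) := affineSpan_insert_zero _
    have h4 : Submodule.span ℝ (Set.range (MauC_Y z)) = ⊤ := by
      rw [eq_top_iff, ← MauC_span hk z hc]
      apply Submodule.span_mono
      rintro _ ⟨a, rfl⟩
      exact ⟨(true, a), by simp [MauC_Y]⟩
    rw [h4] at h3
    rw [← SetLike.coe_set_eq, h3]
    simp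
  obtain ⟨v, hv⟩ := h2
  have hv' : -v ∈ interior (MauC_K z) := by
    have h5 : -(MauC_K z) = MauC_K z := by
      ext w
      constructor
      · intro hw
        have := MauC_neg z _ hw
        simpa using this
      · intro hw
        exact MauC_neg z _ hw
    have h6 : interior (-(MauC_K z)) = - interior (MauC_K z) :=
      ((Homeomorph.neg (EuclideanSpace ℝ (Fin D))).preimage_interior (MauC_K z)).symm
    rw [h5] at h6
    rw [h6]
    simpa using hv
  have h7 := (MauC_convex z).interior hv hv' (by norm_num : (0:ℝ) ≤ 1/2)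
      (by norm_num : (0:ℝ) ≤ 1/2) (by norm_num)
  have h8 : (1/2 : ℝ) • v + (1/2 : ℝ) • -v = (0 : EuclideanSpace ℝ (Fin D)) := by simp
  rw [h8] at h7
  exact mem_interior_iff_mem_nhds.mp h7

theorem vMauC (hA : Stmt_MauA) (hB : Stmt_MauB) (hBa : Stmt_Ball) : Stmt_MauC := by
  intro k D hk hD z hz hc
  rcases hB k D hk hD with h | ⟨s, hs, h⟩
  · obtain ⟨N, h1, h2, h3⟩ := hBa k D hD z hz hc
    exact ⟨N, h1, h2, h3.trans h⟩
  have hnh := MauC_nhds hk hD z hc
  have hbd : Bornology.IsBounded (MauC_K z) := (MauC_compact z).isBounded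
  refine ⟨fun w => gauge (MauC_K z) (WithLp.toLp 2 w), ?_, ?_, ?_⟩
  · have habs : Absorbent ℝ (MauC_K z) := absorbent_nhds_zero hnh
    have hneg : ∀ v, gauge (MauC_K z) (-v) = gauge (MauC_K z) v :=
      fun v => gauge_neg (fun x hx => MauC_neg z x hx) v
    refine ⟨?_, ?_, ?_, ?_, ?_, ?_⟩
    · show gauge (MauC_K z) (WithLp.toLp 2 0) = 0
      rw [WithLp.toLp_zero]
      exact gauge_zero
    · intro w
      show gauge (MauC_K z) (WithLp.toLp 2 (-w)) = _
      rw [WithLp.toLp_neg, hneg]
    · intro v w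
      show gauge (MauC_K z) (WithLp.toLp 2 (v + w)) ≤ _
      rw [WithLp.toLp_add]
      exact gauge_add_le (MauC_convex z) habs _ _
    · intro w hw
      have h1 := (gauge_eq_zero habs ((NormedSpace.isVonNBounded_iff ℝ).mpr hbd)).mp hw
      have h2 : w = WithLp.ofLp (WithLp.toLp 2 w) := rfl
      rw [h2, h1]
      simp
    · intro r w
      show gauge (MauC_K z) (WithLp.toLp 2 (r • w)) ≤ _
      rw [WithLp.toLp_smul]
      rcases le_total 0 r with hr | hr
      · rw [gauge_smul_of_nonneg hr, abs_of_nonneg hr]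
        simp
      · have h1 : r • WithLp.toLp 2 w = -((-r) • WithLp.toLp 2 w) := by simp
        rw [h1, hneg, gauge_smul_of_nonneg (by linarith : 0 ≤ -r), abs_of_nonpos hr]
        simp
    · exact (continuous_gauge (MauC_convex z) hnh).comp (PiLp.continuous_toLp 2 _)
  · intro a
    exact gauge_le_one_of_mem (MauC_mem z a)
  · refine le_trans ?_ h
    have habs : Absorbent ℝ (MauC_K z) := absorbent_nhds_zero hnh
    have h0 : (0 : EuclideanSpace ℝ (Fin D)) ∈ MauC_K z := mem_of_mem_nhds hnh
    have hcard : Fintype.card (Fin (2 * (k * D))) = Fintype.card (Bool × J k D) := by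
      simp
    obtain ⟨e⟩ := Fintype.card_eq.mp hcard
    have hY := hA D (2 * (k * D)) s hD hs (fun i => MauC_Y z (e i)) (by
      intro i
      have h1 : ∀ a, ‖(WithLp.toLp 2 (z a) : EuclideanSpace ℝ (Fin D))‖ ≤ 1 := by
        intro a
        rw [EuclideanSpace.norm_eq]
        have h2 : ∑ i, ‖(WithLp.toLp 2 (z a) : EuclideanSpace ℝ (Fin D)) i‖ ^ 2 = 1 := by
          rw [← hz a]
          apply Finset.sum_congr rfl
          intro i _
          rw [Real.norm_eq_abs, sq_abs]
        rw [h2, Real.sqrt_one]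
      unfold MauC_Y
      split_ifs
      · exact h1 _
      · rw [norm_neg]; exact h1 _)
    have hrange : Set.range (fun i => MauC_Y z (e i)) = Set.range (MauC_Y z) := by
      have := e.surjective.range_comp (MauC_Y z)
      exact this
    rw [hrange] at hY
    have hvol : volume {w : Fin D → ℝ | gauge (MauC_K z) (WithLp.toLp 2 w) < 1} ≤
        volume (MauC_K z) := by
      rw [← (PiLp.volume_preserving_toLp (Fin D)).measure_preimage
        (MauC_compact z).isClosed.measurableSet.nullMeasurableSet]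
      apply measure_mono
      intro w hw
      exact setOfPred_gauge_lt_one_subset_self (MauC_convex z) h0 habs hw
    have hfin := hvol.trans hY
    have hpos : 0 ≤ ((2 * (k * D) + s - 1).choose s : ℝ) *
      (√Real.pi ^ D / Real.Gamma ((D : ℝ) / 2 + 1)) / √(s : ℝ) ^ D := by
      have : 0 ≤ Real.Gamma ((D : ℝ) / 2 + 1) := Real.Gamma_nonneg_of_nonneg (by positivity)
      positivity
    have hreal := ENNReal.toReal_mono ENNReal.ofReal_ne_top hfin
    rw [ENNReal.toReal_ofReal hpos] at hreal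
    unfold nu k1
    calc (D.factorial : ℝ) *
          (volume {w : Fin D → ℝ | gauge (MauC_K z) (WithLp.toLp 2 w) < 1}).toReal / 2
        ≤ (D.factorial : ℝ) * (((2 * (k * D) + s - 1).choose s : ℝ) *
      (√Real.pi ^ D / Real.Gamma ((D : ℝ) / 2 + 1)) / √(s : ℝ) ^ D) / 2 := by
          gcongr
      _ = _ := by ring

end Pool.Agent.Tvv
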