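import Pool.Agent.Tvv.Stmts

/-!
# TVV module Nrm: comparison with the sum of the squares (V7)
-/

set_option autoImplicit false

namespace Pool.Agent.Tvv

open scoped Classical ENNReal
open Pool.Agent.Tvb (Pos Zero Base Good hat TP)
open MeasureTheory

/-- the function of one vector -/
noncomputable def Nrm_f {D : ℕ} (l : Fin D → ℝ) (N : (Fin D → ℝ) → ℝ) : (Fin D → ℝ) → ℝ≥0∞ :=
  Set.indicator {w : Fin D → ℝ | 0 < ∑ i, l i * w i} (fun w => ENNReal.ofReal (Real.exp (-N w)))

theorem Nrm_f_meas {D : ℕ} (l : Fin D → ℝ) (N : (Fin D → ℝ) → ℝ) (hN : IsN N) :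
    Measurable (Nrm_f l N) := by
  unfold Nrm_f
  refine Measurable.indicator ?_ ?_
  · exact (Real.measurable_exp.comp hN.cont.measurable.neg).ennreal_ofReal
  · have hc : Continuous (fun w : Fin D → ℝ => ∑ i, l i * w i) := by fun_prop
    exact measurableSet_lt measurable_const hc.measurable

/-- the product function -/
noncomputable def Nrm_phi {k D : ℕ} (l : Fin D → ℝ) (N : (Fin D → ℝ) → ℝ) (v : J k D → ℝ) : ℝ≥0∞ :=
  ∏ j, Nrm_f l N (fun i => v (j, i))

theorem Nrm_phi_meas {k D : ℕ} (l : Fin D → ℝ) (N : (Fin D → ℝ) → ℝ) (hN : IsN N) :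
    Measurable (Nrm_phi (k := k) l N) := by
  unfold Nrm_phi
  refine Finset.measurable_fun_prod _ (fun j _ => ?_)
  exact (Nrm_f_meas l N hN).comp (measurable_pi_lambda _ (fun i => measurable_pi_apply _))

theorem Nrm_VV_nonneg {k D : ℕ} (x : J k D → Fin D → ℝ) (ω : J k D → ℝ) : 0 ≤ VV x ω := by
  unfold VV
  refine Finset.sum_nonneg (fun π _ => ?_)
  split_ifs
  · rw [mul_one]; exact abs_nonneg _
  · rw [mul_zero]

theorem vNrm (hC : Stmt_Const) (hA : Stmt_Ae) (hI : Stmt_Int) (hF : Stmt_Fub) (hH : Stmt_Half)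
    (hLo : Stmt_Low) : Stmt_Nrm := by
  intro k D hk hD x ω l N hG hl hN hNx
  have hl0 : l ≠ 0 := by
    intro h0
    have h := hl (⟨0, hk⟩, ⟨0, hD⟩)
    rw [h0] at h
    simp at h
  have hnu : 0 ≤ nu N := by
    unfold nu
    positivity
  have h1 := hI k D x (Nrm_phi l N) (Nrm_phi_meas l N hN)
  have h2 : ∫⁻ ω', Nrm_phi l N ω' * ENNReal.ofReal (VV x ω') =
      ENNReal.ofReal (nu N) ^ k * ENNReal.ofReal (VV x ω) := by
    have e1 : ∫⁻ ω', Nrm_phi l N ω' * ENNReal.ofReal (VV x ω') =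
        ∫⁻ ω', Nrm_phi (k := k) l N ω' * ENNReal.ofReal (VV x ω) := by
      refine lintegral_congr_ae ?_
      filter_upwards [hA k D x ω hG] with ω' hω'
      rw [hC k D x ω ω' hω']
    rw [e1, lintegral_mul_const _ (Nrm_phi_meas l N hN)]
    congr 1
    have e2 := hF k D (Nrm_f l N) (Nrm_f_meas l N hN)
    have e3 := hH D l N hl0 hN
    unfold Nrm_phi
    rw [e2]
    unfold Nrm_f
    rw [e3]
  have h3 : ENNReal.ofReal (cc x) ≤ ∑ π : J k D → Lb k, ENNReal.ofReal ((dd x π) ^ 2) *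
      ∫⁻ t in {t : J k D → ℝ | ∀ a, 0 < t a}, Nrm_phi l N (∑ a, t a • UU x π a) := by
    unfold cc
    rw [ENNReal.ofReal_sum_of_nonneg (fun π _ => sq_nonneg _)]
    have hinj : Function.Injective (fun (π : J k D → Fin k) (a : J k D) => (some (π a) : Lb k)) := by
      intro π π' h
      funext a
      exact Option.some_injective _ (congrFun h a)
    have e1 : ∑ π : J k D → Fin k, ENNReal.ofReal ((dd x (fun a => some (π a))) ^ 2) ≤
        ∑ π : J k D → Fin k, ENNReal.ofReal ((dd x (fun a => some (π a))) ^ 2) *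
          ∫⁻ t in {t : J k D → ℝ | ∀ a, 0 < t a},
            Nrm_phi l N (∑ a, t a • UU x (fun a => some (π a)) a) := by
      refine Finset.sum_le_sum (fun π _ => ?_)
      by_cases hd : dd x (fun a => some (π a)) = 0
      · rw [hd]; simp
      · have h4 := hLo k D hD x l N hl hN hNx π hd
        exact le_mul_of_one_le_right zero_le h4
    refine e1.trans ?_
    rw [← Finset.sum_image (s := Finset.univ)
      (g := fun (π : J k D → Fin k) (a : J k D) => (some (π a) : Lb k))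
      (f := fun π : J k D → Lb k => ENNReal.ofReal ((dd x π) ^ 2) *
        ∫⁻ t in {t : J k D → ℝ | ∀ a, 0 < t a}, Nrm_phi l N (∑ a, t a • UU x π a))
      (fun π _ π' _ h => hinj h)]
    exact Finset.sum_le_sum_of_subset (Finset.subset_univ _)
  rw [← h1, h2, ← ENNReal.ofReal_pow hnu, ← ENNReal.ofReal_mul (pow_nonneg hnu k)] at h3
  have h4 := (ENNReal.ofReal_le_ofReal_iff
    (mul_nonneg (pow_nonneg hnu k) (Nrm_VV_nonneg x ω))).1 h3
  linarith [h4, mul_comm (nu N ^ k) (VV x ω)]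

end Pool.Agent.Tvv
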