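import Pool.Agent.Tvv.Stmts

/-!
# Polynomials with real zeros only
-/

set_option autoImplicit false

namespace Pool.Agent.Tvv

open scoped Classical ENNReal
open Pool.Agent.Tvb (Pos Zero Base Good hat TP)
open MeasureTheory

theorem uni_bound : ∀ (n : ℕ) (R : Polynomial ℝ), R.natDegree = n →
    (∀ z : ℂ, Polynomial.aeval z R = 0 → z.im = 0) → (∀ s : ℝ, 0 ≤ s → 0 < R.eval s) →
    ∀ s : ℝ, 0 ≤ s → R.eval s ≤ R.eval 0 * Real.exp (s * (R.derivative.eval 0 / R.eval 0)) := by
  intro n
  induction n with
  | zero =>
    intro R hR _ _ s _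
    obtain ⟨c, rfl⟩ := Polynomial.natDegree_eq_zero.1 hR
    simp
  | succ n ih =>
    intro R hR hz hpos s hs
    have hdeg : (R.map (algebraMap ℝ ℂ)).degree ≠ 0 := by
      rw [Polynomial.degree_map]
      intro h
      have h1 : R.natDegree = 0 := by
        rw [Polynomial.natDegree, h]
        rfl
      omega
    obtain ⟨z, hz0⟩ := IsAlgClosed.exists_root (R.map (algebraMap ℝ ℂ)) hdeg
    have hz1 : Polynomial.aeval z R = 0 := by
      rw [Polynomial.IsRoot.def, Polynomial.eval_map_algebraMap] at hz0
      exact hz0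
    have him := hz z hz1
    have hzr : z = (z.re : ℂ) := by
      apply Complex.ext
      · simp
      · simp [him]
    set r := z.re with hr
    have hroot : R.eval r = 0 := by
      rw [hzr] at hz1
      have h1 : Polynomial.aeval ((r : ℝ) : ℂ) R = ((R.eval r : ℝ) : ℂ) := by
        have := Polynomial.aeval_algebraMap_apply ℂ r R
        simpa [Polynomial.coe_aeval_eq_eval] using this
      rw [h1] at hz1
      exact_mod_cast hz1
    have hrneg : r < 0 := by
      by_contra h
      push Not at h
      have := hpos r h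
      rw [hroot] at this
      exact lt_irrefl _ this
    obtain ⟨Q, hQ⟩ := Polynomial.dvd_iff_isRoot.2 (show R.IsRoot r from hroot)
    have hR0 : R ≠ 0 := by
      rintro rfl
      simp at hR
    have hQ0 : Q ≠ 0 := by
      rintro rfl
      rw [mul_zero] at hQ
      exact hR0 hQ
    have hQdeg : Q.natDegree = n := by
      have h1 := congrArg Polynomial.natDegree hQ
      rw [hR, Polynomial.natDegree_mul (Polynomial.X_sub_C_ne_zero r) hQ0,
        Polynomial.natDegree_X_sub_C] at h1
      omega
    have hQz : ∀ z : ℂ, Polynomial.aeval z Q = 0 → z.im = 0 := by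
      intro w hw
      apply hz w
      rw [hQ, map_mul, hw, mul_zero]
    have hev : ∀ t : ℝ, R.eval t = (t - r) * Q.eval t := by
      intro t
      rw [hQ]
      simp
    have hQpos : ∀ t : ℝ, 0 ≤ t → 0 < Q.eval t := by
      intro t ht
      have h1 := hpos t ht
      rw [hev] at h1
      exact (mul_pos_iff_of_pos_left (by linarith)).1 h1
    have hIH := ih Q hQdeg hQz hQpos s hs
    have hQ00 := hQpos 0 le_rfl
    have hder : R.derivative.eval 0 = Q.eval 0 + (-r) * Q.derivative.eval 0 := by
      rw [hQ, Polynomial.derivative_mul]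
      simp
    have hR00 : R.eval 0 = (-r) * Q.eval 0 := by
      rw [hev]
      ring
    have hrp : 0 < -r := by linarith
    have hrne : r ≠ 0 := hrneg.ne
    have hQne : Q.eval 0 ≠ 0 := hQ00.ne'
    have h1 : 1 + s / (-r) ≤ Real.exp (s / (-r)) := by
      have := Real.add_one_le_exp (s / (-r))
      linarith
    have h2 : R.derivative.eval 0 / R.eval 0 = 1 / (-r) + Q.derivative.eval 0 / Q.eval 0 := by
      rw [hder, hR00]
      field_simp
      ring
    have h3 : s - r = (-r) * (1 + s / (-r)) := by
      field_simp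
      ring
    calc R.eval s = (s - r) * Q.eval s := hev s
      _ ≤ (s - r) * (Q.eval 0 * Real.exp (s * (Q.derivative.eval 0 / Q.eval 0))) :=
          mul_le_mul_of_nonneg_left hIH (by linarith)
      _ = (-r) * (1 + s / (-r)) *
          (Q.eval 0 * Real.exp (s * (Q.derivative.eval 0 / Q.eval 0))) := by rw [← h3]
      _ ≤ (-r) * Real.exp (s / (-r)) *
          (Q.eval 0 * Real.exp (s * (Q.derivative.eval 0 / Q.eval 0))) := by
          refine mul_le_mul_of_nonneg_right (mul_le_mul_of_nonneg_left h1 hrp.le) ?_
          exact mul_nonneg hQ00.le (Real.exp_pos _).le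
      _ = R.eval 0 * Real.exp (s * (R.derivative.eval 0 / R.eval 0)) := by
          rw [h2, hR00, mul_add, Real.exp_add]
          rw [mul_one_div]
          ring

theorem vUni : Stmt_Uni := by
  intro R hz hpos hder
  have h0 := hpos 0 le_rfl
  have hs : 0 < R.eval 0 / R.derivative.eval 0 := div_pos h0 hder
  refine ⟨R.eval 0 / R.derivative.eval 0, hs, ?_⟩
  have h1 := uni_bound R.natDegree R rfl hz hpos _ hs.le
  refine h1.trans (le_of_eq ?_)
  have h2 : R.eval 0 / R.derivative.eval 0 * (R.derivative.eval 0 / R.eval 0) = 1 := by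
    field_simp
  rw [h2]
  field_simp

end Pool.Agent.Tvv
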