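import Pool.Agent.Tvv.FinalV
import Pool.Agent.Tvv.Const
import Pool.Agent.Tvv.Ae
import Pool.Agent.Tvv.Int
import Pool.Agent.Tvv.Fub
import Pool.Agent.Tvv.Half
import Pool.Agent.Tvv.Low
import Pool.Agent.Tvv.Nrm
import Pool.Agent.Tvv.Had
import Pool.Agent.Tvv.Uni
import Pool.Agent.Tvv.Der
import Pool.Agent.Tvv.Chn
import Pool.Agent.Tvv.DetH
import Pool.Agent.Tvv.Coe
import Pool.Agent.Tvv.Gur
import Pool.Agent.Tvv.Mdc
import Pool.Agent.Tvv.Cap
import Pool.Agent.Tvv.Pst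
import Pool.Agent.Tvv.Inv
import Pool.Agent.Tvv.Ball
import Pool.Agent.Tvv.MauA
import Pool.Agent.Tvv.MauB
import Pool.Agent.Tvv.MauC
import Pool.Agent.Tvv.ApX
import Pool.Agent.Tvv.ApW
import Pool.Agent.Tvv.Cls
import Pool.Agent.Tvv.Cvx
import Pool.Agent.Tvv.Lab
import Pool.Agent.Tvv.Ari
import Pool.Agent.Tvo.Real
import Pool.Agent.Tvo.Vec
import Pool.Agent.Tvo.Clo

set_option autoImplicit false

namespace Pool.Agent.Tvv

open scoped Classical
open Pool.Agent.Tvb (Pos Zero Base Good hat TP)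

theorem finV (k d : ℕ) (hk : 1 ≤ k) (κ : ℝ) (hκ : 0 < κ) (hK : Kap k (d + 1) κ)
    (S : Finset (EuclideanSpace ℝ (Fin d))) (hS : S.card = k * (d + 1) + 1) :
    (k.factorial : ℝ) ^ d ≤
      (Real.exp 1 * k) ^ (d + 1) * κ ^ k * ((TP (k + 1) S).ncard : ℝ) := by
  have hC : Stmt_Const := vConst (Pool.Agent.Tvo.oVec Pool.Agent.Tvo.oReal)
  have hN : Stmt_Nrm := vNrm hC vAe vInt vFub vHalf vLow
  have hG : Stmt_Gur := vGur (vChn vUni vDer) vDetH vCoe
  have hP : Stmt_Pst := vPst (vCap hG vMdc)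
  exact finalV hN vHad hP vInv (vCls vApX vApW Pool.Agent.Tvo.oClo) vCvx vLab vAri k d hk κ hκ hK
    S hS

theorem k1_pos (D : ℕ) : 0 < k1 D := by
  unfold k1
  have h1 : 0 < Real.Gamma ((D : ℝ) / 2 + 1) := Real.Gamma_pos_of_pos (by positivity)
  have h2 : 0 < √Real.pi := Real.sqrt_pos.2 Real.pi_pos
  positivity

theorem k2_pos (k D : ℕ) (hk : 1 ≤ k) : 0 < k2 k D := by
  unfold k2
  have h1 : 0 ≤ Real.log k := Real.log_nonneg (by exact_mod_cast hk)
  have h2 : 0 < √(6 + 2 * Real.log k) := Real.sqrt_pos.2 (by linarith)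
  positivity

/-- the theorem, for `k + 1` parts -/
theorem mainV (k d : ℕ) (hk : 1 ≤ k)
    (S : Finset (EuclideanSpace ℝ (Fin d))) (hS : S.card = k * (d + 1) + 1) :
    (k.factorial : ℝ) ^ d ≤
      (Real.exp 1 * k) ^ (d + 1) * (min (k1 (d + 1)) (k2 k (d + 1))) ^ k *
        ((TP (k + 1) S).ncard : ℝ) := by
  rcases min_choice (k1 (d + 1)) (k2 k (d + 1)) with h | h
  · rw [h]
    exact finV k d hk _ (k1_pos _) (vBall k (d + 1) (by omega)) S hS
  · rw [h]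
    exact finV k d hk _ (k2_pos k _ hk) (vMauC vMauA vMauB vBall k (d + 1) hk (by omega)) S hS

end Pool.Agent.Tvv
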