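import Pool.Agent.Tvv.Defs

/-!
# Frozen statements (MP_001fdd_co, all numbers of parts)
-/

set_option autoImplicit false

namespace Pool.Agent.Tvv

open scoped Classical ENNReal
open Pool.Agent.Tvb (Pos Zero Base Good hat TP)
open MeasureTheory

/-- V1: the sum of the determinants does not depend on the vector. -/
def Stmt_Const : Prop := ∀ (k D : ℕ) (x : J k D → Fin D → ℝ) (ω ω' : J k D → ℝ),
  (∀ π : J k D → Lb k, dd x π ≠ 0 → Good ω (-ω') (UU x π)) → VV x ω = VV x ω'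

/-- V2: almost all vectors are in general position. -/
def Stmt_Ae : Prop := ∀ (k D : ℕ) (x : J k D → Fin D → ℝ) (ω : J k D → ℝ), Gen x ω →
  ∀ᵐ ω' ∂(volume : Measure (J k D → ℝ)), ∀ π : J k D → Lb k, dd x π ≠ 0 →
    Good ω (-ω') (UU x π)

/-- V3: integration over the cones. -/
def Stmt_Int : Prop := ∀ (k D : ℕ) (x : J k D → Fin D → ℝ) (φ : (J k D → ℝ) → ℝ≥0∞),
  Measurable φ → ∫⁻ ω, φ ω * ENNReal.ofReal (VV x ω) =
    ∑ π : J k D → Lb k, ENNReal.ofReal ((dd x π) ^ 2) *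
      ∫⁻ t in {t : J k D → ℝ | ∀ a, 0 < t a}, φ (∑ a, t a • UU x π a)

/-- V4: Fubini. -/
def Stmt_Fub : Prop := ∀ (k D : ℕ) (φ : (Fin D → ℝ) → ℝ≥0∞), Measurable φ →
  ∫⁻ v : J k D → ℝ, ∏ j, φ (fun i => v (j, i)) = (∫⁻ w, φ w) ^ k

/-- V5: the integral over a half space. -/
def Stmt_Half : Prop := ∀ (D : ℕ) (l : Fin D → ℝ) (N : (Fin D → ℝ) → ℝ), l ≠ 0 → IsN N →
  ∫⁻ w, Set.indicator {w : Fin D → ℝ | 0 < ∑ i, l i * w i}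
    (fun w => ENNReal.ofReal (Real.exp (-N w))) w = ENNReal.ofReal (nu N)

/-- V6: lower bound for the integral over a cone. -/
def Stmt_Low : Prop := ∀ (k D : ℕ), 1 ≤ D → ∀ (x : J k D → Fin D → ℝ) (l : Fin D → ℝ)
  (N : (Fin D → ℝ) → ℝ), (∀ a, 0 < ∑ i, l i * x a i) → IsN N → (∀ a, N (x a) ≤ 1) →
  ∀ π : J k D → Fin k, dd x (fun a => some (π a)) ≠ 0 →
  1 ≤ ∫⁻ t in {t : J k D → ℝ | ∀ a, 0 < t a},
    ∏ j, Set.indicator {w : Fin D → ℝ | 0 < ∑ i, l i * w i}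
      (fun w => ENNReal.ofReal (Real.exp (-N w)))
      (fun i => (∑ a, t a • UU x (fun a => some (π a)) a) (j, i))

/-- V7: comparison with the sum of the squares. -/
def Stmt_Nrm : Prop := ∀ (k D : ℕ), 1 ≤ k → 1 ≤ D → ∀ (x : J k D → Fin D → ℝ) (ω : J k D → ℝ)
  (l : Fin D → ℝ) (N : (Fin D → ℝ) → ℝ), Gen x ω → (∀ a, 0 < ∑ i, l i * x a i) → IsN N →
  (∀ a, N (x a) ≤ 1) → cc x ≤ VV x ω * nu N ^ k

/-- V8: Hadamard. -/
def Stmt_Had : Prop := ∀ (k D : ℕ), 1 ≤ k → ∀ x : J k D → Fin D → ℝ,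
  (∀ a, ∑ i, (x a i) ^ 2 ≤ 1) → ∀ π : J k D → Lb k, (dd x π) ^ 2 ≤ (k : ℝ) ^ D

/-- V9: polynomials of one variable. -/
def Stmt_Uni : Prop := ∀ R : Polynomial ℝ, (∀ z : ℂ, Polynomial.aeval z R = 0 → z.im = 0) →
  (∀ s : ℝ, 0 ≤ s → 0 < R.eval s) → 0 < R.derivative.eval 0 →
  ∃ s : ℝ, 0 < s ∧ R.eval s ≤ Real.exp 1 * R.derivative.eval 0 * s

/-- V10: derivatives. -/
def Stmt_Der : Prop := ∀ (n : ℕ) (f : MvPolynomial (Fin n) ℝ) (N : ℕ) (c : Fin n),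
  HS f (N + 1) → HS (MvPolynomial.pderiv c f) N

/-- V11: the chain of derivatives. -/
def Stmt_Chn : Prop := ∀ (n : ℕ) (f : MvPolynomial (Fin n) ℝ), HS f n →
  ∃ t : Fin n → ℝ, (∀ i, 0 < t i) ∧ MvPolynomial.eval t f ≤
    Real.exp n * MvPolynomial.coeff (∑ i, Finsupp.single i 1) f * ∏ i, t i

/-- V12: determinants. -/
def Stmt_DetH : Prop := ∀ (n : ℕ) (A : Fin n → Matrix (Fin n) (Fin n) ℝ), (∀ i, (A i).PosDef) →
  HS (PA A) n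

/-- V13: the coefficient of the determinant. -/
def Stmt_Coe : Prop := ∀ (n : ℕ) (A : Fin n → Matrix (Fin n) (Fin n) ℝ),
  MvPolynomial.coeff (∑ i, Finsupp.single i 1) (PA A) = md A

/-- V14: the inequality of Gurvits. -/
def Stmt_Gur : Prop := ∀ (ι : Type) [Fintype ι] [DecidableEq ι] (A : ι → Matrix ι ι ℝ),
  (∀ i, (A i).PosDef) → ∃ t : ι → ℝ, (∀ i, 0 < t i) ∧
    Matrix.det (∑ i, t i • A i) ≤ Real.exp (Fintype.card ι) * md A * ∏ i, t i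

/-- V15: the mixed discriminant. -/
def Stmt_Mdc : Prop := ∀ (k D : ℕ) (x : J k D → Fin D → ℝ),
  md (fun a : J k D => Matrix.of fun c c' : J k D =>
    if c.1 = c'.1 then x a c.2 * x a c'.2 else 0) = cc x

/-- V16: the capacity. -/
def Stmt_Cap : Prop := ∀ (k D : ℕ) (x : J k D → Fin D → ℝ), 0 < cc x → ∀ δ : ℝ, 0 < δ →
  ∃ t : J k D → ℝ, (∀ a, 0 < t a) ∧
    (Matrix.det (Matrix.of fun i i' : Fin D => ∑ a, t a * (x a i * x a i'))) ^ k ≤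
      (1 + δ) * Real.exp 1 ^ (k * D) * cc x * ∏ a, t a

/-- V17: the position. -/
def Stmt_Pst : Prop := ∀ (k D : ℕ) (x : J k D → Fin D → ℝ), 1 ≤ k → 0 < cc x → ∀ δ : ℝ, 0 < δ →
  ∃ (g : Matrix (Fin D) (Fin D) ℝ) (r : J k D → ℝ), g.det ≠ 0 ∧ (∀ a, 0 < r a) ∧
    (∀ a, ∑ i, (r a * g.mulVec (x a) i) ^ 2 = 1) ∧
    ((k : ℝ) / Real.exp 1) ^ (k * D) ≤ (1 + δ) * cc (fun a i => r a * g.mulVec (x a) i)

/-- V18: invariance. -/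
def Stmt_Inv : Prop := ∀ (k D : ℕ) (x : J k D → Fin D → ℝ) (ω : J k D → ℝ)
  (g : Matrix (Fin D) (Fin D) ℝ) (r : J k D → ℝ), g.det ≠ 0 → (∀ a, 0 < r a) →
  cnt (fun a i => r a * g.mulVec (x a) i) (fun c => g.mulVec (fun i => ω (c.1, i)) c.2) =
    cnt x ω ∧
  (Gen x ω → Gen (fun a i => r a * g.mulVec (x a) i)
    (fun c : J k D => g.mulVec (fun i => ω (c.1, i)) c.2))

/-- V19: the euclidean norm. -/
def Stmt_Ball : Prop := ∀ k D : ℕ, 1 ≤ D → Kap k D (k1 D)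

/-- V20: the volume of the convex hull of `M` points of the unit ball. -/
def Stmt_MauA : Prop := ∀ (D M s : ℕ), 1 ≤ D → 1 ≤ s → ∀ Y : Fin M → EuclideanSpace ℝ (Fin D),
  (∀ i, ‖Y i‖ ≤ 1) → volume (convexHull ℝ (Set.range Y)) ≤
    ENNReal.ofReal (((M + s - 1).choose s : ℝ) *
      (√Real.pi ^ D / Real.Gamma ((D : ℝ) / 2 + 1)) / √(s : ℝ) ^ D)

/-- V21: arithmetic. -/
def Stmt_MauB : Prop := ∀ k D : ℕ, 1 ≤ k → 1 ≤ D → k1 D ≤ k2 k D ∨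
  ∃ s : ℕ, 1 ≤ s ∧ k1 D * ((2 * (k * D) + s - 1).choose s : ℝ) / √(s : ℝ) ^ D ≤ k2 k D

/-- V22: the second constant. -/
def Stmt_MauC : Prop := ∀ k D : ℕ, 1 ≤ k → 1 ≤ D → Kap k D (k2 k D)

/-- V23: generic vectors. -/
def Stmt_ApX : Prop := ∀ (k D : ℕ) (y : J k D → Fin D → ℝ) (δ : ℝ), 0 < δ →
  ∃ x : J k D → Fin D → ℝ, (∀ a, ‖x a - y a‖ < δ) ∧ 0 < cc x

/-- V24: a generic vector. -/
def Stmt_ApW : Prop := ∀ (k D : ℕ) (x : J k D → Fin D → ℝ) (v : J k D → ℝ) (δ : ℝ), 0 < δ →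
  ∃ ω : J k D → ℝ, ‖ω - v‖ < δ ∧ Gen x ω

/-- V25: limits. -/
def Stmt_Cls : Prop := ∀ (k D : ℕ) (l : Fin D → ℝ) (B : ℝ),
  (∀ (x : J k D → Fin D → ℝ) (ω : J k D → ℝ), (∀ a, 0 < ∑ i, l i * x a i) → 0 < cc x →
    Gen x ω → B ≤ cnt x ω) →
  ∀ (y : J k D → Fin D → ℝ) (v : J k D → ℝ), (∀ a, 0 < ∑ i, l i * y a i) →
  B ≤ ((Finset.univ.filter fun π : J k D → Lb k => ∃ c : Option (J k D) → ℝ,
    (∀ i, 0 ≤ c i) ∧ ∑ i, c i = 1 ∧ ∑ a, c (some a) • UU y π a + c none • v = 0).card : ℝ)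

/-- V26: the labellings are Tverberg labellings. -/
def Stmt_Cvx : Prop := ∀ (k d : ℕ) (q : Option (J k (d + 1)) → EuclideanSpace ℝ (Fin d))
  (f : Option (J k (d + 1)) → Lb k) (c : Option (J k (d + 1)) → ℝ), (∀ s, 0 ≤ c s) →
  ∑ s, c s = 1 → (∀ (j : Fin k) (i : Fin (d + 1)), ∑ s, c s * (ev (f s) j * hat (q s) i) = 0) →
  ∃ y : EuclideanSpace ℝ (Fin d), ∀ h : Lb k, y ∈ convexHull ℝ (q '' {s | f s = h})

/-- V27: labellings and partitions. -/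
def Stmt_Lab : Prop := ∀ (k d : ℕ) (S : Finset (EuclideanSpace ℝ (Fin d)))
  (q : Option (J k (d + 1)) ≃ S) (A : Finset (Option (J k (d + 1)) → Lb k)),
  (∀ f ∈ A, ∃ y : EuclideanSpace ℝ (Fin d), ∀ h : Lb k,
    y ∈ convexHull ℝ ((fun i => (q i : EuclideanSpace ℝ (Fin d))) '' {i | f i = h})) →
  A.card ≤ (k + 1).factorial * (TP (k + 1) S).ncard

/-- V28: arithmetic. -/
def Stmt_Ari : Prop := ∀ (k d : ℕ) (κ T : ℝ), 1 ≤ k → 0 ≤ κ → 0 ≤ T →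
  ((k : ℝ) / Real.exp 1) ^ (k * (d + 1)) ≤
    (k.factorial : ℝ) * T * (√((k : ℝ) ^ (d + 1)) * κ ^ k) →
  (k.factorial : ℝ) ^ d ≤ (Real.exp 1 * k) ^ (d + 1) * κ ^ k * T

end Pool.Agent.Tvv
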